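import Mathlib

/-!
Generating series of generalized derangement numbers and their recursions.
-/

set_option autoImplicit false

namespace Pool.Agent.Lib.MP_a18d4e_ag

open Finset Function

variable {D : ℕ}

/-- the sum of the other variables -/
noncomputable def fo (r : Fin D) : MvPolynomial (Fin D) ℤ := ∑ i ∈ univ.erase r, MvPolynomial.X i

/-- the sum of all variables -/
noncomputable def hall (D : ℕ) : MvPolynomial (Fin D) ℤ := ∑ i, MvPolynomial.X i

/-- modified powers -/
noncomputable def go (r : Fin D) : ℕ → MvPolynomial (Fin D) ℤ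
  | 0 => 1
  | a + 1 => hall D * fo r ^ a

/-- the generating series attached to a set of coordinates -/
noncomputable def FS (S : Finset (Fin D)) : MvPowerSeries (Fin D) ℤ :=
  fun a => MvPolynomial.coeff a (∏ r, if r ∈ S then go r (a r) else fo r ^ (a r))

theorem coeff_FS (S : Finset (Fin D)) (a : Fin D →₀ ℕ) :
    MvPowerSeries.coeff a (FS S) =
      MvPolynomial.coeff a (∏ r, if r ∈ S then go r (a r) else fo r ^ (a r)) := rfl

theorem hall_eq (r : Fin D) : hall D = MvPolynomial.X r + fo r := by
  rw [hall, fo, Finset.add_sum_erase _ _ (mem_univ r)]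

theorem coeff_X_mul_ps (s : Fin D) (F : MvPowerSeries (Fin D) ℤ) (a : Fin D →₀ ℕ) :
    MvPowerSeries.coeff a (MvPowerSeries.X s * F) =
      if a s = 0 then 0 else MvPowerSeries.coeff (a - Finsupp.single s 1) F := by
  rw [MvPowerSeries.X_def, MvPowerSeries.coeff_monomial_mul]
  by_cases h : a s = 0
  · rw [if_pos h, if_neg]
    rw [Finsupp.single_le_iff]
    omega
  · rw [if_neg h, if_pos, one_mul]
    rw [Finsupp.single_le_iff]
    omega

theorem coeff_X_mul_mp (s : Fin D) (F : MvPolynomial (Fin D) ℤ) (a : Fin D →₀ ℕ) :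
    MvPolynomial.coeff a (MvPolynomial.X s * F) =
      if a s = 0 then 0 else MvPolynomial.coeff (a - Finsupp.single s 1) F := by
  rw [MvPolynomial.coeff_X_mul']
  by_cases h : a s = 0 <;> simp [h]

theorem FS_split (S : Finset (Fin D)) (s : Fin D) (a b : Fin D →₀ ℕ)
    (hab : ∀ r, r ≠ s → b r = a r) :
    (∏ r, if r ∈ S then go r (b r) else fo r ^ (b r)) =
      (if s ∈ S then go s (b s) else fo s ^ (b s)) *
        ∏ r ∈ univ.erase s, if r ∈ S.erase s then go r (a r) else fo r ^ (a r) := by
  rw [← Finset.mul_prod_erase _ _ (mem_univ s)]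
  congr 1
  apply Finset.prod_congr rfl
  intro r hr
  have := (mem_erase.1 hr).1
  simp [this, hab r this]

theorem sub_single_ne (a : Fin D →₀ ℕ) (s r : Fin D) (h : r ≠ s) :
    (a - Finsupp.single s 1 : Fin D →₀ ℕ) r = a r := by
  simp [h.symm]

theorem FS_insert (S : Finset (Fin D)) (s : Fin D) (hs : s ∉ S) :
    FS (insert s S) = (1 + MvPowerSeries.X s) * FS S := by
  ext a
  rw [add_mul, one_mul, map_add, coeff_X_mul_ps, coeff_FS, coeff_FS,
    FS_split (insert s S) s a a (fun _ _ => rfl), FS_split S s a a (fun _ _ => rfl),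
    Finset.erase_insert hs, Finset.erase_eq_of_notMem hs, if_pos (mem_insert_self _ _), if_neg hs]
  rcases h : a s with _ | c
  · simp [go]
  · rw [if_neg (Nat.succ_ne_zero c), coeff_FS, FS_split S s a _ (sub_single_ne a s),
      Finset.erase_eq_of_notMem hs, if_neg hs]
    have e : (a - Finsupp.single s 1 : Fin D →₀ ℕ) s = c := by simp [h]
    rw [e, go, hall_eq s, add_mul, add_mul, MvPolynomial.coeff_add, mul_assoc, coeff_X_mul_mp,
      if_neg (by omega), pow_succ', add_comm]

theorem FS_prod (S : Finset (Fin D)) :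
    FS S = (∏ r ∈ S, (1 + MvPowerSeries.X r)) * FS ∅ := by
  induction S using Finset.induction_on with
  | empty => simp
  | insert s S hs ih => rw [FS_insert S s hs, prod_insert hs, ih, mul_assoc]

theorem FS_univ : (FS univ : MvPowerSeries (Fin D) ℤ) =
    1 + ∑ r, MvPowerSeries.X r * FS (univ.erase r) := by
  ext a
  rw [map_add, map_sum, coeff_FS]
  simp only [coeff_X_mul_ps]
  by_cases ha : a = 0
  · subst ha
    simp [go]
  obtain ⟨r0, hr0⟩ : ∃ r, a r ≠ 0 := by
    by_contra hcon
    push Not at hcon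
    exact ha (Finsupp.ext hcon)
  have key : ∀ r, a r ≠ 0 → (∏ r, if r ∈ (univ : Finset (Fin D)) then go r (a r) else
      fo r ^ (a r)) = hall D * (fo r ^ (a r - 1) * ∏ r' ∈ univ.erase r,
        if r' ∈ univ.erase r then go r' (a r') else fo r' ^ (a r')) := by
    intro r hr
    rw [FS_split univ r a a (fun _ _ => rfl), if_pos (mem_univ r)]
    obtain ⟨c, hc⟩ := Nat.exists_eq_succ_of_ne_zero hr
    rw [hc, go, mul_assoc]
    rfl
  have hH : hall D ≠ 0 := by
    intro h
    have := congrArg (MvPolynomial.eval fun _ => (1 : ℤ)) h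
    simp only [hall, map_sum, MvPolynomial.eval_X, sum_const, card_univ, Fintype.card_fin,
      nsmul_eq_mul, mul_one, map_zero, Nat.cast_eq_zero] at this
    have := r0.2
    omega
  rw [key r0 hr0, MvPowerSeries.coeff_one, if_neg ha, zero_add]
  conv_lhs => rw [hall, Finset.sum_mul, MvPolynomial.coeff_sum]
  apply Finset.sum_congr rfl
  intro r _
  rw [coeff_X_mul_mp]
  by_cases hr : a r = 0
  · simp [hr]
  · rw [if_neg hr, if_neg hr, coeff_FS, FS_split (univ.erase r) r a _ (sub_single_ne a r),
      if_neg (notMem_erase _ _), erase_idem,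
      mul_left_cancel₀ hH ((key r0 hr0).symm.trans (key r hr))]
    simp

/-- setting one variable to zero, as a function -/
noncomputable def killF (s : Fin D) (F : MvPowerSeries (Fin D) ℤ) : MvPowerSeries (Fin D) ℤ :=
  fun a => if a s = 0 then MvPowerSeries.coeff a F else 0

/-- setting one variable to zero -/
noncomputable def kill (s : Fin D) : MvPowerSeries (Fin D) ℤ →+* MvPowerSeries (Fin D) ℤ where
  toFun F := killF s F
  map_one' := by
    ext a
    show (if a s = 0 then MvPowerSeries.coeff a 1 else 0) = _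
    by_cases h : a s = 0
    · rw [if_pos h]
    · rw [if_neg h, MvPowerSeries.coeff_one, if_neg]
      rintro rfl
      simp at h
  map_zero' := by
    ext a
    show (if a s = 0 then MvPowerSeries.coeff a 0 else 0) = _
    simp
  map_add' F G := by
    ext a
    show (if a s = 0 then MvPowerSeries.coeff a (F + G) else 0) =
      (if a s = 0 then MvPowerSeries.coeff a F else 0) +
        (if a s = 0 then MvPowerSeries.coeff a G else 0)
    split_ifs <;> simp
  map_mul' F G := by
    ext a
    rw [MvPowerSeries.coeff_mul]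
    show (if a s = 0 then MvPowerSeries.coeff a (F * G) else 0) =
      ∑ p ∈ antidiagonal a, (if p.1 s = 0 then MvPowerSeries.coeff p.1 F else 0) *
        (if p.2 s = 0 then MvPowerSeries.coeff p.2 G else 0)
    rw [MvPowerSeries.coeff_mul]
    by_cases h : a s = 0
    · rw [if_pos h]
      apply Finset.sum_congr rfl
      intro p hp
      have : p.1 s + p.2 s = a s := by rw [← mem_antidiagonal.1 hp]; rfl
      rw [if_pos (by omega), if_pos (by omega)]
    · rw [if_neg h]
      symm
      apply Finset.sum_eq_zero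
      intro p hp
      have : p.1 s + p.2 s = a s := by rw [← mem_antidiagonal.1 hp]; rfl
      by_cases h1 : p.1 s = 0
      · rw [if_neg (show ¬ p.2 s = 0 by omega), mul_zero]
      · rw [if_neg h1, zero_mul]

theorem coeff_kill (s : Fin D) (F : MvPowerSeries (Fin D) ℤ) (a : Fin D →₀ ℕ) :
    MvPowerSeries.coeff a (kill s F) = if a s = 0 then MvPowerSeries.coeff a F else 0 := rfl

theorem kill_X_self (s : Fin D) : kill s (MvPowerSeries.X s) = 0 := by
  ext a
  rw [coeff_kill, MvPowerSeries.coeff_X]
  by_cases h : a s = 0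
  · rw [if_pos h, if_neg]
    · simp
    · rintro rfl
      simp at h
  · simp [h]

theorem kill_X_ne (s r : Fin D) (h : r ≠ s) :
    kill s (MvPowerSeries.X r) = MvPowerSeries.X r := by
  ext a
  rw [coeff_kill, MvPowerSeries.coeff_X]
  by_cases h1 : a s = 0
  · rw [if_pos h1]
  · rw [if_neg h1, if_neg]
    rintro rfl
    simp [h] at h1

theorem kill_prod (s : Fin D) (S : Finset (Fin D)) (hs : s ∉ S) :
    kill s (∏ r ∈ S, (1 + MvPowerSeries.X r)) = ∏ r ∈ S, (1 + MvPowerSeries.X r) := by
  rw [map_prod]
  apply Finset.prod_congr rfl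
  intro r hr
  rw [map_add, map_one, kill_X_ne s r (fun h => hs (h ▸ hr))]

theorem FS_rec (s : Fin D) :
    (FS ∅ : MvPowerSeries (Fin D) ℤ) = kill s (FS ∅) +
      MvPowerSeries.X s * (kill s (FS univ - 1) * FS ∅) ∧
    (FS (univ.erase s) : MvPowerSeries (Fin D) ℤ) = kill s (FS univ) +
      MvPowerSeries.X s * (kill s (FS univ - 1) * FS (univ.erase s)) ∧
    (FS univ : MvPowerSeries (Fin D) ℤ) = kill s (FS univ) +
      MvPowerSeries.X s * (kill s (FS univ) * FS (univ.erase s)) := by
  set A : MvPowerSeries (Fin D) ℤ := FS ∅ with hA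
  set Q : MvPowerSeries (Fin D) ℤ := ∏ r ∈ univ.erase s, (1 + MvPowerSeries.X r) with hQ
  set B : MvPowerSeries (Fin D) ℤ := ∑ r ∈ univ.erase s, MvPowerSeries.X r *
    ∏ r' ∈ (univ.erase r).erase s, (1 + MvPowerSeries.X r') with hB
  have hR : FS (univ.erase s) = Q * A := FS_prod _
  have hU : FS univ = (1 + MvPowerSeries.X s) * (Q * A) := by
    rw [← hR, ← FS_insert _ _ (notMem_erase _ _), insert_erase (mem_univ s)]
  have hU2 : FS univ = 1 + (MvPowerSeries.X s * (Q * A) + (1 + MvPowerSeries.X s) * B * A) := by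
    rw [FS_univ, ← Finset.add_sum_erase _ _ (mem_univ s), hR, hB, Finset.mul_sum, Finset.sum_mul]
    congr 2
    apply Finset.sum_congr rfl
    intro r hr
    have hs : s ∈ univ.erase r := mem_erase.2 ⟨(mem_erase.1 hr).1.symm, mem_univ _⟩
    rw [FS_prod, ← Finset.mul_prod_erase _ _ hs]
    ring
  have kQ : kill s Q = Q := kill_prod s _ (notMem_erase _ _)
  have kB : kill s B = B := by
    rw [hB, map_sum]
    apply Finset.sum_congr rfl
    intro r hr
    rw [map_mul, kill_X_ne s r (mem_erase.1 hr).1, kill_prod s _ (notMem_erase _ _)]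
  have e1 : Q * A = 1 + (1 + MvPowerSeries.X s) * B * A := by
    linear_combination hU2 - hU
  have e2 : Q * kill s A = 1 + B * kill s A := by
    have := congrArg (kill s) e1
    simpa [kQ, kB, kill_X_self] using this
  have kU : kill s (FS univ) = Q * kill s A := by
    rw [hU]
    simp [kQ, kill_X_self]
  have e3 : A = kill s A + MvPowerSeries.X s * ((Q * kill s A - 1) * A) := by
    linear_combination (kill s A) * e1 - (A + MvPowerSeries.X s * A) * e2
  rw [map_sub, map_one, kU, hR]
  refine ⟨e3, ?_, ?_⟩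
  · linear_combination Q * e3
  · rw [hU]
    linear_combination Q * e3

end Pool.Agent.Lib.MP_a18d4e_ag
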