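import Pool.Agent.Lib.MP_a18d4e_ag.Unused
import Pool.Agent.Lib.MP_a18d4e_ag.Series

/-!
The number of good families is a generalized derangement number.
-/

set_option autoImplicit false

namespace Pool.Agent.Lib.MP_a18d4e_ag

open Finset Function

variable {D : ℕ}

open Classical in
/-- the set of good families -/
noncomputable def goods (lo hi : Word D) (α β : ℕ) (z : Word D) : Finset (Finset (Word D)) :=
  (Icc lo hi).powerset.filter (Good lo hi α β z)

theorem mem_goods {lo hi z : Word D} {α β : ℕ} {M : Finset (Word D)} :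
    M ∈ goods lo hi α β z ↔ Good lo hi α β z M := by
  classical
  rw [goods, mem_filter, mem_powerset]
  exact ⟨fun h => h.2, fun h => ⟨fun g hg => mem_Icc.2 (h.1 g hg), h⟩⟩

theorem card_peel {lo hi z : Word D} {α β γ : ℕ} {s : Fin D}
    (hα : 0 < α) (hle : lo ≤ hi) (hs : lo s < hi s) (hpre : ∀ r, r < s → lo r = hi r)
    (hz : ∀ r, r ≠ s → z r = lo r)
    (hγ : (z s = lo s ∧ γ = α + β) ∨ (z s = hi s ∧ γ = α)) :
    (goods lo hi α β z).card = ∑ m ∈ Icc lo (update hi s (lo s)),
      (goods m (update hi s (lo s)) α γ m).card *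
        (goods (update lo s (lo s + 1)) (update m s (hi s)) γ β (update lo s (hi s))).card := by
  simp only [← card_product]
  rw [← card_sigma]
  symm
  have s1 : ∀ m ∈ Icc lo (update hi s (lo s)), ∀ M ∈ goods m (update hi s (lo s)) α γ m,
      ∀ g ∈ M, g s = lo s := by
    intro m hm M hM g hg
    have h1 : g s ≤ update hi s (lo s) s := ((mem_goods.1 hM).1 g hg).2 s
    have h2 : m s ≤ g s := ((mem_goods.1 hM).1 g hg).1 s
    have h3 : lo s ≤ m s := (mem_Icc.1 hm).1 s
    rw [update_self] at h1
    omega
  have s2 : ∀ m, ∀ M ∈ goods (update lo s (lo s + 1)) (update m s (hi s)) γ β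
      (update lo s (hi s)), ∀ g ∈ M, g s ≠ lo s := by
    intro m M hM g hg
    have h1 : update lo s (lo s + 1) s ≤ g s := ((mem_goods.1 hM).1 g hg).1 s
    rw [update_self] at h1
    omega
  have f1 : ∀ M1 M2 : Finset (Word D), (∀ g ∈ M1, g s = lo s) → (∀ g ∈ M2, g s ≠ lo s) →
      (M1 ∪ M2).filter (fun g => g s = lo s) = M1 ∧
        (M1 ∪ M2).filter (fun g => g s ≠ lo s) = M2 := by
    intro M1 M2 h1 h2
    rw [filter_union, filter_union, filter_true_of_mem h1, filter_false_of_mem h2,
      filter_true_of_mem h2, filter_false_of_mem (fun g hg => by simp [h1 g hg])]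
    simp
  apply Finset.card_bij (fun x _ => x.2.1 ∪ x.2.2)
  · rintro ⟨m, M1, M2⟩ hx
    simp only [mem_sigma, mem_product, mem_goods, mem_Icc] at hx
    exact mem_goods.2 (Good.join hpre hs hz hγ hx.1.1 hx.1.2 hx.2.1 hx.2.2)
  · rintro ⟨m, M1, M2⟩ hx ⟨m', M1', M2'⟩ hx' h
    simp only [mem_sigma, mem_product] at hx hx' h
    obtain ⟨a1, a2⟩ := f1 M1 M2 (s1 m hx.1 M1 hx.2.1) (s2 m M2 hx.2.2)
    obtain ⟨b1, b2⟩ := f1 M1' M2' (s1 m' hx'.1 M1' hx'.2.1) (s2 m' M2' hx'.2.2)
    rw [h] at a1 a2
    have e1 : M1 = M1' := a1.symm.trans b1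
    have e2 : M2 = M2' := a2.symm.trans b2
    subst e1 e2
    have e3 : m = m' := by
      funext r
      obtain ⟨g, hg, hgr⟩ := (mem_goods.1 hx.2.1).2.2.1 r _ le_rfl ((mem_Icc.1 hx.1).2 r)
      obtain ⟨g', hg', hgr'⟩ := (mem_goods.1 hx'.2.1).2.2.1 r _ le_rfl ((mem_Icc.1 hx'.1).2 r)
      have h1 : m r ≤ g' r := ((mem_goods.1 hx.2.1).1 g' hg').1 r
      have h2 : m' r ≤ g r := ((mem_goods.1 hx'.2.1).1 g hg).1 r
      omega
    subst e3
    rfl
  · intro M hM
    obtain ⟨m, h1, h2, h3, h4⟩ := (mem_goods.1 hM).split hα hle hs hpre hz hγ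
    refine ⟨⟨m, M.filter fun g => g s = lo s, M.filter fun g => g s ≠ lo s⟩, ?_, ?_⟩
    · simp only [mem_sigma, mem_product, mem_goods, mem_Icc]
      exact ⟨⟨h1, h2⟩, h3, h4⟩
    · exact filter_union_filter_not_eq _ _

/-- coefficient at the size of a box -/
noncomputable def cf (F : MvPowerSeries (Fin D) ℤ) (lo hi : Word D) : ℤ :=
  MvPowerSeries.coeff (Finsupp.equivFunOnFinite.symm fun r => hi r - lo r) F

theorem cf_conv (F G : MvPowerSeries (Fin D) ℤ) {lo hi : Word D} {s : Fin D} (hle : lo ≤ hi)
    (hs : lo s < hi s) :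
    cf (kill s (FS ∅) + MvPowerSeries.X s * (kill s F * G)) lo hi =
      ∑ m ∈ Icc lo (update hi s (lo s)), cf F m (update hi s (lo s)) *
        cf G (update lo s (lo s + 1)) (update m s (hi s)) ∧
    cf (kill s (FS univ) + MvPowerSeries.X s * (kill s F * G)) lo hi =
      ∑ m ∈ Icc lo (update hi s (lo s)), cf F m (update hi s (lo s)) *
        cf G (update lo s (lo s + 1)) (update m s (hi s)) := by
  have h0 : (Finsupp.equivFunOnFinite.symm fun r => hi r - lo r : Fin D →₀ ℕ) s ≠ 0 := by
    simp only [Finsupp.equivFunOnFinite_symm_apply_apply]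
    omega
  have key : cf (MvPowerSeries.X s * (kill s F * G)) lo hi =
      ∑ m ∈ Icc lo (update hi s (lo s)), cf F m (update hi s (lo s)) *
        cf G (update lo s (lo s + 1)) (update m s (hi s)) := by
    rw [cf, coeff_X_mul_ps, if_neg h0, MvPowerSeries.coeff_mul]
    simp only [coeff_kill, ite_mul, zero_mul]
    rw [← Finset.sum_filter]
    symm
    apply Finset.sum_nbij' (fun m => (Finsupp.equivFunOnFinite.symm fun r =>
        update hi s (lo s) r - m r, Finsupp.equivFunOnFinite.symm fun r =>
        update m s (hi s) r - update lo s (lo s + 1) r))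
      (fun p => fun r => if r = s then lo s else lo r + p.2 r)
    · intro m hm
      rw [mem_Icc] at hm
      simp only [mem_filter, HasAntidiagonal.mem_antidiagonal]
      have h1 : ∀ r, lo r ≤ m r := hm.1
      have h2 : ∀ r, m r ≤ update hi s (lo s) r := hm.2
      constructor
      · ext r
        have h3 := h1 r
        have h4 := h2 r
        by_cases hr : r = s
        · subst hr
          simp at h4 ⊢
          omega
        · simp [hr] at h4 ⊢
          omega
      · have := h1 s
        simp
        omega
    · intro p hp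
      simp only [mem_filter, HasAntidiagonal.mem_antidiagonal] at hp
      rw [mem_Icc]
      constructor
      · intro r
        by_cases hr : r = s
        · simp [hr]
        · simp [hr]
      · intro r
        by_cases hr : r = s
        · simp [hr]
        · have := congrArg (fun x : Fin D →₀ ℕ => x r) hp.1
          have h3 : lo r ≤ hi r := hle r
          simp [Ne.symm hr] at this
          simp [hr]
          omega
    · intro m hm
      rw [mem_Icc] at hm
      funext r
      have h1 : lo r ≤ m r := hm.1 r
      have h2 : m r ≤ update hi s (lo s) r := hm.2 r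
      by_cases hr : r = s
      · subst hr
        simp at h2 ⊢
        omega
      · simp [hr]
        omega
    · intro p hp
      simp only [mem_filter, HasAntidiagonal.mem_antidiagonal] at hp
      have h2 := hp.2
      ext r
      · have := congrArg (fun x : Fin D →₀ ℕ => x r) hp.1
        by_cases hr : r = s
        · subst hr
          simp [h2]
        · simp [Ne.symm hr] at this
          simp [hr]
          omega
      · have := congrArg (fun x : Fin D →₀ ℕ => x r) hp.1
        by_cases hr : r = s
        · subst hr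
          simp [h2] at this ⊢
          omega
        · simp [hr]
    · intro m _
      rfl
  rw [← key]
  constructor <;> simp only [cf, map_add, coeff_kill, if_neg h0, zero_add]

theorem goods_zero {lo hi z z' : Word D} {α : ℕ} : goods lo hi α 0 z = goods lo hi α 0 z' := by
  ext M
  simp [mem_goods, Good, RelAt]

theorem cf_point (S : Finset (Fin D)) (lo : Word D) : cf (FS S) lo lo = 1 := by
  have : (Finsupp.equivFunOnFinite.symm fun r => lo r - lo r : Fin D →₀ ℕ) = 0 := by
    ext r
    simp
  rw [cf, this]
  simp [coeff_FS, go]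

theorem cf_sub_one (F : MvPowerSeries (Fin D) ℤ) {lo hi : Word D} (hle : lo ≤ hi) :
    cf (F - 1) lo hi = cf F lo hi - if lo = hi then 1 else 0 := by
  rw [cf, map_sub, MvPowerSeries.coeff_one]
  congr 1
  apply if_congr _ rfl rfl
  constructor
  · intro h
    funext r
    have := congrArg (fun x : Fin D →₀ ℕ => x r) h
    have h3 : lo r ≤ hi r := hle r
    simp at this
    omega
  · rintro rfl
    ext r
    simp

theorem card_point (hD : 0 < D) (lo : Word D) (α β : ℕ) :
    (goods lo lo α β lo).card = if α = β then 0 else 1 := by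
  by_cases h : α = β
  · rw [if_pos h, card_eq_zero]
    ext M
    simp [mem_goods, good_point hD, h]
  · rw [if_neg h, card_eq_one]
    refine ⟨{lo}, ?_⟩
    ext M
    simp [mem_goods, good_point hD, h]

theorem count_aux (hD : 0 < D) (N : ℕ) : ∀ (lo hi : Word D) (α β : ℕ),
    ∑ r, (hi r - lo r) < N → 0 < α → lo ≤ hi →
    ((goods lo hi α β lo).card : ℤ) =
      cf (if β = 0 then FS ∅ else if α = β then FS univ - 1 else FS univ) lo hi ∧
    ∀ s, (∀ r, r < s → lo r = hi r) → β < α → 0 < β →
      ((goods lo hi α β (update lo s (hi s))).card : ℤ) = cf (FS (univ.erase s)) lo hi := by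
  induction N with
  | zero => intro lo hi α β h; omega
  | succ N ih =>
    intro lo hi α β hN hα hle
    have main : ((goods lo hi α β lo).card : ℤ) =
        cf (if β = 0 then FS ∅ else if α = β then FS univ - 1 else FS univ) lo hi := by
      by_cases hne : lo = hi
      · subst hne
        rw [card_point hD]
        by_cases h1 : β = 0
        · rw [if_pos h1, if_neg (by omega), cf_point]; rfl
        · rw [if_neg h1]
          by_cases h2 : α = β
          · rw [if_pos h2, if_pos h2, cf_sub_one _ le_rfl, cf_point]; simp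
          · rw [if_neg h2, if_neg h2, cf_point]; rfl
      obtain ⟨s, hs, hpre⟩ := exists_first hle hne
      rw [card_peel (γ := α + β) hα hle hs hpre (fun _ _ => rfl) (Or.inl ⟨rfl, rfl⟩)]
      push_cast
      by_cases h1 : β = 0
      · subst h1
        rw [if_pos rfl, (FS_rec s).1, (cf_conv _ _ hle hs).1]
        apply Finset.sum_congr rfl
        intro m hm
        rw [mem_Icc] at hm
        have hsz := size_split hs hm.1 hm.2
        rw [(ih m _ α (α + 0) (by omega) hα hm.2).1, goods_zero (z' := update lo s (lo s + 1)),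
          (ih _ _ (α + 0) 0 (by omega) hα (rest_le hs hm.1)).1, if_neg (by omega), if_pos rfl,
          if_pos (by omega)]
      · have e : cf (if β = 0 then FS ∅ else if α = β then FS univ - 1 else FS univ) lo hi =
            cf (FS univ) lo hi := by
          rw [if_neg h1]
          by_cases h2 : α = β
          · rw [if_pos h2, cf_sub_one _ hle, if_neg hne, sub_zero]
          · rw [if_neg h2]
        rw [e, (FS_rec s).2.2, (cf_conv _ _ hle hs).2]
        apply Finset.sum_congr rfl
        intro m hm
        rw [mem_Icc] at hm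
        have hsz := size_split hs hm.1 hm.2
        have e2 := (ih _ _ (α + β) β (by omega) (by omega) (rest_le hs hm.1)).2 s
          (fun r hr => by
            have h3 : lo r ≤ m r := hm.1 r
            have h4 : m r ≤ update hi s (lo s) r := hm.2 r
            have := hpre r hr
            rw [update_of_ne hr.ne] at h4
            rw [update_of_ne hr.ne, update_of_ne hr.ne]
            omega) (by omega) (by omega)
        rw [update_idem, update_self] at e2
        rw [(ih m _ α (α + β) (by omega) hα hm.2).1, e2, if_neg (by omega), if_neg (by omega)]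
    refine ⟨main, fun s hpre hβα hβ => ?_⟩
    rcases (show lo s ≤ hi s from hle s).lt_or_eq with hs | hs
    · rw [card_peel (γ := α) hα hle hs hpre (fun r hr => update_of_ne hr _ _)
        (Or.inr ⟨update_self _ _ _, rfl⟩), (FS_rec s).2.1, (cf_conv _ _ hle hs).2]
      push_cast
      apply Finset.sum_congr rfl
      intro m hm
      rw [mem_Icc] at hm
      have hsz := size_split hs hm.1 hm.2
      have e2 := (ih _ _ α β (by omega) (by omega) (rest_le hs hm.1)).2 s
        (fun r hr => by
          have h3 : lo r ≤ m r := hm.1 r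
          have h4 : m r ≤ update hi s (lo s) r := hm.2 r
          have := hpre r hr
          rw [update_of_ne hr.ne] at h4
          rw [update_of_ne hr.ne, update_of_ne hr.ne]
          omega) hβα hβ
      rw [update_idem, update_self] at e2
      rw [(ih m _ α α (by omega) hα hm.2).1, e2, if_neg (by omega), if_pos rfl]
    · rw [← hs, update_eq_self, main, if_neg (by omega), if_neg (by omega), (FS_rec s).2.1]
      conv_lhs => rw [(FS_rec s).2.2]
      have h0 : (Finsupp.equivFunOnFinite.symm fun r => hi r - lo r : Fin D →₀ ℕ) s = 0 := by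
        simp only [Finsupp.equivFunOnFinite_symm_apply_apply]
        omega
      simp only [cf, map_add, coeff_X_mul_ps, if_pos h0]

theorem card_goods (hD : 0 < D) (k : Word D) :
    ((goods 0 k 1 0 0).card : ℤ) =
      MvPolynomial.coeff (Finsupp.equivFunOnFinite.symm k) (∏ r, fo r ^ (k r)) := by
  rw [(count_aux hD _ 0 k 1 0 (Nat.lt_succ_self _) one_pos (fun _ => Nat.zero_le _)).1]
  simp [cf, coeff_FS]

theorem total_count (hD : 0 < D) (n : Word D) :
    (((Icc 0 n).sigma fun k => goods 0 k 1 0 0).card : ℤ) =
      MvPolynomial.coeff (Finsupp.equivFunOnFinite.symm n)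
        (∏ k : Fin D, ∑ j ∈ Finset.range (n k + 1),
          (∑ i ∈ Finset.univ.erase k, (MvPolynomial.X i : MvPolynomial (Fin D) ℤ)) ^ j
            * (MvPolynomial.X k : MvPolynomial (Fin D) ℤ) ^ (n k - j)) := by
  rw [card_sigma, Finset.prod_univ_sum, MvPolynomial.coeff_sum]
  push_cast
  have hI : (Icc 0 n : Finset (Word D)) = Fintype.piFinset fun k => range (n k + 1) := by
    ext k
    simp only [mem_Icc, Fintype.mem_piFinset, mem_range, Nat.lt_succ_iff]
    exact ⟨fun h => h.2, fun h => ⟨fun _ => Nat.zero_le _, h⟩⟩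
  rw [← hI]
  apply Finset.sum_congr rfl
  intro k hk
  have hk' : ∀ r, k r ≤ n r := (mem_Icc.1 hk).2
  rw [card_goods hD, Finset.prod_mul_distrib]
  have e : ∏ r : Fin D, (MvPolynomial.X r : MvPolynomial (Fin D) ℤ) ^ (n r - k r) =
      MvPolynomial.monomial (Finsupp.equivFunOnFinite.symm fun r => n r - k r) 1 := by
    rw [MvPolynomial.monomial_eq, Finsupp.prod_fintype _ _ (by simp)]
    simp
  have e2 : (Finsupp.equivFunOnFinite.symm n : Fin D →₀ ℕ) = Finsupp.equivFunOnFinite.symm k +
      Finsupp.equivFunOnFinite.symm fun r => n r - k r := by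
    ext r
    have := hk' r
    simp
    omega
  rw [e, e2, MvPolynomial.coeff_mul_monomial, mul_one]
  rfl

end Pool.Agent.Lib.MP_a18d4e_ag
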