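import Pool.Agent.Lib.MP_a18d4e_ag.Unused
import Pool.Agent.Lib.MP_a18d4e_ag.Count

-- part Pool.Agent.Lib.MP_a18d4e_ag.Branch
section

/-!
The solution branch attached to a good family (inverse function theorem).
-/

set_option autoImplicit false

namespace Pool.Agent.Lib.MP_a18d4e_ag

open Finset Function Filter Topology

variable {D : ℕ}

theorem ift {E : Type} [NormedAddCommGroup E] [NormedSpace ℂ E] [FiniteDimensional ℂ E]
    (Φ : E → E) (p : E) (hΦ : ContDiff ℂ 1 Φ) (hinj : ∀ v, fderiv ℂ Φ p v = 0 → v = 0) :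
    ∃ ψ : E → E, Tendsto ψ (𝓝 (Φ p)) (𝓝 p) ∧ (∀ᶠ q in 𝓝 (Φ p), Φ (ψ q) = q) ∧
      ∀ᶠ x in 𝓝 p, ψ (Φ x) = x := by
  have : CompleteSpace E := FiniteDimensional.complete ℂ E
  have h1 : Injective (fderiv ℂ Φ p).toLinearMap :=
    (injective_iff_map_eq_zero _).2 fun v hv => hinj v hv
  let e : E ≃L[ℂ] E := (LinearEquiv.ofInjectiveEndo _ h1).toContinuousLinearEquiv
  have h2 : HasStrictFDerivAt Φ (e : E →L[ℂ] E) p := by
    have : (e : E →L[ℂ] E) = fderiv ℂ Φ p := by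
      ext v
      rfl
    rw [this]
    exact hΦ.contDiffAt.hasStrictFDerivAt one_ne_zero
  exact ⟨h2.localInverse Φ e p, h2.localInverse_tendsto, h2.eventually_right_inverse,
    h2.eventually_left_inverse⟩

/-- contraction of the tensor with all vectors but one -/
noncomputable def Dsum (n : Word D) (T : Word D → ℂ) (y : Fin D → ℕ → ℂ) (s : Fin D) (j : ℕ) :
    ℂ :=
  ∑ ι ∈ (Icc 0 n).filter (fun ι => ι s = j), T ι * ∏ r ∈ univ.erase s, y r (ι r)

theorem Dsum_congr {n : Word D} {T : Word D → ℂ} {y y' : Fin D → ℕ → ℂ}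
    (h : ∀ r l, l ≤ n r → y r l = y' r l) (s : Fin D) (j : ℕ) :
    Dsum n T y s j = Dsum n T y' s j := by
  apply Finset.sum_congr rfl
  intro ι hι
  congr 1
  exact Finset.prod_congr rfl fun r _ => h r _ ((mem_Icc.1 (mem_filter.1 hι).1).2 r)

/-- the rescaled system -/
noncomputable def Gm {n k : Word D} {M : Finset (Word D)} (d : Data n k M)
    (y : Fin D → ℕ → ℂ) (t : ℂ) (s : Fin D) (j : ℕ) : ℂ :=
  if j = k s then y s j - 1 else Dsum n (fun ι => t ^ d.ρ ι) y s j -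
    t ^ (2 * d.w s j) * y s j * Dsum n (fun ι => t ^ d.ρ ι) y s (k s)

theorem Gm_congr {n k : Word D} {M : Finset (Word D)} (d : Data n k M) {y y' : Fin D → ℕ → ℂ}
    (h : ∀ r l, l ≤ n r → y r l = y' r l) (t : ℂ) (s : Fin D) (j : ℕ) (hj : j ≤ n s) :
    Gm d y t s j = Gm d y' t s j := by
  simp only [Gm, Dsum_congr h, h s j hj]

/-- extension by zero -/
def ext {n : Word D} {K : Type} [Zero K] (x : ∀ i : Fin D, Fin (n i + 1) → K) (r : Fin D)
    (l : ℕ) : K :=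
  if h : l < n r + 1 then x r ⟨l, h⟩ else 0

theorem ext_res {n : Word D} {K : Type} [Zero K] (y : Fin D → ℕ → K) (r : Fin D) (l : ℕ)
    (h : l ≤ n r) : ext (n := n) (fun r l => y r l) r l = y r l := by
  simp [ext, Nat.lt_succ_of_le h]

theorem ext_val {n : Word D} {K : Type} [Zero K] (x : ∀ i : Fin D, Fin (n i + 1) → K)
    (r : Fin D) (l : Fin (n r + 1)) : ext x r l = x r l := by
  simp [ext, l.2]

/-- the map to be inverted -/
noncomputable def Phi {n k : Word D} {M : Finset (Word D)} (d : Data n k M)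
    (p : (∀ i : Fin D, Fin (n i + 1) → ℂ) × ℂ) : (∀ i : Fin D, Fin (n i + 1) → ℂ) × ℂ :=
  (fun s j => Gm d (ext p.1) p.2 s j, p.2)

theorem contDiff_ext {n : Word D} (r : Fin D) (l : ℕ) :
    ContDiff ℂ 1 fun p : (∀ i : Fin D, Fin (n i + 1) → ℂ) × ℂ => ext p.1 r l := by
  unfold ext
  split_ifs with h
  · have h1 : ContDiff ℂ 1 fun p : (∀ i : Fin D, Fin (n i + 1) → ℂ) × ℂ => p.1 r :=
      contDiff_pi.1 contDiff_fst r
    exact contDiff_pi.1 h1 ⟨l, h⟩
  · exact contDiff_const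

theorem contDiff_Phi {n k : Word D} {M : Finset (Word D)} (d : Data n k M) :
    ContDiff ℂ 1 (Phi d) := by
  have h1 : ∀ s j, ContDiff ℂ 1 fun p : (∀ i : Fin D, Fin (n i + 1) → ℂ) × ℂ =>
      Dsum n (fun ι => p.2 ^ d.ρ ι) (ext p.1) s j := fun s j =>
    ContDiff.sum fun ι _ => (contDiff_snd.pow _).mul (contDiff_prod fun r _ => contDiff_ext r _)
  refine ContDiff.prodMk (contDiff_pi.2 fun s => contDiff_pi.2 fun j => ?_) contDiff_snd
  unfold Gm
  split_ifs with h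
  · exact (contDiff_ext s j).sub contDiff_const
  · exact (h1 s j).sub (((contDiff_snd.pow _).mul (contDiff_ext s j)).mul (h1 s _))

theorem Phi_star {n k : Word D} {M : Finset (Word D)} (d : Data n k M)
    (p : (∀ i : Fin D, Fin (n i + 1) → ℂ) × ℂ) : Phi d (star p) = star (Phi d p) := by
  have h1 : ∀ r l, ext (star p.1) r l = star (ext p.1 r l) := by
    intro r l
    unfold ext
    split_ifs <;> simp
  refine Prod.ext ?_ rfl
  funext s j
  simp only [Phi, Prod.fst_star, Prod.snd_star, Pi.star_apply, Gm, Dsum, h1]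
  split_ifs <;> simp

theorem Dsum_zero {n k : Word D} (hk : k ≤ n) {M : Finset (Word D)} (h : Good 0 k 1 0 0 M)
    (d : Data n k M) (y : Fin D → ℕ → ℂ) (s : Fin D) (j : ℕ) :
    Dsum n (fun ι => (0 : ℂ) ^ d.ρ ι) y s j =
      ∑ g ∈ M.filter (fun g => g s = j), ∏ r ∈ univ.erase s, y r (g r) := by
  unfold Dsum
  symm
  apply Finset.sum_subset_zero_on_sdiff
  · intro g hg
    rw [mem_filter] at hg ⊢
    exact ⟨mem_Icc.2 ⟨(h.1 g hg.1).1, (h.1 g hg.1).2.trans hk⟩, hg.2⟩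
  · intro ι hι
    rw [Finset.mem_sdiff, mem_filter, mem_filter, mem_Icc] at hι
    have : d.ρ ι ≠ 0 := fun h0 => hι.2 ⟨(d.hM ι hι.1.1.2).1 h0, hι.1.2⟩
    simp [this]
  · intro g hg
    rw [mem_filter] at hg
    simp [(d.hM g ((h.1 g hg.1).2.trans hk)).2 hg.1]

theorem Data.marg {n k : Word D} {M : Finset (Word D)} (d : Data n k M) (s : Fin D) (j : ℕ) :
    (d.z s j : ℂ) * ∑ g ∈ M.filter (fun g => g s = j), ∏ r ∈ univ.erase s, (d.z r (g r) : ℂ) =
      if j = k s then (d.μ : ℂ) else 0 := by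
  have := d.rel s fun x => if x = j then 1 else 0
  simp only [mul_ite, mul_one, mul_zero, eq_comm (a := k s)] at this
  rw [← this, Finset.mul_sum, Finset.sum_filter]
  apply Finset.sum_congr rfl
  intro g _
  split_ifs with hg
  · rw [← Finset.mul_prod_erase _ _ (mem_univ s), hg]
  · rfl

theorem Gm_base {n k : Word D} (hk : k ≤ n) {M : Finset (Word D)} (h : Good 0 k 1 0 0 M)
    (d : Data n k M) (s : Fin D) (j : ℕ) : Gm d (fun r l => d.z r l) 0 s j = 0 := by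
  unfold Gm
  split_ifs with hj
  · simp [hj, d.z1]
  rw [Dsum_zero hk h]
  rcases lt_or_gt_of_ne hj with hj' | hj'
  · have h1 := d.marg s j
    have h2 : (d.z s j : ℂ) ≠ 0 := by
      rw [Ne, Complex.ofReal_eq_zero, d.z0]
      omega
    have h3 : d.w s j ≠ 0 := by
      rw [Ne, d.hw]
      omega
    rw [if_neg hj, mul_eq_zero] at h1
    simp [h1.resolve_left h2, h3]
  · rw [filter_false_of_mem]
    · simp [(d.z0 s j).2 hj']
    · intro g hg
      have : g s ≤ k s := (h.1 g hg).2 s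
      omega

theorem hasDerivAt_line {X : Type} (S : Finset X) (z v : X → ℂ) (hz : ∀ r ∈ S, z r ≠ 0) :
    HasDerivAt (fun σ : ℂ => ∏ r ∈ S, (z r + σ * v r))
      ((∏ r ∈ S, z r) * ∑ r ∈ S, v r / z r) 0 := by
  classical
  have := HasDerivAt.fun_finsetProd (u := S) (f := fun r σ => z r + σ * v r) (f' := v) (x := 0)
    fun r _ => by simpa using ((hasDerivAt_id (0 : ℂ)).mul_const (v r)).const_add (z r)
  refine this.congr_deriv (Eq.symm ?_)
  rw [Finset.mul_sum]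
  apply Finset.sum_congr rfl
  intro r hr
  rw [← Finset.mul_prod_erase _ _ hr]
  have := hz r hr
  simp only [zero_mul, add_zero, smul_eq_mul]
  field_simp

theorem deriv_inj (hD : 0 < D) {n k : Word D} (hk : k ≤ n) {M : Finset (Word D)}
    (h : Good 0 k 1 0 0 M) (d : Data n k M) (v : Fin D → ℕ → ℂ)
    (hv : ∀ s j, j ≤ n s →
      HasDerivAt (fun σ : ℂ => Gm d (fun r l => d.z r l + σ * v r l) 0 s j) 0 0) :
    ∀ s j, j ≤ n s → v s j = 0 := by
  have hz : ∀ r l, l ≤ k r → (d.z r l : ℂ) ≠ 0 := fun r l hl => by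
    rw [Ne, Complex.ofReal_eq_zero, d.z0]
    omega
  have hMk : ∀ g ∈ M, ∀ r, g r ≤ k r := fun g hg => (h.1 g hg).2
  have hDs : ∀ s j, HasDerivAt (fun σ : ℂ => Dsum n (fun ι => (0 : ℂ) ^ d.ρ ι)
      (fun r l => d.z r l + σ * v r l) s j) (∑ g ∈ M.filter (fun g => g s = j),
        (∏ r ∈ univ.erase s, (d.z r (g r) : ℂ)) * ∑ r ∈ univ.erase s, v r (g r) / d.z r (g r))
      0 := by
    intro s j
    simp only [Dsum_zero hk h]
    exact HasDerivAt.fun_sum fun g hg => hasDerivAt_line _ _ _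
      fun r _ => hz r _ (hMk g (mem_filter.1 hg).1 r)
  have hl : ∀ s j, HasDerivAt (fun σ : ℂ => (d.z s j : ℂ) + σ * v s j) (v s j) 0 := fun s j => by
    simpa using ((hasDerivAt_id (0 : ℂ)).mul_const (v s j)).const_add (d.z s j : ℂ)
  have v1 : ∀ s, v s (k s) = 0 := by
    intro s
    have h1 := hv s (k s) (hk s)
    simp only [Gm, if_true] at h1
    exact ((hl s (k s)).sub_const 1).unique h1
  have v2 : ∀ s j, j < k s → ∑ g ∈ M.filter (fun g => g s = j),
      (∏ r, (d.z r (g r) : ℂ)) * ∑ r, v r (g r) / d.z r (g r) = 0 := by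
    intro s j hj
    have h1 := hv s j (hj.le.trans (hk s))
    have h3 : 2 * d.w s j ≠ 0 := by
      have := (d.hw s j).not.2 (by omega)
      omega
    simp only [Gm, if_neg hj.ne, zero_pow h3, zero_mul, sub_zero] at h1
    have h2 := (hDs s j).unique h1
    have h4 := d.marg s j
    rw [if_neg hj.ne] at h4
    have e : ∀ g ∈ M.filter (fun g => g s = j),
        (∏ r, (d.z r (g r) : ℂ)) * ∑ r, v r (g r) / d.z r (g r) =
        (d.z s j : ℂ) * ((∏ r ∈ univ.erase s, (d.z r (g r) : ℂ)) *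
          ∑ r ∈ univ.erase s, v r (g r) / d.z r (g r)) + v s j / d.z s j *
          ((d.z s j : ℂ) * ∏ r ∈ univ.erase s, (d.z r (g r) : ℂ)) := by
      intro g hg
      rw [← Finset.mul_prod_erase _ _ (mem_univ s), ← Finset.add_sum_erase _ _ (mem_univ s),
        (mem_filter.1 hg).2]
      ring
    rw [Finset.sum_congr rfl e, Finset.sum_add_distrib, ← Finset.mul_sum, ← Finset.mul_sum,
      ← Finset.mul_sum, h2, h4]
    simp
  set κ : ℂ := ∑ g ∈ M, (∏ r, (d.z r (g r) : ℂ)) * ∑ r, v r (g r) / d.z r (g r) with hκ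
  have v3 : ∀ s (f : ℕ → ℂ), ∑ g ∈ M, ((∏ r, (d.z r (g r) : ℂ)) *
      ∑ r, v r (g r) / d.z r (g r)) * f (g s) = κ * f (k s) := by
    intro s f
    rw [hκ, Finset.sum_mul, ← sub_eq_zero, ← Finset.sum_sub_distrib,
      ← Finset.sum_fiberwise_of_maps_to (s := M) (t := range (k s + 1)) (g := fun g => g s)
        (fun g hg => mem_range.2 (Nat.lt_succ_of_le (hMk g hg s)))]
    apply Finset.sum_eq_zero
    intro j hj
    rw [Finset.sum_congr rfl (g := fun g => ((∏ r, (d.z r (g r) : ℂ)) *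
      ∑ r, v r (g r) / d.z r (g r)) * (f j - f (k s)))
      fun g hg => by rw [(mem_filter.1 hg).2]; ring, ← Finset.sum_mul]
    rcases (Nat.le_of_lt_succ (mem_range.1 hj)).lt_or_eq with h1 | h1
    · rw [v2 s j h1, zero_mul]
    · rw [h1, sub_self, mul_zero]
  have hμ : (d.μ : ℂ) ≠ 0 := Complex.ofReal_ne_zero.2 d.hμ
  have v4 : ∀ g ∈ M, ∑ r, v r (g r) / d.z r (g r) = κ / d.μ := by
    have := indep hD (l := fun g => (∏ r, (d.z r (g r) : ℂ)) * ∑ r, v r (g r) / d.z r (g r) -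
      κ / d.μ * ∏ r, (d.z r (g r) : ℂ)) h.2.1 (by
        intro s f
        simp only [sub_mul, Finset.sum_sub_distrib, v3 s f, mul_assoc (κ / d.μ),
          ← Finset.mul_sum, d.rel s f]
        field_simp
        ring)
    intro g hg
    have h1 := this g hg
    have h2 : (∏ r, (d.z r (g r) : ℂ)) ≠ 0 :=
      Finset.prod_ne_zero_iff.2 fun r _ => hz r _ (hMk g hg r)
    apply mul_left_cancel₀ h2
    linear_combination h1
  have upd : ∀ (ι : Word D) r c, ∑ r', v r' (update ι r c r') / d.z r' (update ι r c r') =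
      ∑ r', v r' (ι r') / d.z r' (ι r') - v r (ι r) / d.z r (ι r) + v r c / d.z r c := by
    intro ι r c
    rw [← Finset.add_sum_erase _ _ (mem_univ r), ← Finset.add_sum_erase _ _ (mem_univ r),
      update_self, Finset.sum_congr rfl (g := fun r' => v r' (ι r') / d.z r' (ι r'))
      fun r' hr' => by rw [update_of_ne (mem_erase.1 hr').1]]
    ring
  have v5 := h.closure hD {ι | ∑ r, v r (ι r) / d.z r (ι r) = κ / d.μ} v4 (by
    intro a ι r c h1 h2 h3 h4
    simp only [Set.mem_ofPred_eq, upd] at h1 h2 h3 ⊢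
    rw [h4]
    linear_combination h2 + h3 - h1)
  intro s j hj
  rcases le_or_gt j (k s) with h1 | h1
  · have h2 := v5 (update k s j) (update_le_iff.2 ⟨h1, fun _ _ => le_rfl⟩)
    have h3 := v5 k le_rfl
    simp only [Set.mem_ofPred_eq, upd] at h2 h3
    rw [h3, v1 s] at h2
    have h4 : v s j / d.z s j = 0 := by linear_combination h2
    exact (div_eq_zero_iff.1 h4).resolve_right (hz s j h1)
  · have h2 := hv s j hj
    have h3 : (M.filter fun g => g s = j) = ∅ := filter_false_of_mem fun g hg => by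
      have := hMk g hg s
      omega
    simp only [Gm, if_neg h1.ne', (d.hw s j).2 h1.le, mul_zero, pow_zero, one_mul] at h2
    have h4 := ((hDs s j).sub ((hl s j).mul (hDs s (k s)))).unique h2
    have h5 := d.marg s (k s)
    simp only [h3, sum_empty, zero_mul, add_zero, (d.z0 s j).2 h1, Complex.ofReal_zero,
      Dsum_zero hk h, zero_sub, neg_eq_zero, mul_eq_zero] at h4
    rw [if_pos rfl, d.z1, Complex.ofReal_one, one_mul] at h5
    exact h4.resolve_right (h5 ▸ hμ)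

theorem exists_branch (hD : 0 < D) {n k : Word D} (hk : k ≤ n) {M : Finset (Word D)}
    (h : Good 0 k 1 0 0 M) (d : Data n k M) : ∃ ζ : ℝ → Fin D → ℕ → ℝ,
      (∀ r l, l ≤ n r → Tendsto (fun t => ζ t r l) (𝓝 0) (𝓝 (d.z r l))) ∧
      (∀ᶠ t : ℝ in 𝓝 0, ∀ s j, j ≤ n s → Gm d (fun r l => ζ t r l) t s j = 0) ∧
      ∀ (U : Filter ℝ), U ≤ 𝓝 0 → ∀ y : ℝ → Fin D → ℕ → ℂ,
        (∀ r l, l ≤ n r → Tendsto (fun t => y t r l) U (𝓝 (d.z r l))) →
        (∀ᶠ t in U, ∀ s j, j ≤ n s → Gm d (y t) t s j = 0) →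
        ∀ᶠ t in U, ∀ r l, l ≤ n r → y t r l = ζ t r l := by
  set p : (∀ i : Fin D, Fin (n i + 1) → ℂ) × ℂ := (fun r l => (d.z r l : ℂ), 0) with hp
  have hΦp : Phi d p = (0, 0) := by
    refine Prod.ext ?_ rfl
    funext s j
    exact (Gm_congr d (fun r l hl => ext_res (fun r l => (d.z r l : ℂ)) r l hl) 0 s j
      (Nat.le_of_lt_succ j.2)).trans (Gm_base hk h d s j)
  obtain ⟨ψ, h1, h2, h3⟩ := ift (Phi d) p (contDiff_Phi d) (by
    intro v hv
    have hline : HasDerivAt (fun σ : ℂ => p + σ • v) v 0 := by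
      simpa using ((hasDerivAt_id (0 : ℂ)).smul_const v).const_add p
    have hd : HasDerivAt (fun σ : ℂ => Phi d (p + σ • v)) 0 0 := by
      have := ((contDiff_Phi d).differentiable one_ne_zero p).hasFDerivAt
      have h2 := HasFDerivAt.comp_hasDerivAt_of_eq (0 : ℂ) this hline (by simp)
      rwa [hv] at h2
    have hv2 : v.2 = 0 := by
      have a1 := (ContinuousLinearMap.snd ℂ (∀ i : Fin D, Fin (n i + 1) → ℂ)
        ℂ).hasFDerivAt.comp_hasDerivAt (0 : ℂ) hd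
      have a2 := (ContinuousLinearMap.snd ℂ (∀ i : Fin D, Fin (n i + 1) → ℂ)
        ℂ).hasFDerivAt.comp_hasDerivAt (0 : ℂ) hline
      exact a2.unique a1
    have hv1 := deriv_inj hD hk h d (ext v.1) (by
      intro s j hj
      have a1 := (ContinuousLinearMap.fst ℂ (∀ i : Fin D, Fin (n i + 1) → ℂ)
        ℂ).hasFDerivAt.comp_hasDerivAt (0 : ℂ) hd
      have a2 : HasDerivAt (fun σ : ℂ => (Phi d (p + σ • v)).1 s ⟨j, Nat.lt_succ_of_le hj⟩) 0 0 :=
        hasDerivAt_pi.1 (hasDerivAt_pi.1 a1 s) ⟨j, Nat.lt_succ_of_le hj⟩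
      refine a2.congr_of_eventuallyEq (Eventually.of_forall fun σ => ?_)
      simp only [Phi, hp, Prod.snd_add, Prod.smul_snd, hv2, smul_zero, add_zero]
      apply Gm_congr d _ _ _ _ hj
      intro r l hl
      simp [ext, Nat.lt_succ_of_le hl])
    refine Prod.ext ?_ hv2
    funext s j
    exact (ext_val v.1 s j).symm.trans (hv1 s j (Nat.le_of_lt_succ j.2)))
  rw [hΦp] at h1 h2
  have hq : Tendsto (fun t : ℝ => ((0, (t : ℂ)) : (∀ i : Fin D, Fin (n i + 1) → ℂ) × ℂ)) (𝓝 0)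
      (𝓝 (0, 0)) := by
    have : Continuous fun t : ℝ => ((0, (t : ℂ)) : (∀ i : Fin D, Fin (n i + 1) → ℂ) × ℂ) := by
      fun_prop
    simpa using this.tendsto 0
  have hψ := h1.comp hq
  have hsp : star p = p := by
    refine Prod.ext ?_ (by simp [hp])
    funext r l
    simp [hp]
  have hψs : Tendsto (fun t : ℝ => star (ψ (0, (t : ℂ)))) (𝓝 0) (𝓝 p) := by
    have := (continuous_star.tendsto p).comp hψ
    rwa [hsp] at this
  have hreal : ∀ᶠ t : ℝ in 𝓝 0, Phi d (ψ (0, (t : ℂ))) = (0, (t : ℂ)) ∧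
      ∀ r l, ext (ψ (0, (t : ℂ))).1 r l = ((ext (ψ (0, (t : ℂ))).1 r l).re : ℂ) := by
    filter_upwards [hq.eventually h2, hψs.eventually h3] with t a1 a2
    refine ⟨a1, fun r l => ?_⟩
    rw [Phi_star, a1] at a2
    have a3 : star ((0, (t : ℂ)) : (∀ i : Fin D, Fin (n i + 1) → ℂ) × ℂ) = (0, (t : ℂ)) := by
      refine Prod.ext (by simp) (by simp)
    rw [a3] at a2
    unfold ext
    split_ifs with hl
    · have a4 := congrFun (congrFun (congrArg Prod.fst a2) r) ⟨l, hl⟩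
      exact (Complex.conj_eq_iff_re.1 a4.symm).symm
    · simp
  refine ⟨fun t r l => (ext (ψ (0, (t : ℂ))).1 r l).re, ?_, ?_, ?_⟩
  · intro r l hl
    have a1 := ((contDiff_ext (n := n) r l).continuous.tendsto p).comp hψ
    have a2 := (Complex.continuous_re.tendsto _).comp a1
    rw [hp, ext_res (fun r l => (d.z r l : ℂ)) r l hl] at a2
    exact a2
  · filter_upwards [hreal] with t ht s j hj
    have a1 := congrFun (congrFun (congrArg Prod.fst ht.1) s) ⟨j, Nat.lt_succ_of_le hj⟩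
    have a2 : (ψ (0, (t : ℂ))).2 = t := congrArg Prod.snd ht.1
    simp only [Phi, a2] at a1
    exact (Gm_congr d (fun r l _ => (ht.2 r l).symm) t s j hj).trans a1
  · intro U hU y hy hG
    have a1 : Tendsto (fun t : ℝ => ((fun r l => y t r l, (t : ℂ)) :
        (∀ i : Fin D, Fin (n i + 1) → ℂ) × ℂ)) U (𝓝 p) := by
      refine Tendsto.prodMk_nhds (tendsto_pi_nhds.2 fun r => tendsto_pi_nhds.2 fun l =>
        hy r l (Nat.le_of_lt_succ l.2)) ?_
      simpa using (Complex.continuous_ofReal.tendsto 0).mono_left hU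
    filter_upwards [a1.eventually h3, hG, hU hreal] with t b1 b2 b3 r l hl
    have b4 : Phi d ((fun r l => y t r l, (t : ℂ)) :
        (∀ i : Fin D, Fin (n i + 1) → ℂ) × ℂ) = (0, (t : ℂ)) := by
      refine Prod.ext ?_ rfl
      funext s j
      exact (Gm_congr d (fun r l hl => ext_res (y t) r l hl) t s j
        (Nat.le_of_lt_succ j.2)).trans (b2 s j (Nat.le_of_lt_succ j.2))
    rw [b4] at b1
    rw [← b3.2 r l, b1, ext_res (y t) r l hl]

end Pool.Agent.Lib.MP_a18d4e_ag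
end

-- part Pool.Agent.Lib.MP_a18d4e_ag.Complete
section

/-!
Every family of complex solutions degenerates to one of the branches.
-/

set_option autoImplicit false

namespace Pool.Agent.Lib.MP_a18d4e_ag

open Finset Function Filter Topology

variable {D : ℕ}

/-- singular tuples of the degenerating tensor -/
def Sol (n : Word D) (t : ℝ) (y : Fin D → ℕ → ℂ) : Prop :=
  (∀ r, ∃ l, l ≤ n r ∧ y r l ≠ 0) ∧
    ∀ s, ∃ c : ℂ, ∀ j, j ≤ n s → Dsum n (fun ι => (t : ℂ) ^ om n ι) y s j = c * y s j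

theorem ultra_argmax {X : Type} (U : Ultrafilter ℝ) (B : Finset X) (hB : B.Nonempty)
    (a : ℝ → X → ℂ) (hne : ∀ᶠ t in U, ∃ ι ∈ B, a t ι ≠ 0) :
    ∃ ι0 ∈ B, ∃ lam : X → ℂ, lam ι0 = 1 ∧ (∀ᶠ t in U, a t ι0 ≠ 0) ∧
      ∀ ι ∈ B, Tendsto (fun t => a t ι / a t ι0) U (𝓝 (lam ι)) := by
  have h1 : ∀ᶠ t in U, ∃ ι0 ∈ (B : Set X), ∀ ι ∈ B, ‖a t ι‖ ≤ ‖a t ι0‖ :=
    Eventually.of_forall fun t => Finset.exists_max_image B (fun ι => ‖a t ι‖) hB
  obtain ⟨ι0, h0, h2⟩ := (Ultrafilter.eventually_exists_mem_iff B.finite_toSet).1 h1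
  have h3 : ∀ᶠ t in U, a t ι0 ≠ 0 := by
    filter_upwards [h2, hne] with t b1 b2 b3
    obtain ⟨ι, hι, b4⟩ := b2
    have := b1 ι hι
    rw [b3, norm_zero, norm_le_zero_iff] at this
    exact b4 this
  have h4 : ∀ ι ∈ B, ∃ L, Tendsto (fun t => a t ι / a t ι0) U (𝓝 L) := by
    intro ι hι
    obtain ⟨L, _, hL⟩ := (isCompact_closedBall (0 : ℂ) 1).ultrafilter_le_nhds
      (U.map fun t => a t ι / a t ι0) (by
        rw [Ultrafilter.coe_map, le_principal_iff, Filter.mem_map]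
        filter_upwards [h2, h3] with t b1 b2
        simp only [Set.mem_preimage, mem_closedBall_zero_iff, norm_div]
        exact div_le_one_of_le₀ (b1 ι hι) (norm_nonneg _))
    exact ⟨L, hL⟩
  choose! lam hlam using h4
  refine ⟨ι0, h0, lam, ?_, h3, hlam⟩
  refine tendsto_nhds_unique (hlam ι0 h0) (tendsto_const_nhds.congr' ?_)
  filter_upwards [h3] with t b1
  rw [div_self b1]

theorem van {U : Filter ℝ} [U.NeBot] (hU : U ≤ 𝓝 0) {u v : ℝ → ℂ} {L L' : ℂ} {e : ℕ}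
    (he : 0 < e) (hu : Tendsto u U (𝓝 L)) (hv : Tendsto v U (𝓝 L'))
    (h : ∀ᶠ t in U, u t = (t : ℂ) ^ e * v t) : L = 0 := by
  have h1 : Tendsto (fun t : ℝ => (t : ℂ)) U (𝓝 0) := by
    simpa using (Complex.continuous_ofReal.tendsto 0).mono_left hU
  have h2 := (h1.pow e).mul hv
  rw [zero_pow he.ne', zero_mul] at h2
  exact tendsto_nhds_unique hu (h2.congr' (h.mono fun t ht => ht.symm))

theorem tendsto_zero_of_sq {U : Filter ℝ} {u : ℝ → ℂ}
    (h : Tendsto (fun t => u t ^ 2) U (𝓝 0)) : Tendsto u U (𝓝 0) := by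
  rw [tendsto_zero_iff_norm_tendsto_zero] at h ⊢
  have := (Real.continuous_sqrt.tendsto 0).comp h
  simpa [Function.comp_def] using this

theorem prod_upd (y : Fin D → ℕ → ℂ) (g : Word D) (s : Fin D) (j : ℕ) :
    ∏ r, y r (update g s j r) = y s j * ∏ r ∈ univ.erase s, y r (g r) := by
  rw [← Finset.mul_prod_erase _ _ (mem_univ s), update_self]
  congr 1
  exact Finset.prod_congr rfl fun r hr => by rw [update_of_ne (mem_erase.1 hr).1]

theorem prod_erase_upd (y : Fin D → ℕ → ℂ) (g : Word D) (s : Fin D) (j : ℕ) :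
    ∏ r ∈ univ.erase s, y r (update g s j r) = ∏ r ∈ univ.erase s, y r (g r) :=
  Finset.prod_congr rfl fun r hr => by rw [update_of_ne (mem_erase.1 hr).1]

theorem prod_erase_upd' (y : Fin D → ℕ → ℂ) (g : Word D) {s r : Fin D} (h : r ≠ s) (j : ℕ) :
    (∏ r' ∈ univ.erase s, y r' (update g r j r')) * y r (g r) =
      (∏ r' ∈ univ.erase s, y r' (g r')) * y r j := by
  have hr : r ∈ univ.erase s := mem_erase.2 ⟨h, mem_univ _⟩
  rw [← Finset.mul_prod_erase _ _ hr, ← Finset.mul_prod_erase _ _ hr, update_self,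
    Finset.prod_congr rfl (g := fun r' => y r' (g r'))
      fun r' hr' => by rw [update_of_ne (mem_erase.1 hr').1]]
  ring

theorem exch_prod (y : Fin D → ℕ → ℂ) {a b a' b' : Word D} (h : Exch a b a' b')
    (S : Finset (Fin D)) : (∏ r ∈ S, y r (a r)) * ∏ r ∈ S, y r (b r) =
      (∏ r ∈ S, y r (a' r)) * ∏ r ∈ S, y r (b' r) := by
  rw [← Finset.prod_mul_distrib, ← Finset.prod_mul_distrib]
  apply Finset.prod_congr rfl
  intro r _
  rcases h r with ⟨h1, h2⟩ | ⟨h1, h2⟩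
  · rw [h1, h2]
  · rw [h1, h2, mul_comm]

theorem rel_of_marg {M : Finset (Word D)} {l : Word D → ℂ} {s : Fin D} {k : ℕ}
    (h1 : ∀ g ∈ M, g s ≤ k) (h2 : ∀ j, j < k → ∑ g ∈ M.filter (fun g => g s = j), l g = 0)
    (f : ℕ → ℂ) : ∑ g ∈ M, l g * f (g s) = (∑ g ∈ M, l g) * f k := by
  rw [Finset.sum_mul, ← sub_eq_zero, ← Finset.sum_sub_distrib,
    ← Finset.sum_fiberwise_of_maps_to (s := M) (t := range (k + 1)) (g := fun g => g s)
      (fun g hg => mem_range.2 (Nat.lt_succ_of_le (h1 g hg)))]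
  apply Finset.sum_eq_zero
  intro j hj
  rw [Finset.sum_congr rfl (g := fun g => l g * (f j - f k))
    fun g hg => by rw [(mem_filter.1 hg).2]; ring, ← Finset.sum_mul]
  rcases (Nat.le_of_lt_succ (mem_range.1 hj)).lt_or_eq with h3 | h3
  · rw [h2 j h3, zero_mul]
  · rw [h3, sub_self, mul_zero]

theorem mem_box {n ι : Word D} : ι ∈ Icc 0 n ↔ ι ≤ n :=
  ⟨fun h => (mem_Icc.1 h).2, fun h => mem_Icc.2 ⟨fun _ => Nat.zero_le _, h⟩⟩

/-- the terms of the multilinear form -/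
noncomputable def term (n : Word D) (t : ℝ) (y : Fin D → ℕ → ℂ) (ι : Word D) : ℂ :=
  (t : ℂ) ^ om n ι * ∏ r, y r (ι r)

/-- the terms of a contraction -/
noncomputable def dterm (n : Word D) (t : ℝ) (y : Fin D → ℕ → ℂ) (s : Fin D) (ι : Word D) : ℂ :=
  (t : ℂ) ^ om n ι * ∏ r ∈ univ.erase s, y r (ι r)

theorem term_eq (n : Word D) (t : ℝ) (y : Fin D → ℕ → ℂ) (s : Fin D) (ι : Word D) :
    term n t y ι = y s (ι s) * dterm n t y s ι := by
  rw [term, dterm, ← Finset.mul_prod_erase _ _ (mem_univ s)]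
  ring

theorem term_upd {n g : Word D} (hg : g ≤ n) (t : ℝ) (y : Fin D → ℕ → ℂ) {s : Fin D} {j : ℕ}
    (hj : j < g s) : term n t y g = (t : ℂ) ^ (om n g - om n (update g s j)) *
      (y s (g s) * dterm n t y s (update g s j)) := by
  have := om_update_lt hg hj
  rw [term_eq n t y s, dterm, dterm, prod_erase_upd,
    show om n g = om n g - om n (update g s j) + om n (update g s j) by omega, pow_add]
  simp only [Nat.add_sub_cancel]
  ring

/-- the limit data of a degenerating family of solutions -/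
structure Lim (n : Word D) (U : Ultrafilter ℝ) (y : ℝ → Fin D → ℕ → ℂ) (c : ℝ → Fin D → ℂ)
    (ι0 : Word D) (lam : Word D → ℂ) : Prop where
  hU : (U : Filter ℝ) ≤ 𝓝[>] 0
  eqn : ∀ᶠ t in U, ∀ s j, j ≤ n s →
    ∑ ι ∈ (Icc 0 n).filter (fun ι => ι s = j), dterm n t (y t) s ι = c t s * y t s j
  mem : ι0 ≤ n
  one : lam ι0 = 1
  ne : ∀ᶠ t in U, term n t (y t) ι0 ≠ 0
  lim : ∀ ι, ι ≤ n → Tendsto (fun t => term n t (y t) ι / term n t (y t) ι0) U (𝓝 (lam ι))

theorem exists_lim (n : Word D) (U : Ultrafilter ℝ) (hU : (U : Filter ℝ) ≤ 𝓝[>] 0)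
    (y : ℝ → Fin D → ℕ → ℂ) (hy : ∀ᶠ t in U, Sol n t (y t)) :
    ∃ c ι0 lam, Lim n U y c ι0 lam := by
  have h1 : ∀ t, ∃ c : Fin D → ℂ, Sol n t (y t) → ∀ s j, j ≤ n s →
      ∑ ι ∈ (Icc 0 n).filter (fun ι => ι s = j), dterm n t (y t) s ι = c s * y t s j := by
    intro t
    by_cases h : Sol n t (y t)
    · choose c hc using h.2
      exact ⟨c, fun _ => hc⟩
    · exact ⟨0, fun h' => absurd h' h⟩
  choose c hc using h1
  obtain ⟨ι0, h0, lam, h2, h3, h4⟩ := ultra_argmax U (Icc 0 n) ⟨n, mem_box.2 le_rfl⟩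
    (fun t => term n t (y t)) (by
      filter_upwards [hy, hU self_mem_nhdsWithin] with t b1 b2
      choose ι h1 h2 using b1.1
      refine ⟨ι, mem_box.2 h1, mul_ne_zero (pow_ne_zero _ ?_)
        (Finset.prod_ne_zero_iff.2 fun r _ => h2 r)⟩
      exact Complex.ofReal_ne_zero.2 (ne_of_gt b2))
  exact ⟨c, ι0, lam, hU, hy.mono hc, mem_box.1 h0, h2, h3, fun ι hι => h4 ι (mem_box.2 hι)⟩

namespace Lim

variable {n : Word D} {U : Ultrafilter ℝ} {y : ℝ → Fin D → ℕ → ℂ} {c : ℝ → Fin D → ℂ}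
  {ι0 : Word D} {lam : Word D → ℂ}

theorem le0 (h : Lim n U y c ι0 lam) : (U : Filter ℝ) ≤ 𝓝 0 := h.hU.trans nhdsWithin_le_nhds

theorem t_ne (h : Lim n U y c ι0 lam) : ∀ᶠ t : ℝ in U, (t : ℂ) ≠ 0 := by
  filter_upwards [h.hU self_mem_nhdsWithin] with t b2
  exact Complex.ofReal_ne_zero.2 (ne_of_gt b2)

theorem std (h : Lim n U y c ι0 lam) {a b : Word D} (ha : a ≤ n) (hb : b ≤ n) (h1 : lam a ≠ 0)
    (h2 : lam b ≠ 0) : Std a b := by
  by_contra hcon
  obtain ⟨a', b', hex, hlt⟩ := swap ha hb hcon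
  refine mul_ne_zero h1 h2 (van h.le0 (e := om n a + om n b - (om n a' + om n b')) (by omega)
    ((h.lim a ha).mul (h.lim b hb)) ((h.lim a' (hex.le ha hb).1).mul (h.lim b' (hex.le ha hb).2))
    (Eventually.of_forall fun t => ?_))
  have e1 := exch_prod (y t) hex univ
  have e2 : (t : ℂ) ^ om n a * t ^ om n b =
      t ^ (om n a + om n b - (om n a' + om n b')) * (t ^ om n a' * t ^ om n b') := by
    simp only [← pow_add]
    congr 1
    omega
  rw [div_mul_div_comm, div_mul_div_comm, ← mul_div_assoc]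
  congr 1
  simp only [term]
  linear_combination (∏ r, y t r (a r)) * (∏ r, y t r (b r)) * e2 +
    (t : ℂ) ^ (om n a + om n b - (om n a' + om n b')) * (t ^ om n a' * t ^ om n b') * e1

theorem marg (h : Lim n U y c ι0 lam) {s : Fin D} {j : ℕ} (hj : j ≤ n s) :
    Tendsto (fun t => c t s * y t s j ^ 2 / term n t (y t) ι0) U
      (𝓝 (∑ ι ∈ (Icc 0 n).filter (fun ι => ι s = j), lam ι)) := by
  refine (tendsto_finsetSum _ fun ι hι => h.lim ι (mem_box.1 (mem_filter.1 hι).1)).congr' ?_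
  filter_upwards [h.eqn] with t ht
  rw [← Finset.sum_div, Finset.sum_congr rfl (g := fun ι => y t s j * dterm n t (y t) s ι)
    fun ι hι => by rw [term_eq n t (y t) s, (mem_filter.1 hι).2], ← Finset.mul_sum, ht s j hj]
  ring

theorem marg_low (h : Lim n U y c ι0 lam) {g : Word D} (hg : g ≤ n) (h1 : lam g ≠ 0) {s : Fin D}
    {j : ℕ} (hj : j < g s) : ∑ ι ∈ (Icc 0 n).filter (fun ι => ι s = j), lam ι = 0 := by
  have hu : update g s j ≤ n := update_le_iff.2 ⟨hj.le.trans (hg s), fun r _ => hg r⟩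
  have hlt := om_update_lt hg hj
  have := van h.le0 (e := 2 * (om n g - om n (update g s j))) (by omega)
    (((h.lim g hg).pow 2).mul (h.marg (hj.le.trans (hg s))))
    (((h.lim _ hu).pow 2).mul (h.marg (hg s))) (Eventually.of_forall fun t => by
      rw [term_upd hg t (y t) hj, term_eq n t (y t) s (update g s j), update_self]
      ring)
  exact (mul_eq_zero.1 this).resolve_left (pow_ne_zero _ h1)

end Lim

/-- the limit data together with the leading family -/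
structure Lim2 (n : Word D) (U : Ultrafilter ℝ) (y : ℝ → Fin D → ℕ → ℂ) (c : ℝ → Fin D → ℂ)
    (ι0 : Word D) (lam : Word D → ℂ) (k : Word D) (M : Finset (Word D)) (μ : ℂ) : Prop
    extends Lim n U y c ι0 lam where
  hk : k ≤ n
  hM : ∀ g, g ∈ M ↔ g ≤ n ∧ lam g ≠ 0
  hMk : ∀ g ∈ M, g ≤ k
  top : ∀ s, ∃ g ∈ M, g s = k s
  hμ : μ ≠ 0
  rel : ∀ s (f : ℕ → ℂ), ∑ g ∈ M, lam g * f (g s) = μ * f (k s)

theorem Lim.exists_lim2 (hD : 0 < D) {n : Word D} {U : Ultrafilter ℝ} {y : ℝ → Fin D → ℕ → ℂ}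
    {c : ℝ → Fin D → ℂ} {ι0 : Word D} {lam : Word D → ℂ} (h : Lim n U y c ι0 lam) :
    ∃ k M μ, Lim2 n U y c ι0 lam k M μ := by
  classical
  set M := (Icc 0 n).filter fun g => lam g ≠ 0 with hMdef
  have hM : ∀ g, g ∈ M ↔ g ≤ n ∧ lam g ≠ 0 := fun g => by rw [hMdef, mem_filter, mem_box]
  have h0 : ι0 ∈ M := (hM ι0).2 ⟨h.mem, by simp [h.one]⟩
  have top : ∀ s, ∃ g ∈ M, g s = M.sup fun g => g s := fun s => by
    obtain ⟨g, hg, h1⟩ := Finset.exists_mem_eq_sup M ⟨ι0, h0⟩ fun g => g s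
    exact ⟨g, hg, h1.symm⟩
  have hMk : ∀ g ∈ M, ∀ s, g s ≤ M.sup fun g => g s := fun g hg s =>
    Finset.le_sup (f := fun g => g s) hg
  have rel : ∀ s (f : ℕ → ℂ), ∑ g ∈ M, lam g * f (g s) =
      (∑ g ∈ M, lam g) * f (M.sup fun g => g s) := by
    intro s
    apply rel_of_marg (fun g hg => hMk g hg s)
    intro j hj
    obtain ⟨g, hg, h1⟩ := top s
    rw [← h.marg_low ((hM g).1 hg).1 ((hM g).1 hg).2 (h1 ▸ hj : j < g s), hMdef, filter_comm,
      Finset.sum_filter_ne_zero]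
  refine ⟨fun s => M.sup fun g => g s, M, ∑ g ∈ M, lam g, h,
    fun s => Finset.sup_le fun g hg => ((hM g).1 hg).1 s, hM, hMk, top, fun h1 => ?_, rel⟩
  have := indep hD (l := lam) (M := M) (fun a ha b hb => h.std ((hM a).1 ha).1 ((hM b).1 hb).1
    ((hM a).1 ha).2 ((hM b).1 hb).2) (fun s f => by rw [rel, h1, zero_mul]) ι0 h0
  exact ((hM ι0).1 h0).2 this

namespace Lim2

variable {n : Word D} {U : Ultrafilter ℝ} {y : ℝ → Fin D → ℕ → ℂ} {c : ℝ → Fin D → ℂ}
  {ι0 : Word D} {lam : Word D → ℂ} {k : Word D} {M : Finset (Word D)} {μ : ℂ}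

theorem compat (h : Lim2 n U y c ι0 lam k M μ) : Compat M := fun a ha b hb =>
  h.std ((h.hM a).1 ha).1 ((h.hM b).1 hb).1 ((h.hM a).1 ha).2 ((h.hM b).1 hb).2

theorem marg2 (h : Lim2 n U y c ι0 lam k M μ) {s : Fin D} {j : ℕ} (hj : j ≤ n s) :
    Tendsto (fun t => c t s * y t s j ^ 2 / term n t (y t) ι0) U
      (𝓝 (if j = k s then μ else 0)) := by
  classical
  have h1 := h.marg hj
  have h2 := h.rel s fun x => if x = j then 1 else 0
  have h3 : M = (Icc 0 n).filter fun g => lam g ≠ 0 := by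
    ext g
    rw [h.hM, mem_filter, mem_box]
  simp only [mul_ite, mul_one, mul_zero, eq_comm (a := k s)] at h2
  rwa [← Finset.sum_filter_ne_zero, filter_comm, ← h3, Finset.sum_filter, h2] at h1

theorem top_ne (h : Lim2 n U y c ι0 lam k M μ) :
    ∀ᶠ t in U, ∀ s, c t s ≠ 0 ∧ y t s (k s) ≠ 0 := by
  rw [eventually_all]
  intro s
  have := h.marg2 (h.hk s)
  rw [if_pos rfl] at this
  filter_upwards [this.eventually_ne h.hμ] with t ht
  constructor <;> intro h0 <;> simp [h0] at ht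

theorem ratio (h : Lim2 n U y c ι0 lam k M μ) {s : Fin D} {j : ℕ} (hj : j ≤ n s)
    (hjk : j ≠ k s) : Tendsto (fun t => y t s j / y t s (k s)) U (𝓝 0) := by
  apply tendsto_zero_of_sq
  have := (h.marg2 hj).div (h.marg2 (h.hk s)) (by simpa using h.hμ)
  rw [if_neg hjk, zero_div] at this
  refine this.congr' ?_
  filter_upwards [h.top_ne, h.ne] with t b1 b2
  have := (b1 s).1
  have := (b1 s).2
  simp only [Pi.div_apply]
  field_simp

theorem used (h : Lim2 n U y c ι0 lam k M μ) (s : Fin D) (j : ℕ) (hj : j ≤ k s) :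
    ∃ g ∈ M, g s = j := by
  by_contra hun
  push Not at hun
  obtain ⟨g, hg, hgs⟩ := h.top s
  have hj' : j < g s := by
    have := hun g hg
    omega
  obtain ⟨hgn, hgl⟩ := (h.hM g).1 hg
  have hu : update g s j ∈ (Icc 0 n).filter fun ι => ι s = j :=
    mem_filter.2 ⟨mem_box.2 (update_le_iff.2 ⟨hj'.le.trans (hgn s), fun r _ => hgn r⟩), by simp⟩
  have hlt := om_update_lt hgn hj'
  have hgne : ∀ᶠ t in U, term n t (y t) g ≠ 0 := by
    filter_upwards [(h.lim g hgn).eventually_ne hgl] with t ht h0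
    simp [h0] at ht
  obtain ⟨ι1, h1, ν, hν1, hne1, hν⟩ := ultra_argmax U _ ⟨_, hu⟩ (fun t => dterm n t (y t) s) (by
    filter_upwards [hgne] with t ht
    refine ⟨_, hu, fun h0 => ht ?_⟩
    rw [term_upd hgn t (y t) hj', h0]
    simp)
  have hsum : ∑ ι ∈ (Icc 0 n).filter (fun ι => ι s = j), ν ι = 0 := by
    refine van h.le0 (e := om n g - om n (update g s j)) (by omega) (tendsto_finsetSum _ hν)
      (((h.marg2 (h.hk s)).mul (h.ratio (hj.trans (h.hk s)) (by omega))).div (h.lim g hgn)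
        hgl |>.mul (hν _ hu)) ?_
    filter_upwards [h.eqn, hgne, h.top_ne, h.ne, hne1] with t b1 b2 b3 b4 b5
    rw [← Finset.sum_div, b1 s j (hj.trans (h.hk s))]
    have b6 := (b3 s).2
    have b7 := term_upd hgn t (y t) hj'
    rw [hgs] at b7
    simp only [Pi.div_apply]
    field_simp
    rw [b7]
    ring
  have hprop : ∀ ι ∈ (Icc 0 n).filter (fun ι => ι s = j), ν ι ≠ 0 →
      ι ≤ k ∧ ∀ g ∈ M, Std g ι ∧ Std ι g := by
    intro ι hι hν0
    obtain ⟨hιn, hιs⟩ := mem_filter.1 hι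
    rw [mem_box] at hιn
    constructor
    · intro r
      by_contra hr
      have hr' : k r < ι r := not_le.1 hr
      have hrs : r ≠ s := by
        rintro rfl
        omega
      have hu' : update ι r (k r) ∈ (Icc 0 n).filter fun ι => ι s = j :=
        mem_filter.2 ⟨mem_box.2 (update_le_iff.2 ⟨h.hk r, fun r _ => hιn r⟩), by
          rw [update_of_ne hrs.symm, hιs]⟩
      have hlt' := om_update_lt hιn hr'
      refine hν0 (van h.le0 (e := om n ι - om n (update ι r (k r))) (by omega) (hν ι hι)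
        ((hν _ hu').mul (h.ratio (hιn r) hr'.ne')) ?_)
      filter_upwards [h.top_ne, hne1] with t b1 b2
      have b3 := (b1 r).2
      have b4 := prod_erase_upd' (y t) ι hrs (k r)
      have e2 : (t : ℂ) ^ om n ι =
          t ^ (om n ι - om n (update ι r (k r))) * t ^ om n (update ι r (k r)) := by
        rw [← pow_add]
        congr 1
        omega
      field_simp
      simp only [dterm]
      linear_combination (∏ r' ∈ univ.erase s, y t r' (ι r')) * y t r (k r) * e2 -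
        (t : ℂ) ^ (om n ι - om n (update ι r (k r))) * t ^ om n (update ι r (k r)) * b4
    · intro g hg
      obtain ⟨hgn, hgl⟩ := (h.hM g).1 hg
      by_contra hcon
      obtain ⟨ι', g', hex, e1, e2, hlt'⟩ := swap_at hιn hgn (by tauto) s
      have hu' : ι' ∈ (Icc 0 n).filter fun ι => ι s = j :=
        mem_filter.2 ⟨mem_box.2 (hex.le hιn hgn).1, e1.trans hιs⟩
      refine mul_ne_zero hν0 hgl (van h.le0 (e := om n ι + om n g - (om n ι' + om n g'))
        (by omega) ((hν ι hι).mul (h.lim g hgn)) ((hν _ hu').mul (h.lim g' (hex.le hιn hgn).2))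
        (Eventually.of_forall fun t => ?_))
      have e3 := exch_prod (y t) hex (univ.erase s)
      have e4 : (t : ℂ) ^ om n ι * t ^ om n g =
          t ^ (om n ι + om n g - (om n ι' + om n g')) * (t ^ om n ι' * t ^ om n g') := by
        simp only [← pow_add]
        congr 1
        omega
      rw [div_mul_div_comm, div_mul_div_comm, ← mul_div_assoc]
      congr 1
      rw [term_eq n t (y t) s g, term_eq n t (y t) s g', e2]
      simp only [dterm]
      linear_combination y t s (g s) * (∏ r ∈ univ.erase s, y t r (ι r)) *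
        (∏ r ∈ univ.erase s, y t r (g r)) * e4 + y t s (g s) *
        (t : ℂ) ^ (om n ι + om n g - (om n ι' + om n g')) * (t ^ om n ι' * t ^ om n g') * e3
  rw [Finset.sum_eq_single_of_mem ι1 h1, hν1] at hsum
  · exact one_ne_zero hsum
  · intro ι hι hne
    by_contra hν0
    have p1 := hprop ι1 h1 (by simp [hν1])
    have p2 := hprop ι hι hν0
    exact hne (unused_unique (s := s) ((mem_filter.1 hι).2.trans (mem_filter.1 h1).2.symm) h.hμ
      h.compat ⟨g, hg⟩ h.rel h.hMk p1.1 p2.1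
      (fun g hg => ⟨(p1.2 g hg).1, (p1.2 g hg).2, (p2.2 g hg).1, (p2.2 g hg).2⟩)
      (fun g hg => (mem_filter.1 h1).2.symm ▸ hun g hg))

theorem good (h : Lim2 n U y c ι0 lam k M μ) : Good 0 k 1 0 0 M := by
  refine ⟨fun g hg => ⟨fun _ => Nat.zero_le _, h.hMk g hg⟩, h.compat,
    fun r j _ hj => h.used r j hj, fun g => lam g / μ,
    fun g hg => div_ne_zero ((h.hM g).1 hg).2 h.hμ, fun r f => ?_⟩
  have := h.hμ
  simp only [div_mul_eq_mul_div, ← Finset.sum_div, h.rel r f]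
  field_simp
  simp

theorem conv (hD : 0 < D) (h : Lim2 n U y c ι0 lam k M μ) (d : Data n k M) (r : Fin D) (l : ℕ)
    (hl : l ≤ n r) :
    Tendsto (fun t => y t r l / y t r (k r) / (t : ℂ) ^ d.w r l) U (𝓝 (d.z r l)) := by
  rcases lt_or_ge (k r) l with hkl | hkl
  · simpa [(d.hw r l).2 hkl.le, (d.z0 r l).2 hkl] using h.ratio hl hkl.ne'
  have hz : ∀ ι, ι ≤ k → ∏ r, (d.z r (ι r) : ℂ) ≠ 0 := fun ι hι =>
    Finset.prod_ne_zero_iff.2 fun r _ => by
      rw [Ne, Complex.ofReal_eq_zero, d.z0, not_lt]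
      exact hι r
  have h0 : ι0 ∈ M := (h.hM ι0).2 ⟨h.mem, by simp [h.one]⟩
  have hμ : (d.μ : ℂ) ≠ 0 := Complex.ofReal_ne_zero.2 d.hμ
  have hμ' := h.hμ
  have e1 : ∀ g ∈ M, lam g * d.μ - (∏ r, (d.z r (g r) : ℂ)) * μ = 0 :=
    indep hD (l := fun g => lam g * d.μ - (∏ r, (d.z r (g r) : ℂ)) * μ) h.compat (by
      intro s f
      have a1 := h.rel s f
      have a2 := d.rel s f
      simp only [sub_mul, Finset.sum_sub_distrib, mul_right_comm _ (d.μ : ℂ),
        mul_right_comm _ μ, ← Finset.sum_mul, a1, a2]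
      ring)
  set P : ℝ → Word D → ℂ := fun t ι => ∏ r, y t r (ι r) / y t r (k r) / (t : ℂ) ^ d.w r (ι r)
    with hP
  have e2 : ∀ᶠ t in U, ∀ g ∈ M,
      P t g = term n t (y t) g / ((t : ℂ) ^ d.φ * ∏ r, y t r (k r)) := by
    filter_upwards [h.t_ne, h.top_ne] with t b1 b2 g hg
    have b3 := d.hρ g ((h.hM g).1 hg).1
    rw [(d.hM g ((h.hM g).1 hg).1).2 hg, zero_add] at b3
    have b4 : ∏ r, y t r (k r) ≠ 0 := Finset.prod_ne_zero_iff.2 fun r _ => (b2 r).2
    simp only [hP, Finset.prod_div_distrib, Finset.prod_pow_eq_pow_sum, b3, term, pow_add]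
    field_simp
  have key := h.good.closure hD {ι | ι ≤ k ∧ Tendsto (fun t => P t ι / P t ι0) U
    (𝓝 ((∏ r, (d.z r (ι r) : ℂ)) / ∏ r, (d.z r (ι0 r) : ℂ)))} (by
      intro g hg
      refine ⟨h.hMk g hg, ?_⟩
      have a1 := e1 g hg
      have a2 := e1 ι0 h0
      have a3 := hz ι0 (h.hMk ι0 h0)
      rw [h.one] at a2
      have a4 : (∏ r, (d.z r (g r) : ℂ)) / ∏ r, (d.z r (ι0 r) : ℂ) = lam g := by
        rw [div_eq_iff a3]
        apply mul_right_cancel₀ hμ'
        linear_combination lam g * a2 - a1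
      rw [a4]
      refine (h.lim g ((h.hM g).1 hg).1).congr' ?_
      filter_upwards [e2, h.t_ne, h.top_ne] with t b1 b2 b3
      have b4 : ∏ r, y t r (k r) ≠ 0 := Finset.prod_ne_zero_iff.2 fun r _ => (b3 r).2
      rw [b1 g hg, b1 ι0 h0, div_div_div_cancel_right₀ (mul_ne_zero (pow_ne_zero _ b2) b4)])
    (by
      rintro κ ι r j ⟨a1, a2⟩ ⟨a3, a4⟩ ⟨a5, a6⟩ a7
      have a8 : j ≤ k r := by simpa using a3 r
      refine ⟨update_le_iff.2 ⟨a8, fun r' _ => a5 r'⟩, ?_⟩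
      have gen : ∀ x : Fin D → ℕ → ℂ, (∏ r', x r' (update ι r j r')) * ∏ r', x r' (κ r') =
          (∏ r', x r' (ι r')) * ∏ r', x r' (update κ r j r') := by
        intro x
        rw [prod_upd, prod_upd, ← Finset.mul_prod_erase _ (fun r' => x r' (κ r')) (mem_univ r),
          ← Finset.mul_prod_erase _ (fun r' => x r' (ι r')) (mem_univ r), a7]
        ring
      have a9 := hz ι0 (h.hMk ι0 h0)
      have a10 := hz κ a1
      have a11 := div_ne_zero a10 a9
      have a12 := (a6.mul a4).div a2 a11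
      have a13 := gen fun r l => (d.z r l : ℂ)
      convert a12.congr' (f₂ := fun t => P t (update ι r j) / P t ι0) ?_ using 2
      · field_simp
        linear_combination a13
      · filter_upwards [a2.eventually_ne a11] with t b1
        have b2 := gen fun r l => y t r l / y t r (k r) / (t : ℂ) ^ d.w r l
        have b3 : P t κ ≠ 0 := fun h0 => by simp [h0] at b1
        have b4 : P t ι0 ≠ 0 := fun h0 => by simp [h0] at b1
        simp only [Pi.div_apply]
        field_simp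
        exact b2.symm.trans (mul_comm _ _))
  have k1 := (key k le_rfl).2
  have k2 := (key (update k r l) (update_le_iff.2 ⟨hkl, fun _ _ => le_rfl⟩)).2
  have a9 := hz ι0 (h.hMk ι0 h0)
  have a11 := div_ne_zero (hz k le_rfl) a9
  convert (k2.div k1 a11).congr'
    (f₂ := fun t => y t r l / y t r (k r) / (t : ℂ) ^ d.w r l) ?_ using 2
  · rw [prod_upd fun r l => (d.z r l : ℂ)]
    simp only [d.z1, Complex.ofReal_one, Finset.prod_const_one]
    field_simp
  · filter_upwards [k1.eventually_ne a11, h.top_ne] with t b1 b2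
    have b4 : P t ι0 ≠ 0 := fun h0 => by simp [h0] at b1
    have b5 : ∀ r, y t r (k r) / y t r (k r) / (t : ℂ) ^ d.w r (k r) = 1 := fun r => by
      rw [div_self (b2 r).2, (d.hw r _).2 le_rfl, pow_zero, div_one]
    simp only [Pi.div_apply]
    rw [div_div_div_cancel_right₀ b4]
    simp only [hP]
    rw [prod_upd fun r l => y t r l / y t r (k r) / (t : ℂ) ^ d.w r l]
    simp only [b5, Finset.prod_const_one, mul_one, div_one]

end Lim2

theorem complete (hD : 0 < D) (n : Word D) (U : Ultrafilter ℝ) (hU : (U : Filter ℝ) ≤ 𝓝[>] 0)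
    (y : ℝ → Fin D → ℕ → ℂ) (hy : ∀ᶠ t in U, Sol n t (y t)) :
    ∃ k M, k ≤ n ∧ Good 0 k 1 0 0 M ∧ (∀ᶠ t in U, ∀ r, y t r (k r) ≠ 0) ∧
      ∀ (d : Data n k M) r l, l ≤ n r →
        Tendsto (fun t => y t r l / y t r (k r) / (t : ℂ) ^ d.w r l) U (𝓝 (d.z r l)) := by
  obtain ⟨c, ι0, lam, h⟩ := exists_lim n U hU y hy
  obtain ⟨k, M, μ, h2⟩ := h.exists_lim2 hD
  exact ⟨k, M, h2.hk, h2.good, h2.top_ne.mono fun t ht r => (ht r).2, h2.conv hD⟩

end Pool.Agent.Lib.MP_a18d4e_ag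
end

-- part Pool.Agent.Lib.MP_a18d4e_ag.Main
section

/-!
For small positive parameter the solutions are exactly the real branches, and they are distinct.
-/

set_option autoImplicit false

namespace Pool.Agent.Lib.MP_a18d4e_ag

open Finset Function Filter Topology

variable {D : ℕ}

theorem scale_id {n k : Word D} {M : Finset (Word D)} (d : Data n k M) (t : ℂ)
    (y : Fin D → ℕ → ℂ) (s : Fin D) (j : ℕ) :
    t ^ d.w s j * Dsum n (fun ι => t ^ om n ι) (fun r l => t ^ d.w r l * y r l) s j =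
      t ^ d.φ * Dsum n (fun ι => t ^ d.ρ ι) y s j := by
  simp only [Dsum, Finset.mul_sum]
  apply Finset.sum_congr rfl
  intro ι hι
  obtain ⟨h1, h2⟩ := mem_filter.1 hι
  have h3 := d.hρ ι (mem_box.1 h1)
  rw [← Finset.add_sum_erase _ _ (mem_univ s), h2] at h3
  rw [Finset.prod_mul_distrib, Finset.prod_pow_eq_pow_sum]
  simp only [← mul_assoc, ← pow_add]
  congr 2
  omega

theorem Dsum_scale (n : Word D) (T : Word D → ℂ) (y : Fin D → ℕ → ℂ) (c : Fin D → ℂ) (s : Fin D)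
    (j : ℕ) : Dsum n T (fun r l => c r * y r l) s j =
      (∏ r ∈ univ.erase s, c r) * Dsum n T y s j := by
  simp only [Dsum, Finset.mul_sum, Finset.prod_mul_distrib]
  exact Finset.sum_congr rfl fun ι _ => by ring

theorem Sol.scale {n : Word D} {t : ℝ} {y y' : Fin D → ℕ → ℂ} (h : Sol n t y)
    (hc : ∀ r, ∃ c : ℂ, c ≠ 0 ∧ ∀ l, l ≤ n r → y' r l = c * y r l) : Sol n t y' := by
  choose c hc0 hc using hc
  constructor
  · intro r
    obtain ⟨l, h1, h2⟩ := h.1 r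
    exact ⟨l, h1, hc r l h1 ▸ mul_ne_zero (hc0 r) h2⟩
  · intro s
    obtain ⟨a, ha⟩ := h.2 s
    refine ⟨(∏ r ∈ univ.erase s, c r) * a / c s, fun j hj => ?_⟩
    have := hc0 s
    rw [Dsum_congr hc, Dsum_scale, ha j hj, hc s j hj]
    field_simp

theorem sol_of_G {n k : Word D} (hk : k ≤ n) {M : Finset (Word D)} (d : Data n k M) {t : ℝ}
    (ht : (t : ℂ) ≠ 0) {y : Fin D → ℕ → ℂ} (hG : ∀ s j, j ≤ n s → Gm d y t s j = 0) :
    Sol n t fun r l => (t : ℂ) ^ d.w r l * y r l := by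
  have h1 : ∀ s, y s (k s) = 1 := fun s => by
    have := hG s (k s) (hk s)
    rwa [Gm, if_pos rfl, sub_eq_zero] at this
  have h2 : ∀ s, d.w s (k s) = 0 := fun s => (d.hw s _).2 le_rfl
  refine ⟨fun r => ⟨k r, hk r, by simp [h1, h2]⟩, fun s =>
    ⟨(t : ℂ) ^ d.φ * Dsum n (fun ι => (t : ℂ) ^ d.ρ ι) y s (k s), fun j hj => ?_⟩⟩
  apply mul_left_cancel₀ (pow_ne_zero (d.w s j) ht)
  rw [scale_id]
  by_cases h3 : j = k s
  · simp [h3, h1, h2]
  · have := hG s j hj
    rw [Gm, if_neg h3, sub_eq_zero] at this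
    rw [this]
    ring

theorem G_of_sol {n k : Word D} (hk : k ≤ n) {M : Finset (Word D)} (d : Data n k M) {t : ℝ}
    (ht : (t : ℂ) ≠ 0) {x : Fin D → ℕ → ℂ} (h : Sol n t x) (hx : ∀ r, x r (k r) ≠ 0) :
    ∀ s j, j ≤ n s → Gm d (fun r l => x r l / x r (k r) / (t : ℂ) ^ d.w r l) t s j = 0 := by
  intro s j hj
  have h2 : ∀ s, d.w s (k s) = 0 := fun s => (d.hw s _).2 le_rfl
  have h3 : Sol n t fun r l => (t : ℂ) ^ d.w r l * (x r l / x r (k r) / (t : ℂ) ^ d.w r l) :=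
    h.scale fun r => ⟨(x r (k r))⁻¹, inv_ne_zero (hx r), fun l _ => by field_simp⟩
  obtain ⟨a, ha⟩ := h3.2 s
  unfold Gm
  split_ifs with h4
  · simp [h4, h2, hx]
  · have e1 := scale_id d t (fun r l => x r l / x r (k r) / (t : ℂ) ^ d.w r l) s j
    have e2 := scale_id d t (fun r l => x r l / x r (k r) / (t : ℂ) ^ d.w r l) s (k s)
    rw [ha j hj] at e1
    rw [ha (k s) (hk s)] at e2
    simp only [h2, pow_zero, one_mul, div_one, div_self (hx s), mul_one] at e2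
    apply mul_left_cancel₀ (pow_ne_zero d.φ ht)
    rw [mul_sub, ← e1, mul_left_comm ((t : ℂ) ^ d.φ), ← e2]
    ring

theorem w_le {U : Filter ℝ} [U.NeBot] (hU : U ≤ 𝓝[>] 0) {u v : ℝ → ℂ} {L L' : ℂ} {a b : ℕ}
    (hu : Tendsto u U (𝓝 L)) (hv : Tendsto v U (𝓝 L')) (hL : L ≠ 0)
    (h : ∀ᶠ t : ℝ in U, (t : ℂ) ^ a * u t = (t : ℂ) ^ b * v t) : b ≤ a := by
  by_contra hcon
  refine hL (van (hU.trans nhdsWithin_le_nhds) (e := b - a) (by omega) hu hv ?_)
  filter_upwards [h, hU self_mem_nhdsWithin] with t b1 b2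
  have b3 : (t : ℂ) ≠ 0 := Complex.ofReal_ne_zero.2 (ne_of_gt b2)
  apply mul_left_cancel₀ (pow_ne_zero a b3)
  rw [b1, ← mul_assoc, ← pow_add]
  congr 2
  omega

theorem branch_lim {U : Filter ℝ} (hU : U ≤ 𝓝 0) {n k : Word D} {M : Finset (Word D)}
    (d : Data n k M) {ζ : ℝ → Fin D → ℕ → ℂ} {r : Fin D} {l : ℕ}
    (hζ : Tendsto (fun t => ζ t r l) U (𝓝 (d.z r l))) :
    Tendsto (fun t : ℝ => (t : ℂ) ^ d.w r l * ζ t r l) U (𝓝 (if l = k r then 1 else 0)) := by
  have h1 : Tendsto (fun t : ℝ => (t : ℂ)) U (𝓝 0) := by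
    simpa using (Complex.continuous_ofReal.tendsto 0).mono_left hU
  have h2 := (h1.pow (d.w r l)).mul hζ
  rcases lt_trichotomy l (k r) with h | h | h
  · have : d.w r l ≠ 0 := (d.hw r l).not.2 (by omega)
    rw [if_neg h.ne]
    rwa [zero_pow this, zero_mul] at h2
  · rw [if_pos h]
    rwa [show (0 : ℂ) ^ d.w r l * (d.z r l : ℂ) = 1 by simp [h, d.z1, (d.hw r _).2 le_rfl]] at h2
  · rw [if_neg h.ne']
    rwa [show (0 : ℂ) ^ d.w r l * (d.z r l : ℂ) = 0 by simp [(d.z0 r _).2 h]] at h2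

theorem distinct (hD : 0 < D) {U : Filter ℝ} [U.NeBot] (hU : U ≤ 𝓝[>] 0) {n k k' : Word D}
    (hk : k ≤ n) (hk' : k' ≤ n) {M M' : Finset (Word D)} (h : Good 0 k 1 0 0 M)
    (h' : Good 0 k' 1 0 0 M') (d : Data n k M) (d' : Data n k' M') {ζ ζ' : ℝ → Fin D → ℕ → ℂ}
    (hζ : ∀ r l, l ≤ n r → Tendsto (fun t => ζ t r l) U (𝓝 (d.z r l)))
    (hζ' : ∀ r l, l ≤ n r → Tendsto (fun t => ζ' t r l) U (𝓝 (d'.z r l)))
    (hp : ∀ᶠ t : ℝ in U, ∀ r, ∃ c : ℂ, c ≠ 0 ∧ ∀ l, l ≤ n r →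
      (t : ℂ) ^ d'.w r l * ζ' t r l = c * ((t : ℂ) ^ d.w r l * ζ t r l)) : k = k' ∧ M = M' := by
  have hU0 := hU.trans nhdsWithin_le_nhds
  have cross : ∀ r l m, l ≤ n r → m ≤ n r → ∀ᶠ t : ℝ in U,
      ((t : ℂ) ^ d'.w r l * ζ' t r l) * ((t : ℂ) ^ d.w r m * ζ t r m) =
        ((t : ℂ) ^ d'.w r m * ζ' t r m) * ((t : ℂ) ^ d.w r l * ζ t r l) := by
    intro r l m hl hm
    filter_upwards [hp] with t ht
    obtain ⟨c, _, hc⟩ := ht r
    rw [hc l hl, hc m hm]
    ring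
  have e : k = k' := by
    funext r
    by_contra hne
    have a1 := (branch_lim hU0 d' (hζ' r _ (hk' r))).mul (branch_lim hU0 d (hζ r _ (hk r)))
    have a2 := (branch_lim hU0 d' (hζ' r _ (hk r))).mul (branch_lim hU0 d (hζ r _ (hk' r)))
    have := tendsto_nhds_unique (a1.congr' (cross r _ _ (hk' r) (hk r))) a2
    simp [hne] at this
  subst e
  have ew : ∀ r l, d.w r l = d'.w r l := by
    intro r l
    rcases le_or_gt (k r) l with hl | hl
    · rw [(d.hw r l).2 hl, (d'.hw r l).2 hl]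
    have hl' := hl.le.trans (hk r)
    have a1 := (hζ' r l hl').mul (hζ r _ (hk r))
    have a2 := (hζ' r _ (hk r)).mul (hζ r l hl')
    have a3 : ∀ᶠ t : ℝ in U, (t : ℂ) ^ d'.w r l * (ζ' t r l * ζ t r (k r)) =
        (t : ℂ) ^ d.w r l * (ζ' t r (k r) * ζ t r l) := by
      filter_upwards [cross r l (k r) hl' (hk r)] with t ht
      rw [(d.hw r _).2 le_rfl, (d'.hw r _).2 le_rfl] at ht
      linear_combination ht
    apply le_antisymm
    · refine w_le hU a1 a2 ?_ a3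
      simp only [d.z1, Complex.ofReal_one, mul_one, Ne, Complex.ofReal_eq_zero, d'.z0]
      omega
    · refine w_le hU a2 a1 ?_ (a3.mono fun t ht => ht.symm)
      simp only [d'.z1, Complex.ofReal_one, one_mul, Ne, Complex.ofReal_eq_zero, d.z0]
      omega
  have eρ : ∀ ι, ι ≤ n → d.ρ ι + d.φ = d'.ρ ι + d'.φ := fun ι hι => by
    rw [d.hρ ι hι, d'.hρ ι hι]
    simp only [ew]
  obtain ⟨g, hg⟩ := h.nonempty hD (fun _ => Nat.zero_le _)
  obtain ⟨g', hg'⟩ := h'.nonempty hD (fun _ => Nat.zero_le _)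
  have b1 := (h.1 g hg).2.trans hk
  have b2 := (h'.1 g' hg').2.trans hk
  have b3 := eρ g b1
  have b4 := eρ g' b2
  rw [(d.hM g b1).2 hg] at b3
  rw [(d'.hM g' b2).2 hg'] at b4
  refine ⟨rfl, Finset.ext fun ι => ⟨fun hι => ?_, fun hι => ?_⟩⟩
  · have b5 := (h.1 ι hι).2.trans hk
    have b6 := eρ ι b5
    rw [(d.hM ι b5).2 hι] at b6
    exact (d'.hM ι b5).1 (by omega)
  · have b5 := (h'.1 ι hι).2.trans hk
    have b6 := eρ ι b5
    rw [(d'.hM ι b5).2 hι] at b6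
    exact (d.hM ι b5).1 (by omega)

theorem main_words (hD : 0 < D) (n : Word D) : ∃ (t : ℝ)
    (X : ((Icc 0 n).sigma fun k => goods 0 k 1 0 0) → Fin D → ℕ → ℝ),
    (∀ y : Fin D → ℕ → ℂ, Sol n t y ↔
      ∃ i, ∀ r, ∃ c : ℂ, c ≠ 0 ∧ ∀ l, l ≤ n r → y r l = c * X i r l) ∧
    ∀ i i', (∀ r, ∃ c : ℂ, c ≠ 0 ∧ ∀ l, l ≤ n r → (X i' r l : ℂ) = c * X i r l) → i = i' := by
  have hk : ∀ i : ((Icc 0 n).sigma fun k => goods 0 k 1 0 0), i.1.1 ≤ n := fun i =>
    mem_box.1 (mem_sigma.1 i.2).1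
  have hg : ∀ i : ((Icc 0 n).sigma fun k => goods 0 k 1 0 0), Good 0 i.1.1 1 0 0 i.1.2 :=
    fun i => mem_goods.1 (mem_sigma.1 i.2).2
  have d := fun i => (exists_data hD (hk i) (hg i)).some
  choose ζ h1 h2 h3 using fun i => exists_branch hD (hk i) (hg i) (d i)
  have tne : ∀ᶠ t : ℝ in 𝓝[>] 0, (t : ℂ) ≠ 0 := by
    filter_upwards [self_mem_nhdsWithin] with t b2
    exact Complex.ofReal_ne_zero.2 (ne_of_gt b2)
  have E1 : ∀ᶠ t : ℝ in 𝓝[>] 0, ∀ i, Sol n t fun r l => (t : ℂ) ^ (d i).w r l * ζ i t r l := by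
    rw [eventually_all]
    intro i
    filter_upwards [tne, nhdsWithin_le_nhds (h2 i)] with t b1 b2
    exact sol_of_G (hk i) (d i) b1 b2
  have E2 : ∀ᶠ t : ℝ in 𝓝[>] 0, ∀ y : Fin D → ℕ → ℂ, Sol n t y → ∃ i, ∀ r, ∃ c : ℂ, c ≠ 0 ∧
      ∀ l, l ≤ n r → y r l = c * ((t : ℂ) ^ (d i).w r l * ζ i t r l) := by
    refine Filter.mem_iff_ultrafilter.2 fun U hU => ?_
    by_contra hcon
    have b1 := Ultrafilter.compl_mem_iff_notMem.2 hcon
    have b2 : ∀ t : ℝ, ∃ y : Fin D → ℕ → ℂ, ¬ (∀ y : Fin D → ℕ → ℂ, Sol n t y → ∃ i, ∀ r,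
        ∃ c : ℂ, c ≠ 0 ∧ ∀ l, l ≤ n r → y r l = c * ((t : ℂ) ^ (d i).w r l * ζ i t r l)) →
        Sol n t y ∧ ¬ ∃ i, ∀ r, ∃ c : ℂ, c ≠ 0 ∧
          ∀ l, l ≤ n r → y r l = c * ((t : ℂ) ^ (d i).w r l * ζ i t r l) := by
      intro t
      by_cases b3 : ∀ y : Fin D → ℕ → ℂ, Sol n t y → ∃ i, ∀ r,
        ∃ c : ℂ, c ≠ 0 ∧ ∀ l, l ≤ n r → y r l = c * ((t : ℂ) ^ (d i).w r l * ζ i t r l)
      · exact ⟨0, fun b4 => absurd b3 b4⟩
      · obtain ⟨y, hy⟩ := not_forall.1 b3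
        exact ⟨y, fun _ => Classical.not_imp.1 hy⟩
    choose y hy using b2
    have b3 : ∀ᶠ t : ℝ in U, Sol n t (y t) ∧ ¬ ∃ i, ∀ r, ∃ c : ℂ, c ≠ 0 ∧
        ∀ l, l ≤ n r → y t r l = c * ((t : ℂ) ^ (d i).w r l * ζ i t r l) :=
      mem_of_superset b1 fun t ht => hy t ht
    obtain ⟨k, M, c1, c2, c3, c4⟩ := complete hD n U hU y (b3.mono fun t ht => ht.1)
    let i : ((Icc 0 n).sigma fun k => goods 0 k 1 0 0) :=
      ⟨⟨k, M⟩, mem_sigma.2 ⟨mem_box.2 c1, mem_goods.2 c2⟩⟩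
    have c5 := h3 i U (hU.trans nhdsWithin_le_nhds) _ (c4 (d i)) (by
      filter_upwards [b3, c3, hU tne] with t e1 e2 e3
      exact G_of_sol c1 (d i) e3 e1.1 e2)
    obtain ⟨t, e1, e2, e3, e4⟩ := (b3.and (c3.and (c5.and (hU tne)))).exists
    refine e1.2 ⟨i, fun r => ⟨_, e2 r, fun l hl => ?_⟩⟩
    have e5 : (t : ℂ) ≠ 0 := e4
    have e6 := e2 r
    rw [← e3 r l hl]
    field_simp
  have E3 : ∀ᶠ t : ℝ in 𝓝[>] 0, ∀ i i', (∀ r, ∃ c : ℂ, c ≠ 0 ∧ ∀ l, l ≤ n r →
      (t : ℂ) ^ (d i').w r l * ζ i' t r l = c * ((t : ℂ) ^ (d i).w r l * ζ i t r l)) →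
      i = i' := by
    rw [eventually_all]
    intro i
    rw [eventually_all]
    intro i'
    by_cases hii : i = i'
    · exact Eventually.of_forall fun _ _ => hii
    refine Filter.mem_iff_ultrafilter.2 fun U hU => ?_
    by_contra hcon
    have b1 := Ultrafilter.compl_mem_iff_notMem.2 hcon
    have hU0 := hU.trans nhdsWithin_le_nhds
    obtain ⟨a1, a2⟩ := distinct hD hU (hk i) (hk i') (hg i) (hg i') (d i) (d i')
      (ζ := fun t r l => ζ i t r l) (ζ' := fun t r l => ζ i' t r l)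
      (fun r l hl => ((Complex.continuous_ofReal.tendsto _).comp (h1 i r l hl)).mono_left hU0)
      (fun r l hl => ((Complex.continuous_ofReal.tendsto _).comp (h1 i' r l hl)).mono_left hU0)
      (mem_of_superset b1 fun t ht => (Classical.not_imp.1 ht).1)
    exact hii (Subtype.ext (Sigma.ext a1 (heq_of_eq a2)))
  obtain ⟨t, e1, e2, e3⟩ := (E1.and (E2.and E3)).exists
  refine ⟨t, fun i r l => t ^ (d i).w r l * ζ i t r l, fun y => ⟨fun hy => ?_, ?_⟩, ?_⟩
  · simpa using e2 y hy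
  · rintro ⟨i, hi⟩
    exact (e1 i).scale (by simpa using hi)
  · intro i i' hi
    exact e3 i i' (by simpa using hi)

theorem sum_words (n : Word D) (T : Word D → ℂ) (x : ∀ i : Fin D, Fin (n i + 1) → ℂ)
    (k : Fin D) (j : Fin (n k + 1)) :
    ∑ ι : (∀ i : Fin D, Fin (n i + 1)),
      (if ι k = j then T (fun r => ι r) * ∏ i ∈ Finset.univ.erase k, x i (ι i) else 0) =
      Dsum n T (ext x) k j := by
  rw [Dsum, Finset.sum_filter]
  apply Finset.sum_bij (fun ι _ => fun r => (ι r : ℕ))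
  · exact fun ι _ => mem_box.2 fun r => Nat.le_of_lt_succ (ι r).2
  · intro ι _ ι' _ h
    funext r
    exact Fin.ext (congrFun h r)
  · intro ι hι
    exact ⟨fun r => ⟨ι r, Nat.lt_succ_of_le (mem_box.1 hι r)⟩, mem_univ _, rfl⟩
  · intro ι _
    simp only [ext_val, Fin.val_inj]

end Pool.Agent.Lib.MP_a18d4e_ag
end
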