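import Pool.Agent.Lib.MP_a18d4e_ag.Main

/-!
The conclusion for all small positive parameters, with nonzero singular values.
-/

set_option autoImplicit false

namespace Pool.Agent.Lib.MP_a18d4e_ag

open Finset Function Filter Topology

variable {D : ℕ}

theorem small_words (hD : 0 < D) (n : Word D) : ∀ᶠ t : ℝ in 𝓝[>] 0,
    ∃ X : ((Icc 0 n).sigma fun k => goods 0 k 1 0 0) → Fin D → ℕ → ℝ,
    (∀ y : Fin D → ℕ → ℂ, Sol n t y ↔
      ∃ i, ∀ r, ∃ c : ℂ, c ≠ 0 ∧ ∀ l, l ≤ n r → y r l = c * X i r l) ∧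
    ∀ i i', (∀ r, ∃ c : ℂ, c ≠ 0 ∧ ∀ l, l ≤ n r → (X i' r l : ℂ) = c * X i r l) → i = i' := by
  have hk : ∀ i : ((Icc 0 n).sigma fun k => goods 0 k 1 0 0), i.1.1 ≤ n := fun i =>
    mem_box.1 (mem_sigma.1 i.2).1
  have hg : ∀ i : ((Icc 0 n).sigma fun k => goods 0 k 1 0 0), Good 0 i.1.1 1 0 0 i.1.2 :=
    fun i => mem_goods.1 (mem_sigma.1 i.2).2
  have d := fun i => (exists_data hD (hk i) (hg i)).some
  choose ζ h1 h2 h3 using fun i => exists_branch hD (hk i) (hg i) (d i)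
  have tne : ∀ᶠ t : ℝ in 𝓝[>] 0, (t : ℂ) ≠ 0 := by
    filter_upwards [self_mem_nhdsWithin] with t b2
    exact Complex.ofReal_ne_zero.2 (ne_of_gt b2)
  have E1 : ∀ᶠ t : ℝ in 𝓝[>] 0, ∀ i, Sol n t fun r l => (t : ℂ) ^ (d i).w r l * ζ i t r l := by
    rw [eventually_all]
    intro i
    filter_upwards [tne, nhdsWithin_le_nhds (h2 i)] with t b1 b2
    exact sol_of_G (hk i) (d i) b1 b2
  have E2 : ∀ᶠ t : ℝ in 𝓝[>] 0, ∀ y : Fin D → ℕ → ℂ, Sol n t y → ∃ i, ∀ r, ∃ c : ℂ, c ≠ 0 ∧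
      ∀ l, l ≤ n r → y r l = c * ((t : ℂ) ^ (d i).w r l * ζ i t r l) := by
    refine Filter.mem_iff_ultrafilter.2 fun U hU => ?_
    by_contra hcon
    have b1 := Ultrafilter.compl_mem_iff_notMem.2 hcon
    have b2 : ∀ t : ℝ, ∃ y : Fin D → ℕ → ℂ, ¬ (∀ y : Fin D → ℕ → ℂ, Sol n t y → ∃ i, ∀ r,
        ∃ c : ℂ, c ≠ 0 ∧ ∀ l, l ≤ n r → y r l = c * ((t : ℂ) ^ (d i).w r l * ζ i t r l)) →
        Sol n t y ∧ ¬ ∃ i, ∀ r, ∃ c : ℂ, c ≠ 0 ∧
          ∀ l, l ≤ n r → y r l = c * ((t : ℂ) ^ (d i).w r l * ζ i t r l) := by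
      intro t
      by_cases b3 : ∀ y : Fin D → ℕ → ℂ, Sol n t y → ∃ i, ∀ r,
        ∃ c : ℂ, c ≠ 0 ∧ ∀ l, l ≤ n r → y r l = c * ((t : ℂ) ^ (d i).w r l * ζ i t r l)
      · exact ⟨0, fun b4 => absurd b3 b4⟩
      · obtain ⟨y, hy⟩ := not_forall.1 b3
        exact ⟨y, fun _ => Classical.not_imp.1 hy⟩
    choose y hy using b2
    have b3 : ∀ᶠ t : ℝ in U, Sol n t (y t) ∧ ¬ ∃ i, ∀ r, ∃ c : ℂ, c ≠ 0 ∧
        ∀ l, l ≤ n r → y t r l = c * ((t : ℂ) ^ (d i).w r l * ζ i t r l) :=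
      mem_of_superset b1 fun t ht => hy t ht
    obtain ⟨k, M, c1, c2, c3, c4⟩ := complete hD n U hU y (b3.mono fun t ht => ht.1)
    let i : ((Icc 0 n).sigma fun k => goods 0 k 1 0 0) :=
      ⟨⟨k, M⟩, mem_sigma.2 ⟨mem_box.2 c1, mem_goods.2 c2⟩⟩
    have c5 := h3 i U (hU.trans nhdsWithin_le_nhds) _ (c4 (d i)) (by
      filter_upwards [b3, c3, hU tne] with t e1 e2 e3
      exact G_of_sol c1 (d i) e3 e1.1 e2)
    obtain ⟨t, e1, e2, e3, e4⟩ := (b3.and (c3.and (c5.and (hU tne)))).exists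
    refine e1.2 ⟨i, fun r => ⟨_, e2 r, fun l hl => ?_⟩⟩
    have e5 : (t : ℂ) ≠ 0 := e4
    have e6 := e2 r
    rw [← e3 r l hl]
    field_simp
  have E3 : ∀ᶠ t : ℝ in 𝓝[>] 0, ∀ i i', (∀ r, ∃ c : ℂ, c ≠ 0 ∧ ∀ l, l ≤ n r →
      (t : ℂ) ^ (d i').w r l * ζ i' t r l = c * ((t : ℂ) ^ (d i).w r l * ζ i t r l)) →
      i = i' := by
    rw [eventually_all]
    intro i
    rw [eventually_all]
    intro i'
    by_cases hii : i = i'
    · exact Eventually.of_forall fun _ _ => hii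
    refine Filter.mem_iff_ultrafilter.2 fun U hU => ?_
    by_contra hcon
    have b1 := Ultrafilter.compl_mem_iff_notMem.2 hcon
    have hU0 := hU.trans nhdsWithin_le_nhds
    obtain ⟨a1, a2⟩ := distinct hD hU (hk i) (hk i') (hg i) (hg i') (d i) (d i')
      (ζ := fun t r l => ζ i t r l) (ζ' := fun t r l => ζ i' t r l)
      (fun r l hl => ((Complex.continuous_ofReal.tendsto _).comp (h1 i r l hl)).mono_left hU0)
      (fun r l hl => ((Complex.continuous_ofReal.tendsto _).comp (h1 i' r l hl)).mono_left hU0)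
      (mem_of_superset b1 fun t ht => (Classical.not_imp.1 ht).1)
    exact hii (Subtype.ext (Sigma.ext a1 (heq_of_eq a2)))
  filter_upwards [E1, E2, E3] with t e1 e2 e3
  refine ⟨fun i r l => t ^ (d i).w r l * ζ i t r l, fun y => ⟨fun hy => ?_, ?_⟩, ?_⟩
  · simpa using e2 y hy
  · rintro ⟨i, hi⟩
    exact (e1 i).scale (by simpa using hi)
  · intro i i' hi
    exact e3 i i' (by simpa using hi)

theorem small_ne (hD : 0 < D) (n : Word D) : ∀ᶠ t : ℝ in 𝓝[>] 0, ∀ y : Fin D → ℕ → ℂ,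
    Sol n t y → ∀ s, ∃ j, j ≤ n s ∧ Dsum n (fun ι => (t : ℂ) ^ om n ι) y s j ≠ 0 := by
  refine Filter.mem_iff_ultrafilter.2 fun U hU => ?_
  by_contra hcon
  have b1 := Ultrafilter.compl_mem_iff_notMem.2 hcon
  have b2 : ∀ t : ℝ, ∃ y : Fin D → ℕ → ℂ, ¬ (∀ y : Fin D → ℕ → ℂ, Sol n t y →
      ∀ s, ∃ j, j ≤ n s ∧ Dsum n (fun ι => (t : ℂ) ^ om n ι) y s j ≠ 0) →
      Sol n t y ∧ ¬ ∀ s, ∃ j, j ≤ n s ∧ Dsum n (fun ι => (t : ℂ) ^ om n ι) y s j ≠ 0 := by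
    intro t
    by_cases b3 : ∀ y : Fin D → ℕ → ℂ, Sol n t y →
      ∀ s, ∃ j, j ≤ n s ∧ Dsum n (fun ι => (t : ℂ) ^ om n ι) y s j ≠ 0
    · exact ⟨0, fun b4 => absurd b3 b4⟩
    · obtain ⟨y, hy⟩ := not_forall.1 b3
      exact ⟨y, fun _ => Classical.not_imp.1 hy⟩
  choose y hy using b2
  have b3 : ∀ᶠ t : ℝ in U, Sol n t (y t) ∧
      ¬ ∀ s, ∃ j, j ≤ n s ∧ Dsum n (fun ι => (t : ℂ) ^ om n ι) (y t) s j ≠ 0 :=
    mem_of_superset b1 fun t ht => hy t ht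
  obtain ⟨c, ι0, lam, h⟩ := exists_lim n U hU y (b3.mono fun t ht => ht.1)
  obtain ⟨k, M, μ, h2⟩ := h.exists_lim2 hD
  obtain ⟨t, e1, e2, e3⟩ := (b3.and (h2.top_ne.and h.eqn)).exists
  refine e1.2 fun s => ⟨k s, h2.hk s, fun h0 => mul_ne_zero (e2 s).1 (e2 s).2 ?_⟩
  rw [← e3 s (k s) (h2.hk s)]
  exact h0

theorem rank_eq (n : Word D) (ι : ∀ i : Fin D, Fin (n i + 1)) :
    rank n (fun r => ι r) =
      Nat.card {κ : ∀ i : Fin D, Fin (n i + 1) // ∃ s, (∀ r, r < s → κ r = ι r) ∧ κ s < ι s} := by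
  classical
  rw [rank, Nat.card_eq_fintype_card, Fintype.card_subtype]
  symm
  apply Finset.card_bij (fun κ _ => fun r => (κ r : ℕ))
  · intro κ hκ
    obtain ⟨s, h1, h2⟩ := (mem_filter.1 hκ).2
    exact mem_filter.2 ⟨mem_box.2 fun r => Nat.le_of_lt_succ (κ r).2,
      s, fun r hr => congrArg Fin.val (h1 r hr), h2⟩
  · intro κ _ κ' _ h
    funext r
    exact Fin.ext (congrFun h r)
  · intro κ hκ
    obtain ⟨h0, s, h1, h2⟩ := mem_filter.1 hκ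
    exact ⟨fun r => ⟨κ r, Nat.lt_succ_of_le (mem_box.1 h0 r)⟩,
      mem_filter.2 ⟨mem_univ _, s, fun r hr => Fin.ext (h1 r hr), h2⟩, rfl⟩

theorem quot_eq (k : Fin D) (m : ℕ) (q : MvPolynomial (Fin D) ℤ)
    (hq : (∑ i ∈ univ.erase k, MvPolynomial.X i - MvPolynomial.X k) * q =
      (∑ i ∈ univ.erase k, MvPolynomial.X i) ^ (m + 1) - MvPolynomial.X k ^ (m + 1)) :
    q = ∑ j ∈ range (m + 1), (∑ i ∈ univ.erase k, MvPolynomial.X i) ^ j *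
      MvPolynomial.X k ^ (m - j) := by
  have h0 : (∑ i ∈ univ.erase k, MvPolynomial.X i - MvPolynomial.X k :
      MvPolynomial (Fin D) ℤ) ≠ 0 := by
    intro h
    have := congrArg (MvPolynomial.eval fun i => if i = k then (1 : ℤ) else 0) h
    rw [map_sub, map_sum, Finset.sum_eq_zero fun i hi => by simp [(mem_erase.1 hi).1]] at this
    simp at this
  apply mul_left_cancel₀ h0
  rw [hq, ← Commute.mul_geom_sum₂ (Commute.all _ _)]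
  rfl

end Pool.Agent.Lib.MP_a18d4e_ag
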