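import Mathlib

-- part Pool.Agent.Lib.MP_a18d4e_ag.Comb
section

/-!
Compatible families of words (simplices of the lexicographic placing triangulation of a product of
simplices) and their linear relations.
-/

set_option autoImplicit false

namespace Pool.Agent.Lib.MP_a18d4e_ag

open Finset

/-- words of length `D` -/
abbrev Word (D : ℕ) : Type := Fin D → ℕ

variable {D : ℕ}

/-- after the first difference the lexicographically smaller word dominates -/
def Std (a b : Word D) : Prop :=
  ∀ s, (∀ r, r < s → a r = b r) → a s < b s → ∀ r, s < r → b r ≤ a r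

/-- pairwise standard families -/
def Compat (M : Finset (Word D)) : Prop := ∀ a ∈ M, ∀ b ∈ M, Std a b

/-- the marginal of `l` at coordinate `r` is `α e_h - β e_z` -/
def RelAt (M : Finset (Word D)) (l : Word D → ℂ) (r : Fin D) (α : ℂ) (h : ℕ) (β : ℂ) (z : ℕ) :
    Prop :=
  ∀ f : ℕ → ℂ, ∑ g ∈ M, l g * f (g r) = α * f h - β * f z

theorem Compat.subset {M N : Finset (Word D)} (h : Compat M) (hN : N ⊆ M) : Compat N :=
  fun a ha b hb => h a (hN ha) b (hN hb)

theorem RelAt.mass {M : Finset (Word D)} {l : Word D → ℂ} {r : Fin D} {α β : ℂ} {h z : ℕ}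
    (H : RelAt M l r α h β z) : ∑ g ∈ M, l g = α - β := by
  simpa using H fun _ => 1

theorem RelAt.mass_filter {M : Finset (Word D)} {l : Word D → ℂ} {r : Fin D} {α β : ℂ} {h z : ℕ}
    (H : RelAt M l r α h β z) (p : ℕ → Prop) [DecidablePred p] :
    ∑ g ∈ M.filter (fun g => p (g r)), l g =
      (if p h then α else 0) - (if p z then β else 0) := by
  have := H fun x => if p x then 1 else 0
  rw [Finset.sum_filter]
  simpa using this

theorem cut_rel {M : Finset (Word D)} {l : Word D → ℂ} {r : Fin D} {α β γ : ℂ} {h z m : ℕ}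
    (p : Word D → Prop) [DecidablePred p] (H : RelAt M l r α h β z)
    (h2 : ∀ g ∈ M, p g → g r ≤ m) (h1 : ∀ g ∈ M, ¬ p g → m ≤ g r) (hz : z ≤ m) (hh : m ≤ h)
    (hγ : γ = ∑ g ∈ M.filter p, l g + β) :
    RelAt (M.filter p) l r γ m β z ∧ RelAt (M.filter fun g => ¬ p g) l r α h γ m := by
  have key : RelAt (M.filter p) l r γ m β z := by
    intro f
    have e1 := H fun x => if x < m then f x - f m else 0
    have e2 : ∑ g ∈ M, l g * (if g r < m then f (g r) - f m else 0) =
        ∑ g ∈ M.filter p, l g * (f (g r) - f m) := by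
      rw [Finset.sum_filter]
      apply Finset.sum_congr rfl
      intro g hg
      by_cases hp : p g
      · rcases (h2 g hg hp).lt_or_eq with hlt | heq
        · simp [hp, hlt]
        · simp [hp, heq]
      · have := h1 g hg hp
        simp [hp, not_lt.2 this]
    have e3 : (if z < m then f z - f m else 0) = f z - f m := by
      rcases hz.lt_or_eq with hlt | heq
      · simp [hlt]
      · simp [heq]
    simp only [e2, not_lt.2 hh, if_false, e3] at e1
    simp only [mul_sub, Finset.sum_sub_distrib, ← Finset.sum_mul] at e1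
    rw [hγ]
    linear_combination e1
  refine ⟨key, fun f => ?_⟩
  have e1 := H f
  have e2 := key f
  rw [← Finset.sum_filter_add_sum_filter_not M p] at e1
  linear_combination e1 - e2

theorem cut_meet {M : Finset (Word D)} {l : Word D → ℂ} {r : Fin D} {α β : ℂ} {h z : ℕ}
    (p : Word D → Prop) [DecidablePred p] (H : RelAt M l r α h β z)
    (hle : ∀ g ∈ M, ∀ g' ∈ M, p g → ¬ p g' → g r ≤ g' r)
    (hz : ∀ g ∈ M, z ≤ g r) (hh : ∀ g ∈ M, g r ≤ h)
    (h2 : ∃ g ∈ M, p g) (h1 : ∃ g ∈ M, ¬ p g)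
    (hγ : ∑ g ∈ M.filter p, l g + β ≠ 0) :
    ∃ g ∈ M, ∃ g' ∈ M, p g ∧ ¬ p g' ∧ g r = g' r := by
  obtain ⟨a, ha, hpa⟩ := h2
  obtain ⟨b, hb, hpb⟩ := h1
  obtain ⟨g, hg, hgm⟩ := Finset.exists_max_image (M.filter p) (fun g => g r)
    ⟨a, Finset.mem_filter.2 ⟨ha, hpa⟩⟩
  obtain ⟨g', hg', hgm'⟩ := Finset.exists_min_image (M.filter fun g => ¬ p g) (fun g => g r)
    ⟨b, Finset.mem_filter.2 ⟨hb, hpb⟩⟩
  rw [Finset.mem_filter] at hg hg'
  refine ⟨g, hg.1, g', hg'.1, hg.2, hg'.2, ?_⟩
  rcases (hle g hg.1 g' hg'.1 hg.2 hg'.2).lt_or_eq with hlt | heq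
  · exfalso
    apply hγ
    have e1 := H.mass_filter (fun x => x ≤ g r)
    have e2 : M.filter (fun x => x r ≤ g r) = M.filter p := by
      apply Finset.filter_congr
      intro x hx
      constructor
      · intro hle'
        by_contra hp
        have := hgm' x (Finset.mem_filter.2 ⟨hx, hp⟩)
        omega
      · intro hp
        exact hgm x (Finset.mem_filter.2 ⟨hx, hp⟩)
    have e3 : ¬ h ≤ g r := by
      have := hh g' hg'.1
      omega
    rw [e2] at e1
    simp only [e3, if_false, hz g hg.1, if_true] at e1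
    rw [e1]
    ring
  · exact heq

theorem used_hi {M : Finset (Word D)} {l : Word D → ℂ} {r : Fin D} {α β : ℂ} {h z : ℕ}
    (H : RelAt M l r α h β z) (hα : α ≠ 0) (hne : M.Nonempty)
    (hz : ∀ g ∈ M, z ≤ g r) (hh : ∀ g ∈ M, g r ≤ h) : ∃ g ∈ M, g r = h := by
  by_cases hzh : z = h
  · obtain ⟨g, hg⟩ := hne
    exact ⟨g, hg, le_antisymm (hh g hg) (hzh ▸ hz g hg)⟩
  · by_contra hcon
    push Not at hcon
    have e1 := H.mass_filter (fun x => x = h)
    rw [Finset.filter_false_of_mem hcon] at e1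
    simp only [Finset.sum_empty, if_true, hzh, if_false, sub_zero] at e1
    exact hα e1.symm

theorem filter_split (M : Finset (Word D)) (s : Fin D) (a : ℕ) (F : Word D → ℂ) :
    ∑ g ∈ M.filter (fun g => g s = a), F g =
      ∑ g ∈ M.filter (fun g => a ≤ g s), F g - ∑ g ∈ M.filter (fun g => a + 1 ≤ g s), F g := by
  simp only [Finset.sum_filter, ← Finset.sum_sub_distrib]
  apply Finset.sum_congr rfl
  intro g _
  rcases lt_trichotomy (g s) a with h | h | h
  · simp [h.ne, not_le.2 h, show ¬ a + 1 ≤ g s by omega]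
  · simp [h]
  · simp [h.ne', h.le, show a + 1 ≤ g s by omega]

theorem indep_aux (t : ℕ) : ∀ s : ℕ, D ≤ s + t → ∀ (M : Finset (Word D)) (l : Word D → ℂ),
    Compat M → (∀ a ∈ M, ∀ b ∈ M, ∀ r : Fin D, r.1 < s → a r = b r) → ∑ g ∈ M, l g = 0 →
    (∀ r : Fin D, s ≤ r.1 → ∀ f : ℕ → ℂ, ∑ g ∈ M, l g * f (g r) = 0) → ∀ g ∈ M, l g = 0 := by
  induction t with
  | zero =>
    intro s hs M l _ hag hmass _ g hg
    have : M = {g} := by
      apply Finset.eq_singleton_iff_unique_mem.2
      refine ⟨hg, fun b hb => funext fun r => hag b hb g hg r (by omega)⟩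
    rw [this] at hmass
    simpa using hmass
  | succ t ih =>
    intro s hs M l hM hag hmass hrel g hg
    by_cases hsD : D ≤ s + t
    · exact ih s hsD M l hM hag hmass hrel g hg
    have hsD' : s < D := by omega
    set S : Fin D := ⟨s, hsD'⟩ with hS
    have hrelS : RelAt M l S 0 0 0 0 := fun f => by simpa using hrel S le_rfl f
    have hge : ∀ c : ℕ, ∀ r : Fin D, s + 1 ≤ r.1 → ∀ f : ℕ → ℂ,
        ∑ g ∈ M.filter (fun g => c ≤ g S), l g * f (g r) = 0 := by
      intro c r hr f
      set m := (M.filter (fun g => c ≤ g S)).sup (fun g => g r) with hm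
      have H : RelAt M l r 0 m 0 m := fun f => by simpa using hrel r (by omega) f
      have h0 : (0 : ℂ) = ∑ g ∈ M.filter (fun g => c ≤ g S), l g + 0 := by
        have := hrelS.mass_filter (fun x => c ≤ x)
        simp only [ite_self, sub_zero] at this
        rw [this, add_zero]
      have := (cut_rel (fun g => c ≤ g S) H
        (fun g hg hp => Finset.le_sup (f := fun g => g r) (Finset.mem_filter.2 ⟨hg, hp⟩))
        (fun g hg hp => Finset.sup_le fun b hb => by
          rw [Finset.mem_filter] at hb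
          exact hM g hg b hb.1 S (fun r' hr' => hag g hg b hb.1 r' hr') (by omega) r
            (show s < r.1 by omega)) le_rfl le_rfl h0).1 f
      simpa using this
    apply ih (s + 1) (by omega) (M.filter fun b => b S = g S) l
      (hM.subset (Finset.filter_subset _ _))
    · intro a ha b hb r hr
      rw [Finset.mem_filter] at ha hb
      rcases Nat.lt_succ_iff_lt_or_eq.1 hr with h | h
      · exact hag a ha.1 b hb.1 r h
      · have : r = S := Fin.ext h
        rw [this, ha.2, hb.2]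
    · have := hrelS.mass_filter (fun x => x = g S)
      simpa using this
    · intro r hr f
      rw [filter_split M S (g S) (fun b => l b * f (b r)), hge _ r hr f, hge _ r hr f, sub_zero]
    · exact Finset.mem_filter.2 ⟨hg, rfl⟩

/-- compatible families are linearly independent -/
theorem indep (hD : 0 < D) {M : Finset (Word D)} {l : Word D → ℂ} (hM : Compat M)
    (hrel : ∀ r : Fin D, ∀ f : ℕ → ℂ, ∑ g ∈ M, l g * f (g r) = 0) : ∀ g ∈ M, l g = 0 := by
  apply indep_aux D 0 (by omega) M l hM (fun _ _ _ _ r hr => absurd hr (by omega))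
  · simpa using hrel ⟨0, hD⟩ fun _ => 1
  · intro r _
    exact hrel r

end Pool.Agent.Lib.MP_a18d4e_ag
end

-- part Pool.Agent.Lib.MP_a18d4e_ag.Peel
section

/-!
Good families and the peeling of the lowest letter at the first free coordinate.
-/

set_option autoImplicit false

namespace Pool.Agent.Lib.MP_a18d4e_ag

open Finset Function

variable {D : ℕ}

/-- compatible families in a box using every letter, with a relation to the target -/
def Good (lo hi : Word D) (α β : ℕ) (z : Word D) (M : Finset (Word D)) : Prop :=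
  (∀ g ∈ M, lo ≤ g ∧ g ≤ hi) ∧ Compat M ∧ (∀ r c, lo r ≤ c → c ≤ hi r → ∃ g ∈ M, g r = c) ∧
    ∃ l : Word D → ℂ, (∀ g ∈ M, l g ≠ 0) ∧ ∀ r, RelAt M l r α (hi r) β (z r)

theorem Good.split {lo hi z : Word D} {α β γ : ℕ} {M : Finset (Word D)} {s : Fin D}
    (hα : 0 < α) (hle : lo ≤ hi) (hs : lo s < hi s) (hpre : ∀ r, r < s → lo r = hi r)
    (hz : ∀ r, r ≠ s → z r = lo r)
    (hγ : (z s = lo s ∧ γ = α + β) ∨ (z s = hi s ∧ γ = α)) (h : Good lo hi α β z M) :
    ∃ m : Word D, lo ≤ m ∧ m ≤ update hi s (lo s) ∧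
      Good m (update hi s (lo s)) α γ m (M.filter fun g => g s = lo s) ∧
      Good (update lo s (lo s + 1)) (update m s (hi s)) γ β (update lo s (hi s))
        (M.filter fun g => g s ≠ lo s) := by
  obtain ⟨hbox, hc, huse, l, hl, hrel⟩ := h
  have hmass : (γ : ℂ) = ∑ g ∈ M.filter (fun g => g s ≠ lo s), l g + β := by
    rw [(hrel s).mass_filter (fun x => x ≠ lo s)]
    rcases hγ with ⟨h1, h2⟩ | ⟨h1, h2⟩
    · simp [h1, h2, hs.ne']
    · simp [h1, h2, hs.ne']
  have hγ0 : (γ : ℂ) ≠ 0 := by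
    rcases hγ with ⟨_, h2⟩ | ⟨_, h2⟩ <;> exact_mod_cast (by omega : γ ≠ 0)
  have hpre' : ∀ g ∈ M, ∀ r, r < s → g r = lo r := fun g hg r hr =>
    le_antisymm ((hpre r hr).symm ▸ (hbox g hg).2 r) ((hbox g hg).1 r)
  obtain ⟨a, ha, has⟩ := huse s (hi s) hs.le le_rfl
  obtain ⟨b, hb, hbs⟩ := huse s (lo s) le_rfl hs.le
  have hcmp : ∀ r, s < r → ∀ g ∈ M, ∀ g' ∈ M, g s ≠ lo s → ¬ g' s ≠ lo s → g r ≤ g' r := by
    intro r hr g hg g' hg' h1 h2
    have : lo s ≤ g s := (hbox g hg).1 s
    exact hc g' hg' g hg s (fun r' hr' => by rw [hpre' g hg r' hr', hpre' g' hg' r' hr'])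
      (by omega) r hr
  have hm : ∀ r, ∃ c, lo r ≤ c ∧ c ≤ update hi s (lo s) r ∧
      (r ≠ s → ∀ g ∈ M, g s ≠ lo s → g r ≤ c) ∧ (∀ g ∈ M, ¬ g s ≠ lo s → c ≤ g r) ∧
      (r ≠ s → ∃ g ∈ M, g s ≠ lo s ∧ g r = c) ∧ (∃ g ∈ M, ¬ g s ≠ lo s ∧ g r = c) := by
    intro r
    rcases lt_trichotomy r s with hr | hr | hr
    · refine ⟨lo r, le_rfl, by rw [update_of_ne hr.ne]; exact hle r,
        fun _ g hg _ => (hpre' g hg r hr).le, fun g hg _ => (hpre' g hg r hr).ge,
        fun _ => ⟨a, ha, by omega, hpre' a ha r hr⟩, ⟨b, hb, by omega, hpre' b hb r hr⟩⟩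
    · subst hr
      refine ⟨lo r, le_rfl, by simp, fun h => absurd rfl h, fun g hg h => by omega,
        fun h => absurd rfl h, ⟨b, hb, by omega, hbs⟩⟩
    · obtain ⟨g, hg, g', hg', h1, h2, h3⟩ := cut_meet (fun g => g s ≠ lo s) (hrel r)
        (hcmp r hr) (fun g hg => (hz r hr.ne').symm ▸ (hbox g hg).1 r)
        (fun g hg => (hbox g hg).2 r) ⟨a, ha, by omega⟩ ⟨b, hb, by omega⟩ (hmass ▸ hγ0)
      refine ⟨g r, (hbox g hg).1 r, by rw [update_of_ne hr.ne']; exact (hbox g hg).2 r,
        fun _ x hx hx' => h3 ▸ hcmp r hr x hx g' hg' hx' h2,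
        fun x hx hx' => hcmp r hr g hg x hx h1 hx', fun _ => ⟨g, hg, h1, rfl⟩,
        ⟨g', hg', h2, h3.symm⟩⟩
  choose m hm1 hm2 hm3 hm4 hm5 hm6 using hm
  have hms : m s = lo s := le_antisymm (by simpa using hm2 s) (hm1 s)
  have hcut : ∀ r, r ≠ s → RelAt (M.filter fun g => g s ≠ lo s) l r γ (m r) β (z r) ∧
      RelAt (M.filter fun g => ¬ g s ≠ lo s) l r α (hi r) γ (m r) := fun r hr =>
    cut_rel (fun g => g s ≠ lo s) (hrel r) (hm3 r hr) (hm4 r) (by rw [hz r hr]; exact hm1 r)
      (by have := hm2 r; rwa [update_of_ne hr] at this) hmass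
  have hf : (M.filter fun g => ¬ g s ≠ lo s) = M.filter fun g => g s = lo s := by simp
  have hrel1 : RelAt (M.filter fun g => g s = lo s) l s α (lo s) γ (lo s) := by
    intro f
    have e1 : ∑ g ∈ M.filter (fun g => g s = lo s), l g * f (g s) =
        (∑ g ∈ M.filter (fun g => g s = lo s), l g) * f (lo s) := by
      rw [Finset.sum_mul]
      exact Finset.sum_congr rfl fun g hg => by rw [(Finset.mem_filter.1 hg).2]
    have e2 := (hrel s).mass
    rw [← Finset.sum_filter_add_sum_filter_not M (fun g => g s = lo s)] at e2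
    rw [e1]
    linear_combination (f (lo s)) * e2 + (f (lo s)) * hmass
  refine ⟨m, hm1, hm2, ⟨?_, hc.subset (filter_subset _ _), ?_, l,
    fun g hg => hl g (mem_filter.1 hg).1, ?_⟩, ⟨?_, hc.subset (filter_subset _ _), ?_, l,
    fun g hg => hl g (mem_filter.1 hg).1, ?_⟩⟩
  · intro g hg
    rw [mem_filter] at hg
    refine ⟨fun r => hm4 r g hg.1 (by simp [hg.2]), fun r => ?_⟩
    by_cases hr : r = s
    · subst hr; simp [hg.2]
    · rw [update_of_ne hr]; exact (hbox g hg.1).2 r
  · intro r c h1 h2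
    rcases h1.lt_or_eq with h1 | h1
    · have hr : r ≠ s := by
        rintro rfl
        simp at h2
        omega
      rw [update_of_ne hr] at h2
      obtain ⟨g, hg, hgc⟩ := huse r c ((hm1 r).trans h1.le) h2
      refine ⟨g, mem_filter.2 ⟨hg, ?_⟩, hgc⟩
      by_contra hne
      have := hm3 r hr g hg hne
      omega
    · obtain ⟨g, hg, h3, h4⟩ := hm6 r
      exact ⟨g, mem_filter.2 ⟨hg, by simpa using h3⟩, h4.trans h1⟩
  · intro r
    by_cases hr : r = s
    · subst hr
      rw [update_self, hms]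
      exact hrel1
    · rw [update_of_ne hr, ← hf]
      exact (hcut r hr).2
  · intro g hg
    rw [mem_filter] at hg
    refine ⟨fun r => ?_, fun r => ?_⟩
    · by_cases hr : r = s
      · subst hr
        have : lo r ≤ g r := (hbox g hg.1).1 r
        have := hg.2
        simp only [update_self]
        omega
      · rw [update_of_ne hr]; exact (hbox g hg.1).1 r
    · by_cases hr : r = s
      · subst hr
        simp only [update_self]
        exact (hbox g hg.1).2 r
      · rw [update_of_ne hr]; exact hm3 r hr g hg.1 hg.2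
  · intro r c h1 h2
    by_cases hr : r = s
    · subst hr
      simp only [update_self] at h1 h2
      obtain ⟨g, hg, hgc⟩ := huse r c (by omega) h2
      exact ⟨g, mem_filter.2 ⟨hg, by omega⟩, hgc⟩
    rw [update_of_ne hr] at h1 h2
    rcases h2.lt_or_eq with h2 | h2
    · have h3 := hm2 r
      rw [update_of_ne hr] at h3
      obtain ⟨g, hg, hgc⟩ := huse r c h1 (by omega)
      refine ⟨g, mem_filter.2 ⟨hg, ?_⟩, hgc⟩
      intro hne
      have := hm4 r g hg (by simp [hne])
      omega
    · obtain ⟨g, hg, h3, h4⟩ := hm5 r hr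
      exact ⟨g, mem_filter.2 ⟨hg, h3⟩, h4.trans h2.symm⟩
  · intro r
    by_cases hr : r = s
    · subst hr
      simp only [update_self]
      intro f
      have e1 := hrel r f
      have e2 := hrel1 f
      rw [← Finset.sum_filter_add_sum_filter_not M (fun g => g r = lo r)] at e1
      rcases hγ with ⟨h1, h2⟩ | ⟨h1, h2⟩
      · rw [h1] at e1
        rw [h2] at e2 ⊢
        push_cast at e2 ⊢
        linear_combination e1 - e2
      · rw [h1] at e1
        rw [h2] at e2 ⊢
        linear_combination e1 - e2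
    · rw [update_of_ne hr, update_of_ne hr, ← hz r hr]
      exact (hcut r hr).1

theorem Good.join {lo hi z m : Word D} {α β γ : ℕ} {M1 M2 : Finset (Word D)} {s : Fin D}
    (hpre : ∀ r, r < s → lo r = hi r) (hs : lo s < hi s) (hz : ∀ r, r ≠ s → z r = lo r)
    (hγ : (z s = lo s ∧ γ = α + β) ∨ (z s = hi s ∧ γ = α))
    (hlm : lo ≤ m) (hmh : m ≤ update hi s (lo s))
    (h1 : Good m (update hi s (lo s)) α γ m M1)
    (h2 : Good (update lo s (lo s + 1)) (update m s (hi s)) γ β (update lo s (hi s)) M2) :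
    Good lo hi α β z (M1 ∪ M2) := by
  obtain ⟨hbox1, hc1, huse1, l1, hl1, hrel1⟩ := h1
  obtain ⟨hbox2, hc2, huse2, l2, hl2, hrel2⟩ := h2
  have hms : m s = lo s := le_antisymm (by simpa using hmh s) (hlm s)
  have hmh' : ∀ r, r ≠ s → m r ≤ hi r := fun r hr => by
    have := hmh r
    rwa [update_of_ne hr] at this
  have s1 : ∀ g ∈ M1, g s = lo s := fun g hg =>
    le_antisymm (by simpa using (hbox1 g hg).2 s) (hms ▸ (hbox1 g hg).1 s)
  have s2 : ∀ g ∈ M2, lo s < g s := fun g hg => by simpa using (hbox2 g hg).1 s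
  have s2' : ∀ g ∈ M2, g s ≤ hi s := fun g hg => by simpa using (hbox2 g hg).2 s
  have o1 : ∀ g ∈ M1, ∀ r, r ≠ s → m r ≤ g r ∧ g r ≤ hi r := fun g hg r hr =>
    ⟨(hbox1 g hg).1 r, by have := (hbox1 g hg).2 r; rwa [update_of_ne hr] at this⟩
  have o2 : ∀ g ∈ M2, ∀ r, r ≠ s → lo r ≤ g r ∧ g r ≤ m r := fun g hg r hr =>
    ⟨by have := (hbox2 g hg).1 r; rwa [update_of_ne hr] at this,
      by have := (hbox2 g hg).2 r; rwa [update_of_ne hr] at this⟩
  have hdisj : Disjoint M1 M2 := by
    rw [Finset.disjoint_left]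
    intro g hg hg'
    have := s1 g hg
    have := s2 g hg'
    omega
  have hsum : ∀ (r : Fin D) (f : ℕ → ℂ),
      ∑ g ∈ M1 ∪ M2, (if g s = lo s then l1 g else l2 g) * f (g r) =
        ∑ g ∈ M1, l1 g * f (g r) + ∑ g ∈ M2, l2 g * f (g r) := by
    intro r f
    rw [Finset.sum_union hdisj]
    congr 1
    · exact Finset.sum_congr rfl fun g hg => by rw [if_pos (s1 g hg)]
    · exact Finset.sum_congr rfl fun g hg => by rw [if_neg (s2 g hg).ne']
  refine ⟨?_, ?_, ?_, fun g => if g s = lo s then l1 g else l2 g, ?_, ?_⟩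
  · intro g hg
    rcases mem_union.1 hg with hg | hg
    · refine ⟨hlm.trans (hbox1 g hg).1, fun r => ?_⟩
      by_cases hr : r = s
      · rw [hr, s1 g hg]; exact hs.le
      · exact (o1 g hg r hr).2
    · refine ⟨fun r => ?_, fun r => ?_⟩
      · by_cases hr : r = s
        · rw [hr]; exact (s2 g hg).le
        · exact (o2 g hg r hr).1
      · by_cases hr : r = s
        · rw [hr]; exact s2' g hg
        · exact (o2 g hg r hr).2.trans (hmh' r hr)
  · intro a ha b hb
    rcases mem_union.1 ha with ha | ha <;> rcases mem_union.1 hb with hb | hb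
    · exact hc1 a ha b hb
    · intro s' hp hlt r hr
      rcases lt_trichotomy s' s with h | h | h
      · have := o1 a ha s' h.ne
        have := o2 b hb s' h.ne
        omega
      · subst h
        exact (o2 b hb r hr.ne').2.trans (o1 a ha r hr.ne').1
      · have := hp s h
        have := s1 a ha
        have := s2 b hb
        omega
    · intro s' hp hlt r hr
      rcases lt_trichotomy s' s with h | h | h
      · have := o1 b hb s' h.ne
        have := o2 a ha s' h.ne
        have := hpre s' h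
        omega
      · subst h
        have := s1 b hb
        have := s2 a ha
        omega
      · have := hp s h
        have := s1 b hb
        have := s2 a ha
        omega
    · exact hc2 a ha b hb
  · intro r c h1 h2
    by_cases hr : r = s
    · subst hr
      rcases h1.lt_or_eq with h1 | h1
      · obtain ⟨g, hg, hgc⟩ := huse2 r c (by simpa using h1) (by simpa using h2)
        exact ⟨g, mem_union_right _ hg, hgc⟩
      · obtain ⟨g, hg, hgc⟩ := huse1 r c (by omega) (by simpa using h1.ge)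
        exact ⟨g, mem_union_left _ hg, hgc⟩
    · by_cases hc : c ≤ m r
      · obtain ⟨g, hg, hgc⟩ := huse2 r c (by rwa [update_of_ne hr]) (by rwa [update_of_ne hr])
        exact ⟨g, mem_union_right _ hg, hgc⟩
      · obtain ⟨g, hg, hgc⟩ := huse1 r c (by omega) (by rwa [update_of_ne hr])
        exact ⟨g, mem_union_left _ hg, hgc⟩
  · intro g hg
    rcases mem_union.1 hg with hg | hg
    · simp only [if_pos (s1 g hg)]
      exact hl1 g hg
    · simp only [if_neg (s2 g hg).ne']
      exact hl2 g hg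
  · intro r f
    rw [hsum, hrel1 r f, hrel2 r f]
    by_cases hr : r = s
    · subst hr
      simp only [update_self, hms]
      rcases hγ with ⟨h1, h2⟩ | ⟨h1, h2⟩
      · rw [h1, h2]
        push_cast
        ring
      · rw [h1, h2]
        ring
    · simp only [update_of_ne hr, hz r hr]
      ring

theorem Good.nonempty (hD : 0 < D) {lo hi z : Word D} {α β : ℕ} {M : Finset (Word D)}
    (hle : lo ≤ hi) (h : Good lo hi α β z M) : M.Nonempty := by
  obtain ⟨g, hg, _⟩ := h.2.2.1 ⟨0, hD⟩ _ le_rfl (hle _)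
  exact ⟨g, hg⟩

theorem good_point (hD : 0 < D) {lo : Word D} {α β : ℕ} {M : Finset (Word D)} :
    Good lo lo α β lo M ↔ M = {lo} ∧ α ≠ β := by
  constructor
  · intro h
    have hM : M = {lo} := by
      obtain ⟨g, hg⟩ := h.nonempty hD le_rfl
      have key : ∀ g ∈ M, g = lo := fun g hg => le_antisymm (h.1 g hg).2 (h.1 g hg).1
      exact Finset.eq_singleton_iff_unique_mem.2 ⟨key g hg ▸ hg, key⟩
    refine ⟨hM, fun hab => ?_⟩
    obtain ⟨l, hl, hrel⟩ := h.2.2.2
    have := (hrel ⟨0, hD⟩).mass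
    rw [hM, hab] at this
    simp only [sum_singleton, sub_self] at this
    exact hl lo (by simp [hM]) this
  · rintro ⟨rfl, hab⟩
    refine ⟨by simp, ?_, ?_, fun _ => (α : ℂ) - β, ?_, ?_⟩
    · intro a ha b hb s _ hlt
      rw [mem_singleton] at ha hb
      rw [ha, hb] at hlt
      omega
    · intro r c h1 h2
      exact ⟨lo, by simp, by omega⟩
    · intro _ _
      rw [sub_ne_zero]
      exact_mod_cast hab
    · intro r f
      simp only [sum_singleton]
      ring

/-- admissible second target -/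
def Adm (lo hi z : Word D) : Prop :=
  ∀ r, z r = lo r ∨ (z r = hi r ∧ ∀ r', r' < r → lo r' = hi r')

theorem exists_first {lo hi : Word D} (hle : lo ≤ hi) (hne : lo ≠ hi) :
    ∃ s, lo s < hi s ∧ ∀ r, r < s → lo r = hi r := by
  have h : ∃ s, lo s ≠ hi s := Function.ne_iff.1 hne
  classical
  obtain ⟨s, hs, hmin⟩ := (wellFounded_lt (α := Fin D)).has_min {s | lo s ≠ hi s} h
  refine ⟨s, lt_of_le_of_ne (hle s) hs, fun r hr => ?_⟩
  by_contra hcon
  exact hmin r hcon hr

theorem Adm.off {lo hi z : Word D} (h : Adm lo hi z) {s : Fin D} (hs : lo s < hi s)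
    (hpre : ∀ r, r < s → lo r = hi r) : ∀ r, r ≠ s → z r = lo r := by
  intro r hr
  rcases h r with h1 | ⟨h1, h2⟩
  · exact h1
  · rcases lt_or_gt_of_ne hr with h3 | h3
    · rw [h1, hpre r h3]
    · have := h2 s h3
      omega

theorem adm_rest {lo hi m : Word D} {s : Fin D} (hpre : ∀ r, r < s → lo r = hi r)
    (hlm : lo ≤ m) (hmh : m ≤ update hi s (lo s)) :
    Adm (update lo s (lo s + 1)) (update m s (hi s)) (update lo s (hi s)) := by
  intro r
  by_cases hr : r = s
  · subst hr
    refine Or.inr ⟨by simp, fun r' hr' => ?_⟩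
    have h1 : lo r' ≤ m r' := hlm r'
    have h2 : m r' ≤ update hi r (lo r) r' := hmh r'
    have h3 := hpre r' hr'
    rw [update_of_ne hr'.ne] at h2
    rw [update_of_ne hr'.ne, update_of_ne hr'.ne]
    omega
  · left
    rw [update_of_ne hr, update_of_ne hr]

theorem size_split {lo hi m : Word D} {s : Fin D} (hs : lo s < hi s)
    (hlm : lo ≤ m) (hmh : m ≤ update hi s (lo s)) :
    ∑ r, (update hi s (lo s) r - m r) + ∑ r, (update m s (hi s) r - update lo s (lo s + 1) r) + 1 =
      ∑ r, (hi r - lo r) := by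
  have h1 : (1 : ℕ) = ∑ r : Fin D, if r = s then 1 else 0 := by simp
  conv_lhs => rw [h1]
  rw [← Finset.sum_add_distrib, ← Finset.sum_add_distrib]
  apply Finset.sum_congr rfl
  intro r _
  have h2 : lo r ≤ m r := hlm r
  have h3 : m r ≤ update hi s (lo s) r := hmh r
  by_cases hr : r = s
  · subst hr
    simp only [update_self, if_true] at h3 ⊢
    omega
  · simp only [update_of_ne hr, if_neg hr] at h3 ⊢
    omega

theorem rest_le {lo hi m : Word D} {s : Fin D} (hs : lo s < hi s) (hlm : lo ≤ m) :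
    update lo s (lo s + 1) ≤ update m s (hi s) := by
  intro r
  by_cases hr : r = s
  · subst hr
    simp only [update_self]
    omega
  · simp only [update_of_ne hr]
    exact hlm r

theorem box_of_invariant {lo hi : Word D} (S : Set (Word D)) (g : Word D) (hg : g ∈ S)
    (h1 : lo ≤ g) (h2 : g ≤ hi)
    (hinv : ∀ r c, lo r ≤ c → c ≤ hi r → ∀ ι ∈ S, lo r ≤ ι r → ι r ≤ hi r → update ι r c ∈ S) :
    ∀ ι, lo ≤ ι → ι ≤ hi → ι ∈ S := by
  intro ι h3 h4
  have key : ∀ T : Finset (Fin D), T.piecewise ι g ∈ S := by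
    intro T
    induction T using Finset.induction_on with
    | empty => simpa using hg
    | insert j T hj ih =>
      rw [Finset.piecewise_insert]
      apply hinv j _ (h3 j) (h4 j) _ ih
      · rw [Finset.piecewise_eq_of_notMem _ _ _ hj]; exact h1 j
      · rw [Finset.piecewise_eq_of_notMem _ _ _ hj]; exact h2 j
  simpa using key univ

theorem closure_aux (hD : 0 < D) (S : Set (Word D))
    (hS : ∀ κ ι r c, κ ∈ S → update κ r c ∈ S → ι ∈ S → ι r = κ r → update ι r c ∈ S) (N : ℕ) :
    ∀ (lo hi z : Word D) (α β : ℕ) (M : Finset (Word D)), ∑ r, (hi r - lo r) ≤ N → 0 < α →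
      lo ≤ hi → Adm lo hi z → Good lo hi α β z M → (∀ g ∈ M, g ∈ S) →
      ∀ ι, lo ≤ ι → ι ≤ hi → ι ∈ S := by
  induction N with
  | zero =>
    intro lo hi z α β M hN _ hle _ h hM ι h1 h2
    have : lo = hi := by
      funext r
      have := Finset.single_le_sum (f := fun r => hi r - lo r) (fun _ _ => Nat.zero_le _)
        (mem_univ r)
      have := hle r
      simp only at *
      omega
    obtain ⟨g, hg⟩ := h.nonempty hD hle
    have : g = ι := le_antisymm ((h.1 g hg).2.trans (this ▸ h1)) (h2.trans (this ▸ (h.1 g hg).1))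
    exact this ▸ hM g hg
  | succ N ih =>
    intro lo hi z α β M hN hα hle hadm h hM
    by_cases hne : lo = hi
    · apply ih lo hi z α β M (by simp [hne]) hα hle hadm h hM
    obtain ⟨s, hs, hpre⟩ := exists_first hle hne
    have hγ : ∃ γ, 0 < γ ∧ ((z s = lo s ∧ γ = α + β) ∨ (z s = hi s ∧ γ = α)) := by
      rcases hadm s with h1 | h1
      · exact ⟨α + β, by omega, Or.inl ⟨h1, rfl⟩⟩
      · exact ⟨α, hα, Or.inr ⟨h1.1, rfl⟩⟩
    obtain ⟨γ, hγ0, hγ⟩ := hγ
    obtain ⟨m, hlm, hmh, g1, g2⟩ := h.split hα hle hs hpre (hadm.off hs hpre) hγ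
    have hsz := size_split hs hlm hmh
    have b1 := ih _ _ _ _ _ _ (by omega) hα hmh (fun r => Or.inl rfl) g1
      (fun g hg => hM g (mem_filter.1 hg).1)
    have b2 := ih _ _ _ _ _ _ (by omega) hγ0 (rest_le hs hlm) (adm_rest hpre hlm hmh) g2
      (fun g hg => hM g (mem_filter.1 hg).1)
    have hms : m s = lo s := le_antisymm (by simpa using hmh s) (hlm s)
    have hmh' : ∀ r, r ≠ s → m r ≤ hi r := fun r hr => by
      have := hmh r
      rwa [update_of_ne hr] at this
    -- all one-letter modifications of the meeting points lie in S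
    have c0 : ∀ c, lo s ≤ c → c ≤ hi s → update m s c ∈ S := by
      intro c h1 h2
      rcases h1.lt_or_eq with h1 | h1
      · apply b2
        · exact update_le_update_iff.2 ⟨h1, fun r _ => hlm r⟩
        · exact update_le_update_iff.2 ⟨h2, fun r _ => le_rfl⟩
      · rw [← h1, ← hms, update_eq_self]
        exact b1 m le_rfl hmh
    have c1 : ∀ r, r ≠ s → ∀ c, m r ≤ c → c ≤ hi r → update m r c ∈ S := by
      intro r hr c h1 h2
      apply b1
      · exact le_update_iff.2 ⟨h1, fun _ _ => le_rfl⟩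
      · exact update_le_iff.2 ⟨by rwa [update_of_ne hr], fun r' _ => hmh r'⟩
    have c2 : ∀ r, r ≠ s → ∀ c, lo r ≤ c → c ≤ m r → update (update m s (hi s)) r c ∈ S := by
      intro r hr c h1 h2
      apply b2
      · exact le_update_iff.2 ⟨by rwa [update_of_ne hr], fun r' _ => rest_le hs hlm r'⟩
      · exact update_le_iff.2 ⟨by rwa [update_of_ne hr], fun _ _ => le_rfl⟩
    have step : ∀ (κ : Word D) r c c', update κ r c ∈ S → update κ r c' ∈ S → ∀ ι ∈ S, ι r = c →
        update ι r c' ∈ S := by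
      intro κ r c c' h1 h2 ι hι h3
      exact hS (update κ r c) ι r c' h1 (by rwa [update_idem]) hι (by simp [h3])
    apply box_of_invariant S m (b1 m le_rfl hmh) hlm
      (fun r => by
        by_cases hr : r = s
        · rw [hr, hms]; exact hs.le
        · exact hmh' r hr)
    intro r c h1 h2 ι hι h3 h4
    by_cases hr : r = s
    · subst hr
      exact step m r _ c (c0 _ h3 h4) (c0 _ h1 h2) ι hι rfl
    · have e1 : update ι r (m r) ∈ S := by
        by_cases h5 : m r ≤ ι r
        · exact step m r _ _ (c1 r hr _ h5 h4) (c1 r hr _ le_rfl (hmh' r hr)) ι hι rfl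
        · exact step _ r _ _ (c2 r hr _ h3 (by omega)) (c2 r hr _ (hlm r) le_rfl) ι hι rfl
      rw [← update_idem (v := m r)]
      by_cases h5 : m r ≤ c
      · exact step m r _ _ (c1 r hr _ le_rfl (hmh' r hr)) (c1 r hr _ h5 h2) _ e1 (by simp)
      · exact step _ r _ _ (c2 r hr _ (hlm r) le_rfl) (c2 r hr _ h1 (by omega)) _ e1 (by simp)

/-- a good family generates its box under the exchange rule -/
theorem Good.closure (hD : 0 < D) {k : Word D} {M : Finset (Word D)} (h : Good 0 k 1 0 0 M)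
    (S : Set (Word D)) (hM : ∀ g ∈ M, g ∈ S)
    (hS : ∀ κ ι r c, κ ∈ S → update κ r c ∈ S → ι ∈ S → ι r = κ r → update ι r c ∈ S) :
    ∀ ι, ι ≤ k → ι ∈ S := fun ι hι =>
  closure_aux hD S hS _ 0 k 0 1 0 M le_rfl one_pos (fun _ => Nat.zero_le _)
    (fun _ => Or.inl rfl) h hM ι (fun _ => Nat.zero_le _) hι

end Pool.Agent.Lib.MP_a18d4e_ag
end

-- part Pool.Agent.Lib.MP_a18d4e_ag.Weight
section

/-!
Lexicographic weights, straightening, and the data attached to a good family.
-/

set_option autoImplicit false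

namespace Pool.Agent.Lib.MP_a18d4e_ag

open Finset Function

variable {D : ℕ}

theorem Good.span (hD : 0 < D) {k : Word D} {M : Finset (Word D)} (h : Good 0 k 1 0 0 M) :
    ∀ ι, ι ≤ k → ∃ c : Word D → ℤ, ∀ r (f : ℕ → ℂ), ∑ g ∈ M, (c g : ℂ) * f (g r) = f (ι r) := by
  apply h.closure hD {ι | ∃ c : Word D → ℤ, ∀ r (f : ℕ → ℂ),
    ∑ g ∈ M, (c g : ℂ) * f (g r) = f (ι r)}
  · intro g hg
    refine ⟨fun x => if x = g then 1 else 0, fun r f => ?_⟩
    simp [hg]
  · rintro κ ι r c ⟨c1, h1⟩ ⟨c2, h2⟩ ⟨c3, h3⟩ h4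
    refine ⟨fun x => c3 x - c1 x + c2 x, fun r' f => ?_⟩
    push_cast
    simp only [add_mul, sub_mul, Finset.sum_add_distrib, Finset.sum_sub_distrib, h1, h2, h3]
    by_cases hr : r' = r
    · subst hr
      simp [h4]
    · simp [hr]

theorem Good.extend (hD : 0 < D) {k : Word D} {M : Finset (Word D)} (h : Good 0 k 1 0 0 M)
    {A : Type} [AddCommGroup A] (v : Word D → A) : ∃ (ξ0 : A) (ξ : Fin D → ℕ → A),
      (∀ r l, k r ≤ l → ξ r l = 0) ∧ ∀ g ∈ M, v g = ξ0 + ∑ r, ξ r (g r) := by
  have := h.span hD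
  choose! c hc using this
  refine ⟨∑ g ∈ M, c k g • v g, fun r l => if l ≤ k r then
    ∑ g ∈ M, c (update k r l) g • v g - ∑ g ∈ M, c k g • v g else 0, ?_, ?_⟩
  · intro r l hl
    rcases hl.lt_or_eq with hl | hl
    · simp [not_le.2 hl]
    · simp [← hl]
  · intro g hg
    have hgk : ∀ r, g r ≤ k r := (h.1 g hg).2
    simp only [hgk, if_true]
    have key : ∀ x ∈ M, c k x + ∑ r, (c (update k r (g r)) x - c k x) =
        if x = g then 1 else 0 := by
      have := indep hD (l := fun x => ((c k x + ∑ r, (c (update k r (g r)) x - c k x) -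
        if x = g then 1 else 0 : ℤ) : ℂ)) h.2.1 (by
          intro r f
          push_cast
          simp only [add_mul, sub_mul, Finset.sum_add_distrib, Finset.sum_sub_distrib,
            Finset.sum_mul]
          rw [Finset.sum_comm, Finset.sum_comm (s := M)]
          have e : ∀ r', ∑ x ∈ M, (c (update k r' (g r')) x : ℂ) * f (x r) =
              f (update k r' (g r') r) := fun r' =>
            hc _ (update_le_iff.2 ⟨hgk r', fun _ _ => le_rfl⟩) r f
          simp only [e, hc k le_rfl r f]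
          rw [← Finset.sum_sub_distrib, Finset.sum_eq_single r]
          · simp [hg]
          · intro r' _ hr'
            rw [update_of_ne hr'.symm, sub_self]
          · simp)
      intro x hx
      have h2 := this x hx
      rw [Int.cast_eq_zero, sub_eq_zero] at h2
      exact h2
    have e : v g = ∑ x ∈ M, (if x = g then (1 : ℤ) else 0) • v x := by simp [hg]
    rw [e, ← Finset.sum_congr rfl (f := fun x =>
      (c k x + ∑ r, (c (update k r (g r)) x - c k x)) • v x) (fun x hx => by rw [key x hx])]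
    simp only [add_smul, Finset.sum_add_distrib, Finset.sum_smul, sub_smul]
    rw [Finset.sum_comm]
    simp only [Finset.sum_sub_distrib]

open Classical in
/-- the lexicographic rank in the box -/
noncomputable def rank (n ι : Word D) : ℕ := ((Icc 0 n).filter fun κ => toLex κ < toLex ι).card

/-- the weight of a word -/
noncomputable def om (n ι : Word D) : ℕ := 2 ^ rank n ι

theorem rank_lt {n a b : Word D} (ha : a ≤ n) (h : toLex a < toLex b) : rank n a < rank n b := by
  classical
  apply Finset.card_lt_card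
  rw [Finset.ssubset_iff_of_subset]
  · exact ⟨a, mem_filter.2 ⟨mem_Icc.2 ⟨fun _ => Nat.zero_le _, ha⟩, h⟩,
      fun h' => lt_irrefl _ (mem_filter.1 h').2⟩
  · intro κ hκ
    rw [mem_filter] at hκ ⊢
    exact ⟨hκ.1, hκ.2.trans h⟩

theorem om_lt {n a b : Word D} (ha : a ≤ n) (h : a < b) : om n a < om n b :=
  Nat.pow_lt_pow_right (by norm_num) (rank_lt ha (Pi.toLex_strictMono h))

theorem om_update_lt {n a : Word D} (ha : a ≤ n) {r : Fin D} {l : ℕ} (h : l < a r) :
    om n (update a r l) < om n a := by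
  have h1 : update a r l ≤ a := update_le_iff.2 ⟨h.le, fun _ _ => le_rfl⟩
  refine om_lt (h1.trans ha) (lt_of_le_of_ne h1 fun h2 => ?_)
  have := congrFun h2 r
  simp at this
  omega

/-- a pair obtained by exchanging letters -/
def Exch (a b a' b' : Word D) : Prop :=
  ∀ r, (a' r = a r ∧ b' r = b r) ∨ (a' r = b r ∧ b' r = a r)

theorem Exch.le {a b a' b' n : Word D} (h : Exch a b a' b') (ha : a ≤ n) (hb : b ≤ n) :
    a' ≤ n ∧ b' ≤ n := by
  constructor <;> intro r <;> rcases h r with ⟨h1, h2⟩ | ⟨h1, h2⟩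
  · rw [h1]; exact ha r
  · rw [h1]; exact hb r
  · rw [h2]; exact hb r
  · rw [h2]; exact ha r

theorem swap {n a b : Word D} (ha : a ≤ n) (hb : b ≤ n) (h : ¬ Std a b) :
    ∃ a' b', Exch a b a' b' ∧ om n a' + om n b' < om n a + om n b := by
  unfold Std at h
  push Not at h
  obtain ⟨s, hpre, hs, r0, hr0, hlt⟩ := h
  have hex : Exch a b (fun r => if r ≤ s then a r else max (a r) (b r))
      (fun r => if r ≤ s then b r else min (a r) (b r)) := by
    intro r
    by_cases hr : r ≤ s
    · simp [hr]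
    · simp only [hr, if_false]
      omega
  refine ⟨_, _, hex, ?_⟩
  have h1 := rank_lt (n := n) (hex.le ha hb).1 (b := fun r => if r ≤ s then b r else min (a r) (b r))
    ⟨s, fun r hr => by
      have hr' : r < s := hr
      simp [hr'.le, hpre r hr'], by simpa using hs⟩
  have h2 := rank_lt (n := n) (hex.le ha hb).2 (b := b) (Pi.toLex_strictMono (by
    refine lt_of_le_of_ne (fun r => ?_) fun h2 => ?_
    · by_cases hr : r ≤ s <;> simp [hr]
    · have := congrFun h2 r0
      simp only [not_le.2 hr0, if_false] at this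
      omega))
  unfold om
  have e1 := Nat.pow_lt_pow_right (show 1 < 2 by norm_num) h1
  have e2 := Nat.pow_le_pow_right (show 0 < 2 by norm_num) (Nat.succ_le_of_lt h2)
  have e3 : 0 < 2 ^ rank n a := by positivity
  rw [pow_succ] at e2
  omega

theorem swap_at {n a b : Word D} (ha : a ≤ n) (hb : b ≤ n) (h : ¬ Std a b ∨ ¬ Std b a)
    (s : Fin D) : ∃ a' b', Exch a b a' b' ∧ a' s = a s ∧ b' s = b s ∧
      om n a' + om n b' < om n a + om n b := by
  have key : ∃ a' b', Exch a b a' b' ∧ om n a' + om n b' < om n a + om n b := by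
    rcases h with h | h
    · exact swap ha hb h
    · obtain ⟨a', b', h1, h2⟩ := swap hb ha h
      exact ⟨a', b', fun r => (h1 r).symm, by omega⟩
  obtain ⟨a', b', h1, h2⟩ := key
  rcases h1 s with h3 | h3
  · exact ⟨a', b', h1, h3.1, h3.2, h2⟩
  · exact ⟨b', a', fun r => (h1 r).symm.imp And.symm And.symm, h3.2, h3.1, by omega⟩

theorem low_part {X Y X' Y' : Multiset ℕ} (h : X + Y = X' + Y') (hc : X.card = X'.card)
    (h1 : ∀ x ∈ X, ∀ y ∈ Y, x ≤ y) (h2 : ∀ x ∈ X', ∀ y ∈ Y', x ≤ y) : X = X' := by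
  by_contra hne
  have n1 : ¬ X ≤ X' := fun hle => hne (Multiset.eq_of_le_of_card_le hle hc.ge)
  have n2 : ¬ X' ≤ X := fun hle => hne (Multiset.eq_of_le_of_card_le hle hc.le).symm
  rw [Multiset.le_iff_count] at n1 n2
  push Not at n1 n2
  obtain ⟨x, hx⟩ := n1
  obtain ⟨x', hx'⟩ := n2
  have e1 := congrArg (Multiset.count x) h
  have e2 := congrArg (Multiset.count x') h
  simp only [Multiset.count_add] at e1 e2
  have a1 := h1 x (Multiset.count_pos.1 (by omega)) x' (Multiset.count_pos.1 (by omega))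
  have a2 := h2 x' (Multiset.count_pos.1 (by omega)) x (Multiset.count_pos.1 (by omega))
  have : x = x' := by omega
  subst this
  omega

theorem card_filter_eq {A B : Multiset (Word D)} {S : Fin D}
    (h : A.map (fun g => g S) = B.map (fun g => g S)) (p : ℕ → Prop) [DecidablePred p] :
    (A.filter fun g => p (g S)).card = (B.filter fun g => p (g S)).card := by
  have := congrArg (Multiset.countP p) h
  rwa [Multiset.countP_map, Multiset.countP_map] at this

theorem filter_ge_split (A : Multiset (Word D)) (S : Fin D) (c : ℕ) :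
    (A.filter fun g => c ≤ g S) = (A.filter fun g => g S = c) + A.filter fun g => c + 1 ≤ g S := by
  ext g
  simp only [Multiset.count_add, Multiset.count_filter]
  rcases lt_trichotomy (g S) c with h | h | h
  · simp [h.ne, not_le.2 h, show ¬ c + 1 ≤ g S by omega]
  · simp [h]
  · simp [h.ne', h.le, show c + 1 ≤ g S by omega]

theorem uniq_aux (t : ℕ) : ∀ s : ℕ, D ≤ s + t → ∀ (A B : Multiset (Word D)),
    (∀ a ∈ A, ∀ b ∈ A, Std a b) → (∀ a ∈ B, ∀ b ∈ B, Std a b) →
    (∀ a ∈ A + B, ∀ b ∈ A + B, ∀ r : Fin D, r.1 < s → a r = b r) → A.card = B.card →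
    (∀ r : Fin D, s ≤ r.1 → A.map (fun g => g r) = B.map (fun g => g r)) → A = B := by
  induction t with
  | zero =>
    intro s hs A B _ _ hag hc _
    have key : ∀ a ∈ A + B, ∀ b ∈ A + B, a = b := fun a ha b hb =>
      funext fun r => hag a ha b hb r (by omega)
    ext g
    by_cases hg : g ∈ A + B
    · rw [Multiset.count_eq_card.2 fun x hx => key g hg x (by simp [hx]),
        Multiset.count_eq_card.2 fun x hx => key g hg x (by simp [hx]), hc]
    · rw [Multiset.mem_add, not_or] at hg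
      rw [Multiset.count_eq_zero.2 hg.1, Multiset.count_eq_zero.2 hg.2]
  | succ t ih =>
    intro s hs A B hA hB hag hc hmar
    by_cases hsD : D ≤ s + t
    · exact ih s hsD A B hA hB hag hc hmar
    have hsD' : s < D := by omega
    set S : Fin D := ⟨s, hsD'⟩ with hS
    have hlow : ∀ (A : Multiset (Word D)), (∀ a ∈ A, ∀ b ∈ A, Std a b) →
        (∀ a ∈ A, ∀ b ∈ A, ∀ r : Fin D, r.1 < s → a r = b r) → ∀ c : ℕ, ∀ r : Fin D,
        s + 1 ≤ r.1 → ∀ x ∈ (A.filter fun g => c ≤ g S).map (fun g => g r),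
        ∀ y ∈ (A.filter fun g => ¬ c ≤ g S).map (fun g => g r), x ≤ y := by
      intro A hA hag c r hr x hx y hy
      obtain ⟨a, ha, rfl⟩ := Multiset.mem_map.1 hx
      obtain ⟨b, hb, rfl⟩ := Multiset.mem_map.1 hy
      rw [Multiset.mem_filter] at ha hb
      exact hA b hb.1 a ha.1 S (fun r' hr' => hag b hb.1 a ha.1 r' hr') (by omega) r
        (show s < r.1 by omega)
    have hge : ∀ c : ℕ, ∀ r : Fin D, s + 1 ≤ r.1 →
        (A.filter fun g => c ≤ g S).map (fun g => g r) =
          (B.filter fun g => c ≤ g S).map (fun g => g r) := by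
      intro c r hr
      refine low_part ?_ ?_
        (hlow A hA (fun a ha b hb => hag a (by simp [ha]) b (by simp [hb])) c r hr)
        (hlow B hB (fun a ha b hb => hag a (by simp [ha]) b (by simp [hb])) c r hr)
      · rw [← Multiset.map_add, ← Multiset.map_add, Multiset.filter_add_not,
          Multiset.filter_add_not]
        exact hmar r (by omega)
      · rw [Multiset.card_map, Multiset.card_map]
        exact card_filter_eq (hmar S le_rfl) (fun x => c ≤ x)
    have key : ∀ c, (A.filter fun g => g S = c) = B.filter fun g => g S = c := by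
      intro c
      apply ih (s + 1) (by omega)
      · exact fun a ha b hb => hA a (Multiset.mem_of_mem_filter ha) b
          (Multiset.mem_of_mem_filter hb)
      · exact fun a ha b hb => hB a (Multiset.mem_of_mem_filter ha) b
          (Multiset.mem_of_mem_filter hb)
      · intro a ha b hb r hr
        rw [← Multiset.filter_add, Multiset.mem_filter] at ha hb
        rcases Nat.lt_succ_iff_lt_or_eq.1 hr with h | h
        · exact hag a ha.1 b hb.1 r h
        · have : r = S := Fin.ext h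
          rw [this, ha.2, hb.2]
      · exact card_filter_eq (hmar S le_rfl) (fun x => x = c)
      · intro r hr
        have e := hge c r hr
        rw [filter_ge_split A, filter_ge_split B, Multiset.map_add, Multiset.map_add,
          hge (c + 1) r hr] at e
        exact add_right_cancel e
    ext g
    have := congrArg (Multiset.count g) (key (g S))
    simpa [Multiset.count_filter] using this

theorem straighten (hD : 0 < D) (n : Word D) (R : Multiset (Word D))
    (hR : ∀ a ∈ R, ∀ b ∈ R, Std a b) (N : ℕ) : ∀ L : Multiset (Word D),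
    (L.map (om n)).sum < N → (∀ a ∈ L, a ≤ n) →
    (∀ r : Fin D, L.map (fun g => g r) = R.map (fun g => g r)) →
    L = R ∨ (R.map (om n)).sum < (L.map (om n)).sum := by
  induction N with
  | zero => intro L h; omega
  | succ N ih =>
    intro L hN hL hmar
    by_cases hst : ∀ a ∈ L, ∀ b ∈ L, Std a b
    · left
      apply uniq_aux D 0 (by omega) L R hst hR (fun _ _ _ _ r hr => absurd hr (by omega))
      · simpa using congrArg Multiset.card (hmar ⟨0, hD⟩)
      · exact fun r _ => hmar r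
    right
    push Not at hst
    obtain ⟨a, ha, b, hb, hab⟩ := hst
    have hne : b ≠ a := by
      rintro rfl
      exact hab fun s _ h => absurd h (lt_irrefl _)
    obtain ⟨L1, rfl⟩ := Multiset.exists_cons_of_mem ha
    obtain ⟨L0, rfl⟩ := Multiset.exists_cons_of_mem ((Multiset.mem_cons.1 hb).resolve_left hne)
    obtain ⟨a', b', hex, hlt⟩ := swap (hL a ha) (hL b hb) hab
    have := ih (a' ::ₘ b' ::ₘ L0) (by
        simp only [Multiset.map_cons, Multiset.sum_cons] at hN ⊢
        omega)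
      (by
        intro x hx
        rcases Multiset.mem_cons.1 hx with rfl | hx
        · exact (hex.le (hL a ha) (hL b hb)).1
        rcases Multiset.mem_cons.1 hx with rfl | hx
        · exact (hex.le (hL a ha) (hL b hb)).2
        · exact hL x (by simp [hx]))
      (by
        intro r
        rw [← hmar r]
        simp only [Multiset.map_cons]
        rcases hex r with ⟨h1, h2⟩ | ⟨h1, h2⟩
        · rw [h1, h2]
        · rw [h1, h2, Multiset.cons_swap])
    rcases this with h | h
    · rw [← h]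
      simp only [Multiset.map_cons, Multiset.sum_cons]
      omega
    · simp only [Multiset.map_cons, Multiset.sum_cons] at h ⊢
      omega

theorem mmap_sum {X Y Z : Type} (s : Finset Z) (F : Z → Multiset X) (f : X → Y) :
    (∑ g ∈ s, F g).map f = ∑ g ∈ s, (F g).map f :=
  map_sum (Multiset.mapAddMonoidHom f) F s

theorem convex (hD : 0 < D) {n : Word D} {M : Finset (Word D)} (hM : Compat M)
    (hMn : ∀ g ∈ M, g ≤ n) {ι : Word D} (hι : ι ≤ n) (c : Word D → ℤ)
    (hc : ∀ r (f : ℕ → ℂ), ∑ g ∈ M, (c g : ℂ) * f (g r) = f (ι r)) :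
    ι ∈ M ∨ ∑ g ∈ M, c g * om n g < om n ι := by
  have hR : ∀ a ∈ ∑ g ∈ M, Multiset.replicate (c g).toNat g, a ∈ M := by
    intro a ha
    obtain ⟨g, hg, h⟩ := Multiset.mem_sum.1 ha
    exact Multiset.eq_of_mem_replicate h ▸ hg
  have := straighten hD n (∑ g ∈ M, Multiset.replicate (c g).toNat g)
    (fun a ha b hb => hM a (hR a ha) b (hR b hb)) _
    (ι ::ₘ ∑ g ∈ M, Multiset.replicate (-c g).toNat g) (Nat.lt_succ_self _)
    (by
      intro a ha
      rcases Multiset.mem_cons.1 ha with rfl | ha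
      · exact hι
      · obtain ⟨g, hg, h⟩ := Multiset.mem_sum.1 ha
        exact Multiset.eq_of_mem_replicate h ▸ hMn g hg)
    (by
      intro r
      ext x
      simp only [Multiset.map_cons, mmap_sum, Multiset.map_replicate,
        Multiset.count_cons, Multiset.count_sum', Multiset.count_replicate]
      have e := hc r fun y => if y = x then 1 else 0
      have e2 : ∑ g ∈ M, (c g * if g r = x then 1 else 0) = if ι r = x then 1 else 0 := by
        exact_mod_cast e
      zify
      simp only [Nat.cast_inj, eq_comm (a := x) (b := ι r)]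
      rw [← e2, ← Finset.sum_add_distrib]
      apply Finset.sum_congr rfl
      intro g _
      split_ifs
      · omega
      · simp)
  rcases this with h | h
  · exact Or.inl (hR ι (h ▸ Multiset.mem_cons_self _ _))
  · right
    simp only [Multiset.map_cons, Multiset.sum_cons, mmap_sum, Multiset.map_replicate,
      Multiset.sum_sum, Multiset.sum_replicate, smul_eq_mul] at h
    zify at h
    have e : ∑ g ∈ M, c g * om n g = ∑ g ∈ M, ((c g).toNat : ℤ) * om n g -
        ∑ g ∈ M, ((-c g).toNat : ℤ) * om n g := by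
      rw [← Finset.sum_sub_distrib]
      apply Finset.sum_congr rfl
      intro g _
      rw [← sub_mul, Int.toNat_sub_toNat_neg]
    omega

/-- exponents and leading coefficients of the solution branch of a good family -/
structure Data (n k : Word D) (M : Finset (Word D)) where
  /-- exponents of the coordinates -/
  w : Fin D → ℕ → ℕ
  /-- exponent of the leading terms -/
  φ : ℕ
  /-- relative exponents -/
  ρ : Word D → ℕ
  /-- leading coefficients -/
  z : Fin D → ℕ → ℝ
  /-- leading coefficient of the singular value -/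
  μ : ℝ
  hρ : ∀ ι, ι ≤ n → ρ ι + φ = om n ι + ∑ r, w r (ι r)
  hM : ∀ ι, ι ≤ n → (ρ ι = 0 ↔ ι ∈ M)
  hw : ∀ r l, w r l = 0 ↔ k r ≤ l
  z1 : ∀ r, z r (k r) = 1
  z0 : ∀ r l, z r l = 0 ↔ k r < l
  hμ : μ ≠ 0
  rel : ∀ r (f : ℕ → ℂ), ∑ g ∈ M, (∏ r', (z r' (g r') : ℂ)) * f (g r) = μ * f (k r)

theorem exists_data (hD : 0 < D) {n k : Word D} (hk : k ≤ n) {M : Finset (Word D)}
    (h : Good 0 k 1 0 0 M) : Nonempty (Data n k M) := by
  obtain ⟨ξ0, ξ, hξ0, hξ⟩ := h.extend hD (fun g => (om n g : ℤ))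
  have hMk : ∀ g ∈ M, g ≤ k := fun g hg => (h.1 g hg).2
  have cvx : ∀ ι, ι ≤ k → ι ∈ M ∨ ξ0 + ∑ r, ξ r (ι r) < om n ι := by
    intro ι hι
    obtain ⟨c, hc⟩ := h.span hD ι hι
    refine (convex hD h.2.1 (fun g hg => (hMk g hg).trans hk) (hι.trans hk) c hc).imp id
      fun hlt => ?_
    have e1 : ∀ r, ∑ g ∈ M, c g * ξ r (g r) = ξ r (ι r) := fun r => by
      exact_mod_cast hc r fun l => (ξ r l : ℂ)
    have e2 : ∑ g ∈ M, c g = 1 := by
      have := hc ⟨0, hD⟩ fun _ => 1
      simp only [mul_one] at this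
      exact_mod_cast this
    have e3 : ∑ g ∈ M, c g * om n g = ξ0 + ∑ r, ξ r (ι r) := by
      rw [Finset.sum_congr rfl fun g hg => by rw [hξ g hg]]
      simp only [mul_add, Finset.sum_add_distrib, Finset.mul_sum]
      rw [← Finset.sum_mul, e2, Finset.sum_comm]
      simp only [e1, one_mul]
    rwa [← e3]
  have cvx' : ∀ ι, ι ≤ k → ξ0 + ∑ r, ξ r (ι r) ≤ om n ι := fun ι hι =>
    (cvx ι hι).elim (fun h1 => (hξ ι h1).ge) le_of_lt
  have hneg : ∀ r l, l < k r → ξ r l < 0 := by
    intro r l hl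
    obtain ⟨g, hg, hgr⟩ := h.2.2.1 r (k r) (Nat.zero_le _) le_rfl
    have h1 := cvx' (update g r l) (update_le_iff.2 ⟨hl.le, fun r' _ => hMk g hg r'⟩)
    have h2 := hξ g hg
    have h3 := om_update_lt ((hMk g hg).trans hk) (hgr.symm ▸ hl : l < g r)
    rw [← Finset.add_sum_erase _ _ (mem_univ r)] at h1 h2
    rw [update_self, Finset.sum_congr rfl (g := fun r' => ξ r' (g r'))
      fun r' hr' => by rw [update_of_ne (mem_erase.1 hr').1]] at h1
    rw [hgr, hξ0 r _ le_rfl] at h2
    omega
  have hw : ∀ r l, ((-ξ r l).toNat : ℤ) = -ξ r l := by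
    intro r l
    rcases lt_or_ge l (k r) with hl | hl
    · have := hneg r l hl
      omega
    · simp [hξ0 r l hl]
  have cvx2 : ∀ ι, ι ≤ n → ι ∈ M ∨ ξ0 + ∑ r, ξ r (ι r) < om n ι := by
    intro ι hι
    by_cases hik : ι ≤ k
    · exact cvx ι hik
    right
    have h1 := cvx' (ι ⊓ k) inf_le_right
    have h2 : om n (ι ⊓ k) < om n ι := om_lt (inf_le_left.trans hι)
      (lt_of_le_of_ne inf_le_left fun h3 => hik (h3 ▸ inf_le_right))
    have h3 : ∑ r, ξ r ((ι ⊓ k) r) = ∑ r, ξ r (ι r) := by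
      apply Finset.sum_congr rfl
      intro r _
      rcases le_total (ι r) (k r) with h4 | h4
      · simp [h4]
      · simp [h4, hξ0 r _ h4, hξ0 r _ le_rfl]
    omega
  obtain ⟨g0, hg0⟩ := h.nonempty hD (fun _ => Nat.zero_le _)
  have hξpos : 0 ≤ ξ0 := by
    have h1 := hξ g0 hg0
    have h2 : ∑ r, ξ r (g0 r) ≤ 0 := Finset.sum_nonpos fun r _ => by
      have := hw r (g0 r)
      omega
    omega
  obtain ⟨c, hc⟩ := h.span hD k le_rfl
  have hc0 : ∀ g ∈ M, (c g : ℝ) ≠ 0 := by
    obtain ⟨l, hl, hrel⟩ := h.2.2.2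
    have := indep hD (l := fun g => l g - c g) h.2.1 (by
      intro r f
      simp only [sub_mul, Finset.sum_sub_distrib, hc r f, hrel r f]
      simp)
    intro g hg h0
    apply hl g hg
    have h1 := this g hg
    rw [Int.cast_eq_zero] at h0
    simpa [h0] using h1
  obtain ⟨η0, η, hη0, hη⟩ := h.extend hD (A := Additive ℝˣ)
    (fun g => if hg : g ∈ M then Additive.ofMul (Units.mk0 _ (hc0 g hg)) else 0)
  refine ⟨⟨fun r l => (-ξ r l).toNat, ξ0.toNat,
    fun ι => (om n ι - (ξ0 + ∑ r, ξ r (ι r))).toNat,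
    fun r l => if l ≤ k r then ((Additive.toMul (η r l) : ℝˣ) : ℝ) else 0,
    (((Additive.toMul η0)⁻¹ : ℝˣ) : ℝ), ?_, ?_, ?_, ?_, ?_, Units.ne_zero _, ?_⟩⟩
  · intro ι hι
    have h1 : ξ0 + ∑ r, ξ r (ι r) ≤ om n ι := (cvx2 ι hι).elim (fun h1 => (hξ ι h1).ge) le_of_lt
    zify
    simp only [hw, Finset.sum_neg_distrib]
    omega
  · intro ι hι
    constructor
    · intro h1
      refine (cvx2 ι hι).resolve_right ?_
      omega
    · intro h1
      have := hξ ι h1
      omega
  · intro r l
    constructor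
    · intro h1
      by_contra hl
      have := hneg r l (by omega)
      omega
    · intro h1
      simp [hξ0 r l h1]
  · intro r
    simp [hη0 r _ le_rfl]
  · intro r l
    by_cases hl : l ≤ k r
    · simp [hl]
    · simp [hl]
      omega
  · intro r f
    rw [← hc r f, Finset.mul_sum]
    apply Finset.sum_congr rfl
    intro g hg
    have h1 := congrArg (fun x : Additive ℝˣ => ((Additive.toMul x : ℝˣ) : ℝ)) (hη g hg)
    simp only [dif_pos hg, toMul_ofMul, Units.val_mk0, toMul_add, toMul_sum, Units.val_mul,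
      Units.coe_prod] at h1
    have hgk : ∀ r, g r ≤ k r := hMk g hg
    simp only [hgk, if_true]
    rw [← mul_assoc]
    congr 1
    have h2 : (((Additive.toMul η0)⁻¹ : ℝˣ) : ℝ) * c g =
        ∏ r', ((Additive.toMul (η r' (g r')) : ℝˣ) : ℝ) := by
      rw [h1, ← mul_assoc, Units.inv_mul, one_mul]
    exact_mod_cast h2.symm

end Pool.Agent.Lib.MP_a18d4e_ag
end

-- part Pool.Agent.Lib.MP_a18d4e_ag.Unused
section

/-!
A word with an unused letter that is compatible with a related family is unique.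
-/

set_option autoImplicit false

namespace Pool.Agent.Lib.MP_a18d4e_ag

open Finset Function

variable {D : ℕ}

theorem gamma_ne {M : Finset (Word D)} {l : Word D → ℂ} {P : Fin D} {μ : ℂ} {α β h z c : ℕ}
    (hμ : μ ≠ 0) (hα : 0 < α) (H : RelAt M l P (μ * α) h (μ * β) z) (h1 : z ≤ c) (h2 : c < h) :
    ∑ g ∈ M.filter (fun g => c < g P), l g + μ * β ≠ 0 := by
  rw [H.mass_filter (fun x => c < x), if_pos h2, if_neg (not_lt.2 h1), sub_zero, ← mul_add]
  apply mul_ne_zero hμ
  exact_mod_cast (by omega : α + β ≠ 0)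

theorem no_gap {M : Finset (Word D)} {l : Word D → ℂ} {P s : Fin D} {μ : ℂ}
    {α β h z h' z' c j : ℕ} (hμ : μ ≠ 0) (hα : 0 < α) (hne : M.Nonempty)
    (H : RelAt M l P (μ * α) h (μ * β) z) (H' : RelAt M l s (μ * α) h' (μ * β) z')
    (hb : ∀ g ∈ M, z ≤ g P ∧ g P ≤ h) (hb' : ∀ g ∈ M, z' ≤ g s ∧ g s ≤ h')
    (h1 : z ≤ c) (h2 : c < h) (h3 : ∀ g ∈ M, c < g P → g s ≤ j)
    (h4 : ∀ g ∈ M, ¬ c < g P → j ≤ g s) (h5 : ∀ g ∈ M, g s ≠ j) (h6 : j ≤ h') : False := by
  have hα' : μ * α ≠ 0 := mul_ne_zero hμ (by exact_mod_cast hα.ne')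
  obtain ⟨a, ha, haP⟩ := used_hi H hα' hne (fun g hg => (hb g hg).1) (fun g hg => (hb g hg).2)
  by_cases hex : ∃ g ∈ M, ¬ c < g P
  · obtain ⟨g, hg, g', hg', e1, e2, e3⟩ := cut_meet (fun g => c < g P) H'
      (fun g hg g' hg' p1 p2 => (h3 g hg p1).trans (h4 g' hg' p2)) (fun g hg => (hb' g hg).1)
      (fun g hg => (hb' g hg).2) ⟨a, ha, by omega⟩ hex (gamma_ne hμ hα H h1 h2)
    have := h3 g hg e1
    have := h4 g' hg' e2
    have := h5 g hg
    omega
  · push Not at hex
    obtain ⟨b, hb1, hb2⟩ := used_hi H' hα' hne (fun g hg => (hb' g hg).1)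
      (fun g hg => (hb' g hg).2)
    have := h3 b hb1 (hex b hb1)
    have := h5 b hb1
    omega

theorem unused_aux (ι ι' : Word D) (s : Fin D) (hs : ι' s = ι s) (l : Word D → ℂ) {μ : ℂ}
    (hμ : μ ≠ 0) (t : ℕ) : ∀ p : ℕ, s.1 = p + t → ∀ (M : Finset (Word D)) (lo hi : Word D)
      (α β : ℕ), 0 < α → Compat M → M.Nonempty → (∀ g ∈ M, ∀ r : Fin D, r.1 < p → g r = ι r) →
      (∀ r : Fin D, r.1 < p → ι' r = ι r) →
      (∀ r : Fin D, p ≤ r.1 → RelAt M l r (μ * α) (hi r) (μ * β) (lo r)) →
      (∀ g ∈ M, ∀ r : Fin D, p ≤ r.1 → lo r ≤ g r ∧ g r ≤ hi r) →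
      (∀ r : Fin D, p ≤ r.1 → lo r ≤ ι r ∧ ι r ≤ hi r ∧ lo r ≤ ι' r ∧ ι' r ≤ hi r) →
      (∀ g ∈ M, Std g ι ∧ Std ι g ∧ Std g ι' ∧ Std ι' g) → (∀ g ∈ M, g s ≠ ι s) → ι' = ι := by
  induction t with
  | zero =>
    intro p hp M lo hi α β hα hM hne hag hag' hrel hb hι hstd hun
    have hα' : μ * α ≠ 0 := mul_ne_zero hμ (by exact_mod_cast hα.ne')
    have hps : p ≤ s.1 := by omega
    have pre : ∀ g ∈ M, ∀ r, r < s → g r = ι r := fun g hg r hr => hag g hg r (by omega)
    have pre' : ∀ g ∈ M, ∀ r, r < s → g r = ι' r := fun g hg r hr =>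
      (pre g hg r hr).trans (hag' r (by omega)).symm
    obtain ⟨a, ha, has⟩ := used_hi (hrel s hps) hα' hne (fun g hg => (hb g hg s hps).1)
      (fun g hg => (hb g hg s hps).2)
    have hlt : ι s < hi s := by
      have := hun a ha
      have := (hι s hps).2.1
      omega
    funext r
    rcases lt_trichotomy r s with hr | hr | hr
    · exact hag' r (by omega)
    · rw [hr, hs]
    have hpr : p ≤ r.1 := by omega
    have u1 : ∀ g ∈ M, ι s < g s → g r ≤ ι r ∧ g r ≤ ι' r := fun g hg h =>
      ⟨(hstd g hg).2.1 s (fun r' hr' => (pre g hg r' hr').symm) h r hr,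
        (hstd g hg).2.2.2 s (fun r' hr' => (pre' g hg r' hr').symm) (hs ▸ h) r hr⟩
    have u2 : ∀ g ∈ M, ¬ ι s < g s → ι r ≤ g r ∧ ι' r ≤ g r := fun g hg h => by
      have := hun g hg
      exact ⟨(hstd g hg).1 s (pre g hg) (by omega) r hr,
        (hstd g hg).2.2.1 s (pre' g hg) (by omega) r hr⟩
    by_cases hex : ∃ g ∈ M, ¬ ι s < g s
    · obtain ⟨g, hg, g', hg', e1, e2, e3⟩ := cut_meet (fun g => ι s < g s) (hrel r hpr)
        (fun g hg g' hg' p1 p2 => (u1 g hg p1).1.trans (u2 g' hg' p2).1)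
        (fun g hg => (hb g hg r hpr).1) (fun g hg => (hb g hg r hpr).2) ⟨a, ha, by omega⟩ hex
        (gamma_ne hμ hα (hrel s hps) (hι s hps).1 hlt)
      have := u1 g hg e1
      have := u2 g' hg' e2
      omega
    · push Not at hex
      obtain ⟨b, hb1, hb2⟩ := used_hi (hrel r hpr) hα' hne (fun g hg => (hb g hg r hpr).1)
        (fun g hg => (hb g hg r hpr).2)
      have := u1 b hb1 (hex b hb1)
      have := hι r hpr
      omega
  | succ t ih =>
    intro p hp M lo hi α β hα hM hne hag hag' hrel hb hι hstd hun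
    have hα' : μ * α ≠ 0 := mul_ne_zero hμ (by exact_mod_cast hα.ne')
    have hps : p ≤ s.1 := by omega
    have hpD : p < D := by omega
    set P : Fin D := ⟨p, hpD⟩ with hP
    have hPp : p ≤ P.1 := le_rfl
    have hPs : P < s := show p < s.1 by omega
    have pre : ∀ g ∈ M, ∀ r, r < P → g r = ι r := fun g hg r hr => hag g hg r hr
    have pre' : ∀ g ∈ M, ∀ r, r < P → g r = ι' r := fun g hg r hr =>
      (pre g hg r hr).trans (hag' r hr).symm
    have u1 : ∀ g ∈ M, ι P < g P → ∀ r, P < r → g r ≤ ι r := fun g hg h =>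
      (hstd g hg).2.1 P (fun r' hr' => (pre g hg r' hr').symm) h
    have u1' : ∀ g ∈ M, ι' P < g P → ∀ r, P < r → g r ≤ ι' r := fun g hg h =>
      (hstd g hg).2.2.2 P (fun r' hr' => (pre' g hg r' hr').symm) h
    have u2 : ∀ g ∈ M, g P < ι P → ∀ r, P < r → ι r ≤ g r := fun g hg h =>
      (hstd g hg).1 P (pre g hg) h
    have u2' : ∀ g ∈ M, g P < ι' P → ∀ r, P < r → ι' r ≤ g r := fun g hg h =>
      (hstd g hg).2.2.1 P (pre' g hg) h
    have u3 : ∀ g ∈ M, ∀ g' ∈ M, g P < g' P → ∀ r, P < r → g' r ≤ g r := fun g hg g' hg' h =>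
      hM g hg g' hg' P (fun r hr => (pre g hg r hr).trans (pre g' hg' r hr).symm) h
    have gap : ∀ c, lo P ≤ c → c < hi P → (∀ g ∈ M, c < g P → g s ≤ ι s) →
        (∀ g ∈ M, ¬ c < g P → ι s ≤ g s) → False := fun c h1 h2 h3 h4 =>
      no_gap hμ hα hne (hrel P hPp) (hrel s hps) (fun g hg => hb g hg P hPp)
        (fun g hg => hb g hg s hps) h1 h2 h3 h4 hun (hι s hps).2.1
    have hιP := hι P hPp
    have hc : ι' P = ι P := by
      rcases lt_trichotomy (ι' P) (ι P) with h | h | h
      · exact (gap (ι' P) hιP.2.2.1 (by omega) (fun g hg h' => hs ▸ u1' g hg h' s hPs)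
          (fun g hg h' => u2 g hg (by omega) s hPs)).elim
      · exact h
      · exact (gap (ι P) hιP.1 (by omega) (fun g hg h' => u1 g hg h' s hPs)
          (fun g hg h' => hs ▸ u2' g hg (by omega) s hPs)).elim
    have hused : ∃ g ∈ M, g P = ι P := by
      by_contra hcon
      push Not at hcon
      obtain ⟨a, ha, has⟩ := used_hi (hrel P hPp) hα' hne (fun g hg => (hb g hg P hPp).1)
        (fun g hg => (hb g hg P hPp).2)
      have := hcon a ha
      exact gap (ι P) hιP.1 (by omega) (fun g hg h' => u1 g hg h' s hPs)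
        (fun g hg h' => u2 g hg (by have := hcon g hg; omega) s hPs)
    rw [hc] at u1' u2'
    have v1 : ∀ r : Fin D, p + 1 ≤ r.1 →
        let m := lo r ⊔ (M.filter fun g => ι P < g P).sup fun g => g r
        lo r ≤ m ∧ (∀ g ∈ M, ι P < g P → g r ≤ m) ∧ (∀ g ∈ M, ¬ ι P < g P → m ≤ g r) ∧
          m ≤ ι r ∧ m ≤ ι' r := by
      intro r hr
      have hr' : P < r := show p < r.1 by omega
      refine ⟨le_sup_left, fun g hg h => le_sup_of_le_right
        (Finset.le_sup (f := fun g => g r) (mem_filter.2 ⟨hg, h⟩)), fun g hg h =>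
        sup_le (hb g hg r (by omega)).1 (Finset.sup_le fun g' hg' => ?_),
        sup_le (hι r (by omega)).1 (Finset.sup_le fun g' hg' => ?_),
        sup_le (hι r (by omega)).2.2.1 (Finset.sup_le fun g' hg' => ?_)⟩
      · rw [mem_filter] at hg'
        exact u3 g hg g' hg'.1 (by omega) r hr'
      · rw [mem_filter] at hg'
        exact u1 g' hg'.1 hg'.2 r hr'
      · rw [mem_filter] at hg'
        exact u1' g' hg'.1 hg'.2 r hr'
    have v2 : ∀ r : Fin D, p + 1 ≤ r.1 →
        let m := ι r ⊔ (ι' r ⊔ (M.filter fun g => ι P ≤ g P).sup fun g => g r)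
        m ≤ hi r ∧ (∀ g ∈ M, ι P ≤ g P → g r ≤ m) ∧ (∀ g ∈ M, g P < ι P → m ≤ g r) ∧
          ι r ≤ m ∧ ι' r ≤ m := by
      intro r hr
      have hr' : P < r := show p < r.1 by omega
      refine ⟨sup_le (hι r (by omega)).2.1 (sup_le (hι r (by omega)).2.2.2
        (Finset.sup_le fun g' hg' => (hb g' (mem_filter.1 hg').1 r (by omega)).2)),
        fun g hg h => le_sup_of_le_right (le_sup_of_le_right
          (Finset.le_sup (f := fun g => g r) (mem_filter.2 ⟨hg, h⟩))), fun g hg h =>
        sup_le (u2 g hg h r hr') (sup_le (u2' g hg h r hr') (Finset.sup_le fun g' hg' => ?_)),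
        le_sup_left, le_sup_of_le_right le_sup_left⟩
      rw [mem_filter] at hg'
      exact u3 g hg g' hg'.1 (by omega) r hr'
    apply ih (p + 1) (by omega) (M.filter fun g => g P = ι P)
      (fun r => lo r ⊔ (M.filter fun g => ι P < g P).sup fun g => g r)
      (fun r => ι r ⊔ (ι' r ⊔ (M.filter fun g => ι P ≤ g P).sup fun g => g r))
      (α + if lo P < ι P then β else 0) (β + if ι P < hi P then α else 0) (by omega)
      (hM.subset (filter_subset _ _))
    · obtain ⟨g, hg, h⟩ := hused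
      exact ⟨g, mem_filter.2 ⟨hg, h⟩⟩
    · intro g hg r hr
      rw [mem_filter] at hg
      rcases Nat.lt_succ_iff_lt_or_eq.1 hr with h | h
      · exact hag g hg.1 r h
      · have : r = P := Fin.ext h
        rw [this, hg.2]
    · intro r hr
      rcases Nat.lt_succ_iff_lt_or_eq.1 hr with h | h
      · exact hag' r h
      · have : r = P := Fin.ext h
        rw [this, hc]
    · intro r hr
      obtain ⟨a1, a2, a3, a4, a5⟩ := v1 r hr
      obtain ⟨b1, b2, b3, b4, b5⟩ := v2 r hr
      have c1 := (cut_rel (γ := μ * ((β + if ι P < hi P then α else 0 : ℕ) : ℂ))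
        (fun g => ι P < g P) (hrel r (by omega)) a2 a3 a1 (a4.trans (b4.trans b1)) (by
          rw [(hrel P hPp).mass_filter (fun x => ι P < x), if_neg (not_lt.2 hιP.1)]
          split_ifs <;> push_cast <;> ring)).2
      have hf : ((M.filter fun g => ¬ ι P < g P).filter fun g => g P = ι P) =
          M.filter fun g => g P = ι P := by
        rw [filter_filter]
        exact filter_congr fun g _ => by omega
      have c2 := (cut_rel (γ := μ * ((α + if lo P < ι P then β else 0 : ℕ) : ℂ))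
        (fun g => g P = ι P) c1 (fun g hg h => b2 g (mem_filter.1 hg).1 h.ge)
        (fun g hg h => b3 g (mem_filter.1 hg).1 (by have := (mem_filter.1 hg).2; omega))
        (a4.trans b4) b1 (by
          rw [hf, (hrel P hPp).mass_filter (fun x => x = ι P)]
          split_ifs <;> first | omega | (push_cast; ring))).1
      rwa [hf] at c2
    · intro g hg r hr
      rw [mem_filter] at hg
      exact ⟨(v1 r hr).2.2.1 g hg.1 (by omega), (v2 r hr).2.1 g hg.1 hg.2.ge⟩
    · intro r hr
      exact ⟨(v1 r hr).2.2.2.1, (v2 r hr).2.2.2.1, (v1 r hr).2.2.2.2, (v2 r hr).2.2.2.2⟩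
    · exact fun g hg => hstd g (mem_filter.1 hg).1
    · exact fun g hg => hun g (mem_filter.1 hg).1

theorem unused_unique {ι ι' k : Word D} {s : Fin D} (hs : ι' s = ι s) {l : Word D → ℂ} {μ : ℂ}
    (hμ : μ ≠ 0) {M : Finset (Word D)} (hM : Compat M) (hne : M.Nonempty)
    (hrel : ∀ r (f : ℕ → ℂ), ∑ g ∈ M, l g * f (g r) = μ * f (k r)) (hb : ∀ g ∈ M, g ≤ k)
    (h1 : ι ≤ k) (h2 : ι' ≤ k) (hstd : ∀ g ∈ M, Std g ι ∧ Std ι g ∧ Std g ι' ∧ Std ι' g)
    (hun : ∀ g ∈ M, g s ≠ ι s) : ι' = ι :=
  unused_aux ι ι' s hs l hμ s.1 0 (by omega) M 0 k 1 0 one_pos hM hne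
    (fun _ _ r hr => absurd hr (by omega)) (fun r hr => absurd hr (by omega))
    (fun r _ f => by simpa using hrel r f) (fun g hg r _ => ⟨Nat.zero_le _, hb g hg r⟩)
    (fun r _ => ⟨Nat.zero_le _, h1 r, Nat.zero_le _, h2 r⟩) hstd hun

end Pool.Agent.Lib.MP_a18d4e_ag
end
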